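import Pool.Agent.Lib.MP_791321_mp.CCR

set_option autoImplicit false

open scoped ComplexConjugate InnerProductSpace

namespace Pool.Agent.Lib.MP_791321_mp

/-- finitely supported families indexed by occupation numbers -/
def FkSub (I T : Type*) [AddCommGroup T] [Module ℂ T] : Submodule ℂ ((I → ℕ) → T) where
  carrier := {u | (Function.support u).Finite}
  add_mem' {u v} hu hv := (Set.Finite.union hu hv).subset (Function.support_add u v)
  zero_mem' := by simp
  smul_mem' c u hu := Set.Finite.subset hu (Function.support_const_smul_subset c u)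

def Fk (I T : Type*) [AddCommGroup T] [Module ℂ T] : Type _ := ↥(FkSub I T)

namespace Fk

variable {I T T' : Type*} [SeminormedAddCommGroup T] [InnerProductSpace ℂ T]
  [SeminormedAddCommGroup T'] [InnerProductSpace ℂ T']

instance : AddCommGroup (Fk I T) := inferInstanceAs (AddCommGroup ↥(FkSub I T))
instance : Module ℂ (Fk I T) := inferInstanceAs (Module ℂ ↥(FkSub I T))

/-- the underlying function -/
def val (u : Fk I T) : (I → ℕ) → T := (show ↥(FkSub I T) from u).1

def mk (u : (I → ℕ) → T) (h : (Function.support u).Finite) : Fk I T :=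
  (⟨u, h⟩ : ↥(FkSub I T))

@[simp] lemma val_mk (u : (I → ℕ) → T) (h : (Function.support u).Finite) : (mk u h).val = u := rfl
lemma fin (u : Fk I T) : (Function.support u.val).Finite := (show ↥(FkSub I T) from u).2
@[ext] lemma ext {u v : Fk I T} (h : ∀ n, u.val n = v.val n) : u = v := Subtype.ext (funext h)
@[simp] lemma val_add (u v : Fk I T) (n : I → ℕ) : (u + v).val n = u.val n + v.val n := rfl
@[simp] lemma val_smul (c : ℂ) (u : Fk I T) (n : I → ℕ) : (c • u).val n = c • u.val n := rfl
@[simp] lemma val_zero (n : I → ℕ) : (0 : Fk I T).val n = 0 := rfl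
@[simp] lemma val_sum {J : Type*} (s : Finset J) (u : J → Fk I T) (n : I → ℕ) :
    (∑ j ∈ s, u j).val n = ∑ j ∈ s, (u j).val n := by
  classical
  induction s using Finset.induction_on with
  | empty => simp
  | insert a s ha ih => simp [Finset.sum_insert ha, ih]

lemma summable_inner (u v : Fk I T) : Summable fun n => ⟪u.val n, v.val n⟫_ℂ := by
  refine summable_of_hasFiniteSupport (u.fin.subset fun n hn => ?_)
  intro h
  exact hn (by simp [h])

@[reducible] noncomputable def core : PreInnerProductSpace.Core ℂ (Fk I T) where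
  inner u v := ∑' n, ⟪u.val n, v.val n⟫_ℂ
  conj_inner_symm u v := by
    rw [Complex.conj_tsum]; simp [inner_conj_symm]
  re_inner_nonneg u := by
    rw [RCLike.re_to_complex, Complex.re_tsum (summable_inner u u)]
    exact tsum_nonneg fun n => inner_self_nonneg (𝕜 := ℂ)
  add_left u v w := by
    simp only [val_add, inner_add_left]
    exact (summable_inner u w).tsum_add (summable_inner v w)
  smul_left u v r := by
    simp only [val_smul, inner_smul_left]
    exact tsum_mul_left

noncomputable instance : SeminormedAddCommGroup (Fk I T) :=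
  letI := core (I := I) (T := T)
  InnerProductSpace.Core.toSeminormedAddCommGroup (𝕜 := ℂ)

noncomputable instance : InnerProductSpace ℂ (Fk I T) := InnerProductSpace.ofCore core

lemma inner_def (u v : Fk I T) : ⟪u, v⟫_ℂ = ∑' n, ⟪u.val n, v.val n⟫_ℂ := rfl

lemma norm_sq_eq (u : Fk I T) (s : Finset (I → ℕ)) (hs : ∀ n, n ∉ s → u.val n = 0) :
    ‖u‖ ^ 2 = ∑ n ∈ s, ‖u.val n‖ ^ 2 := by
  have h : ⟪u, u⟫_ℂ = ∑ n ∈ s, ⟪u.val n, u.val n⟫_ℂ := by
    rw [inner_def]
    exact tsum_eq_sum fun n hn => by simp [hs n hn]
  simp only [inner_self_eq_norm_sq_to_K] at h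
  apply Complex.ofReal_injective
  push_cast
  exact h

/-- pointwise action of an operator on the coefficients -/
def lift (p : T →ₗ[ℂ] T') : Fk I T →ₗ[ℂ] Fk I T' where
  toFun u := mk (fun n => p (u.val n)) (u.fin.subset fun n hn h => hn (by simp [h]))
  map_add' u v := by ext n; simp
  map_smul' c u := by ext n; simp

@[simp] lemma val_lift (p : T →ₗ[ℂ] T') (u : Fk I T) (n : I → ℕ) :
    (lift p u).val n = p (u.val n) := rfl

lemma lift_adj (p q : T →ₗ[ℂ] T) (h : ∀ x y, ⟪p x, y⟫_ℂ = ⟪x, q y⟫_ℂ) (u v : Fk I T) :
    ⟪lift p u, v⟫_ℂ = ⟪u, lift q v⟫_ℂ := by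
  simp [inner_def, h]

variable [DecidableEq I]

lemma up_inj (m : I) : Function.Injective fun n : I → ℕ => Function.update n m (n m + 1) := by
  intro n n' h
  funext i
  have := congrFun h i
  by_cases hi : i = m
  · subst hi; simpa using this
  · simpa [Function.update_of_ne hi] using this

noncomputable def a (m : I) : Fk I T →ₗ[ℂ] Fk I T where
  toFun u := mk (fun n => ((√((n m : ℝ) + 1) : ℝ) : ℂ) • u.val (Function.update n m (n m + 1)))
    ((u.fin.preimage (up_inj m).injOn).subset fun n hn h => hn (by simp [h]))
  map_add' u v := by ext n; simp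
  map_smul' c u := by ext n; simp [smul_comm c]

lemma up_down (m : I) (n : I → ℕ) (h : n m ≠ 0) :
    Function.update (Function.update n m (n m - 1)) m
      ((Function.update n m (n m - 1)) m + 1) = n := by
  funext i
  by_cases hi : i = m
  · subst hi; simp; omega
  · simp [Function.update_of_ne hi]

noncomputable def c (m : I) : Fk I T →ₗ[ℂ] Fk I T where
  toFun u := mk (fun n => ((√(n m : ℝ) : ℝ) : ℂ) • u.val (Function.update n m (n m - 1)))
    ((u.fin.image fun n => Function.update n m (n m + 1)).subset fun n hn => by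
      refine ⟨Function.update n m (n m - 1), fun h => hn (by simp [h]), up_down m n ?_⟩
      intro h
      exact hn (by simp [h]))
  map_add' u v := by ext n; simp
  map_smul' c u := by ext n; simp [smul_comm c]

lemma val_a (m : I) (u : Fk I T) (n : I → ℕ) : (a m u).val n =
    ((√((n m : ℝ) + 1) : ℝ) : ℂ) • u.val (Function.update n m (n m + 1)) := rfl

lemma val_c (m : I) (u : Fk I T) (n : I → ℕ) : (c m u).val n =
    ((√(n m : ℝ) : ℝ) : ℂ) • u.val (Function.update n m (n m - 1)) := rfl

lemma lift_a (p : T →ₗ[ℂ] T') (m : I) (u : Fk I T) : lift p (a m u) = a m (lift p u) := by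
  ext n; simp [val_a]

lemma lift_c (p : T →ₗ[ℂ] T') (m : I) (u : Fk I T) : lift p (c m u) = c m (lift p u) := by
  ext n; simp [val_c]

lemma c_adj (m : I) (u v : Fk I T) : ⟪c m u, v⟫_ℂ = ⟪u, a m v⟫_ℂ := by
  rw [inner_def, inner_def, ← (up_inj m).tsum_eq]
  · refine tsum_congr fun n => ?_
    simp only [val_a, val_c, inner_smul_left, inner_smul_right, Complex.conj_ofReal,
      Function.update_self, Function.update_idem, Nat.add_sub_cancel, Function.update_eq_self,
      Nat.cast_add, Nat.cast_one]
  · intro n hn
    refine ⟨Function.update n m (n m - 1), up_down m n ?_⟩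
    intro h
    exact hn (by simp [val_c, h])

lemma a_c (m m' : I) (u : Fk I T) :
    a m (c m' u) = c m' (a m u) + if m = m' then u else 0 := by
  ext n
  by_cases h : m = m'
  · subst h
    simp only [val_a, val_c, val_add, if_true, smul_smul, Function.update_self,
      Function.update_idem, Nat.add_sub_cancel, Function.update_eq_self]
    have h1 : ((√((n m : ℝ) + 1) : ℝ) : ℂ) * ((√(((n m + 1 : ℕ) : ℝ)) : ℝ) : ℂ) = (n m : ℂ) + 1 := by
      rw [← Complex.ofReal_mul, Nat.cast_add, Nat.cast_one, Real.mul_self_sqrt (by positivity)]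
      push_cast; rfl
    rw [h1]
    by_cases h0 : n m = 0
    · simp [h0]
    · have h2 : n m - 1 + 1 = n m := by omega
      have h3 : ((n m - 1 : ℕ) : ℝ) + 1 = n m := by exact_mod_cast h2
      rw [h2, h3, Function.update_eq_self, ← Complex.ofReal_mul,
        Real.mul_self_sqrt (by positivity), add_smul, one_smul]
      simp
  · simp only [val_a, val_c, if_neg h, smul_smul, add_zero,
      Function.update_of_ne h, Function.update_of_ne (Ne.symm h)]
    rw [Function.update_comm h, mul_comm]

lemma c_c (m m' : I) (u : Fk I T) : c m (c m' u) = c m' (c m u) := by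
  by_cases h : m = m'
  · rw [h]
  · ext n
    simp only [val_c, smul_smul, Function.update_of_ne h, Function.update_of_ne (Ne.symm h)]
    rw [Function.update_comm h, mul_comm]

lemma a_a (m m' : I) (u : Fk I T) : a m (a m' u) = a m' (a m u) := by
  by_cases h : m = m'
  · rw [h]
  · ext n
    simp only [val_a, smul_smul, Function.update_of_ne h, Function.update_of_ne (Ne.symm h)]
    rw [Function.update_comm h, mul_comm]

/-- the Fock representation -/
noncomputable def ccr : CCR I (Fk I T) where
  a := a
  c := c
  adj := c_adj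
  ac := a_c
  cc := c_c
  aa := a_a

/-- the vacuum -/
noncomputable def vac : Fk I ℂ :=
  mk (fun n => by classical exact if n = 0 then 1 else 0)
    ((Set.finite_singleton 0).subset fun n hn => by
      by_contra h
      exact hn (by simpa using h))

lemma a_vac (m : I) : a m (vac : Fk I ℂ) = 0 := by
  ext n
  have : Function.update n m (n m + 1) ≠ 0 := fun h => by simpa using congrFun h m
  simp [val_a, vac, this]

omit [DecidableEq I] in
lemma norm_vac : ‖(vac : Fk I ℂ)‖ = 1 := by
  have := norm_sq_eq (vac : Fk I ℂ) {0} (fun n hn => by simpa [vac] using hn)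
  simp only [vac, Finset.sum_singleton, val_mk, if_true, norm_one, one_pow] at this
  have h := norm_nonneg (vac : Fk I ℂ)
  simp only [vac] at h ⊢
  nlinarith

end Fk

end Pool.Agent.Lib.MP_791321_mp
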