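import Pool.Agent.Lib.MP_791321_mp.Test

set_option autoImplicit false

open scoped ComplexConjugate InnerProductSpace ContDiff
open MeasureTheory

namespace Pool.Agent.Lib.MP_791321_mp

abbrev SS (L Λ : ℝ) (N : ℕ) : Type := Fk (Mode L Λ) (Tst N)

variable {L Λ : ℝ} {N : ℕ}

noncomputable def kk (m : Mode L Λ) : V3 := mom L m.1

noncomputable def Eop (j : Fin N) (k : V3) : SS L Λ N →ₗ[ℂ] SS L Λ N :=
  Fk.lift (Tst.mul (ex j k) (ex_smooth j k))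

lemma Eop_comm (j : Fin N) (k k' : V3) (u : SS L Λ N) :
    Eop j k (Eop j k' u) = Eop j k' (Eop j k u) := by
  ext n σ x; simp only [Eop, Fk.val_lift, Tst.val_mul]; ring

lemma Eop_neg (j : Fin N) (k : V3) (u : SS L Λ N) : Eop j k (Eop j (-k) u) = u := by
  ext n σ x; simp only [Eop, Fk.val_lift, Tst.val_mul]
  rw [← mul_assoc, ex_mul_neg, one_mul]

lemma Eop_adj (j : Fin N) (k : V3) (u v : SS L Λ N) : ⟪Eop j (-k) u, v⟫_ℂ = ⟪u, Eop j k v⟫_ℂ :=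
  Fk.lift_adj _ _ (Tst.mul_adj _ _ _ _ fun x => by rw [conj_ex, neg_neg]) u v

lemma Eop_a (j : Fin N) (k : V3) (m : Mode L Λ) (u : SS L Λ N) :
    Fk.a m (Eop j k u) = Eop j k (Fk.a m u) := (Fk.lift_a _ m u).symm

lemma Eop_c (j : Fin N) (k : V3) (m : Mode L Λ) (u : SS L Λ N) :
    Fk.c m (Eop j k u) = Eop j k (Fk.c m u) := (Fk.lift_c _ m u).symm

lemma norm_Eop (j : Fin N) (k : V3) (u : SS L Λ N) : ‖Eop j k u‖ ^ 2 = ‖u‖ ^ 2 := by
  have h : ⟪Eop j k u, Eop j k u⟫_ℂ = ⟪u, u⟫_ℂ := by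
    rw [← Eop_adj, Eop_comm, Eop_neg]
  simp only [inner_self_eq_norm_sq_to_K] at h
  exact_mod_cast h

noncomputable def dressed (j : Fin N) : CCR (Mode L Λ) (SS L Λ N) where
  a m := Eop j (kk m) ∘ₗ Fk.a m
  c m := Eop j (-kk m) ∘ₗ Fk.c m
  adj m u v := by
    simp only [LinearMap.comp_apply]
    rw [Eop_adj, Fk.c_adj, Eop_a]
  ac m m' u := by
    simp only [LinearMap.comp_apply, Eop_a, Eop_c, Fk.a_c, map_add]
    rw [Eop_comm]
    congr 1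
    split_ifs with h
    · subst h; exact Eop_neg _ _ _
    · simp
  cc m m' u := by
    simp only [LinearMap.comp_apply, Eop_c]
    rw [Eop_comm, Fk.c_c]
  aa m m' u := by
    simp only [LinearMap.comp_apply, Eop_a]
    rw [Eop_comm, Fk.a_a]

noncomputable def wt (ε : V3 → Fin 2 → V3) (i : Fin 3) (m : Mode L Λ) : ℝ :=
  ε (kk m) m.2 i / √(2 * L ^ 3 * ‖kk m‖)

noncomputable def uvec (L Λ : ℝ) (ε : V3 → Fin 2 → V3) (i : Fin 3) :
    EuclideanSpace ℂ (Mode L Λ) := WithLp.toLp 2 fun m => (wt ε i m : ℂ)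

noncomputable def Aop (ε : V3 → Fin 2 → V3) (j : Fin N) (i : Fin 3) : SS L Λ N →ₗ[ℂ] SS L Λ N :=
  (dressed j).An (uvec L Λ ε i) + (dressed j).Cr (uvec L Λ ε i)

noncomputable def dir (j : Fin N) (i : Fin 3) : Fin N → V3 :=
  Pi.single j (EuclideanSpace.single i 1)

noncomputable def Pop (j : Fin N) (i : Fin 3) : SS L Λ N →ₗ[ℂ] SS L Λ N :=
  Fk.lift (Tst.p (dir j i))

noncomputable def Dop (α : ℝ) (ε : V3 → Fin 2 → V3) (j : Fin N) (i : Fin 3) :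
    SS L Λ N →ₗ[ℂ] SS L Λ N := Pop j i + ((√α : ℝ) : ℂ) • Aop ε j i

lemma Aop_symm (ε : V3 → Fin 2 → V3) (j : Fin N) (i : Fin 3) (u v : SS L Λ N) :
    ⟪Aop ε j i u, v⟫_ℂ = ⟪u, Aop ε j i v⟫_ℂ := by
  simp only [Aop, LinearMap.add_apply, inner_add_left, inner_add_right, CCR.An_adj, CCR.Cr_adj]
  ring

lemma Pop_symm (j : Fin N) (i : Fin 3) (u v : SS L Λ N) :
    ⟪Pop j i u, v⟫_ℂ = ⟪u, Pop j i v⟫_ℂ := Fk.lift_adj _ _ (Tst.p_symm _) u v

lemma Dop_symm (α : ℝ) (ε : V3 → Fin 2 → V3) (j : Fin N) (i : Fin 3) (u v : SS L Λ N) :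
    ⟪Dop α ε j i u, v⟫_ℂ = ⟪u, Dop α ε j i v⟫_ℂ := by
  simp only [Dop, LinearMap.add_apply, LinearMap.smul_apply, inner_add_left, inner_add_right,
    inner_smul_left, inner_smul_right, Pop_symm, Aop_symm, Complex.conj_ofReal]

lemma Pop_a (j : Fin N) (i : Fin 3) (m : Mode L Λ) (u : SS L Λ N) :
    Pop j i ((dressed j).a m u) = (dressed j).a m (Pop j i u) +
      ((kk m i : ℝ) : ℂ) • (dressed j).a m u := by
  have h1 : Fk.a m (Pop j i u) = Pop j i (Fk.a m u) := (Fk.lift_a _ m u).symm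
  simp only [dressed, LinearMap.comp_apply, h1]
  ext1 n
  simp only [Pop, Eop, Fk.val_lift, Fk.val_add, Fk.val_smul, p_mul_ex]
  simp [dir, EuclideanSpace.inner_single_right]

noncomputable def toRaw (u : SS L Λ N) : State L Λ N := fun n => (u.val n).val

lemma toRaw_add (u v : SS L Λ N) : toRaw (u + v) = toRaw u + toRaw v := rfl
lemma toRaw_smul (c : ℂ) (u : SS L Λ N) : toRaw (c • u) = c • toRaw u := rfl
lemma toRaw_sum {J : Type*} (s : Finset J) (u : J → SS L Λ N) :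
    toRaw (∑ j ∈ s, u j) = ∑ j ∈ s, toRaw (u j) := by
  ext n σ x; simp [toRaw, Finset.sum_apply]
lemma toRaw_a (m : Mode L Λ) (u : SS L Λ N) : toRaw (Fk.a m u) = ann m (toRaw u) := rfl
lemma toRaw_c (m : Mode L Λ) (u : SS L Λ N) : toRaw (Fk.c m u) = cre m (toRaw u) := rfl
lemma toRaw_P (j : Fin N) (i : Fin 3) (u : SS L Λ N) :
    toRaw (Pop j i u) = momOp j i (toRaw u) := rfl

lemma toRaw_A (ε : V3 → Fin 2 → V3) (j : Fin N) (i : Fin 3) (u : SS L Λ N) :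
    toRaw (Aop ε j i u) = vecPot ε j i (toRaw u) := by
  ext n σ x
  simp only [Aop, LinearMap.add_apply, CCR.An_apply, CCR.Cr_apply, ← Finset.sum_add_distrib,
    toRaw_sum, vecPot, Finset.sum_apply, toRaw_add, toRaw_smul, Pi.add_apply, Pi.smul_apply,
    smul_eq_mul]
  refine Finset.sum_congr rfl fun m _ => ?_
  have h1 : toRaw ((dressed j).a m u) n σ x = ex j (kk m) x * ann m (toRaw u) n σ x := rfl
  have h2 : toRaw ((dressed j).c m u) n σ x = ex j (-kk m) x * cre m (toRaw u) n σ x := rfl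
  rw [h1, h2, ex_neg]
  simp only [uvec, Complex.conj_ofReal, ex, wt, kk]
  ring

lemma toRaw_D (α : ℝ) (ε : V3 → Fin 2 → V3) (j : Fin N) (i : Fin 3) (u : SS L Λ N) :
    toRaw (Dop α ε j i u) = kin α ε j i (toRaw u) := by
  simp only [Dop, LinearMap.add_apply, LinearMap.smul_apply, toRaw_add, toRaw_smul, toRaw_P,
    toRaw_A, kin]

lemma inn_toRaw (u v : SS L Λ N) : inn (toRaw u) (toRaw v) = ⟪u, v⟫_ℂ := rfl

noncomputable def energy (α : ℝ) (ε : V3 → Fin 2 → V3) (u : SS L Λ N) : ℝ :=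
  ∑ m : Mode L Λ, ‖kk m‖ * ‖Fk.a m u‖ ^ 2 + 1 / 2 * ∑ j, ∑ i, ‖Dop α ε j i u‖ ^ 2

lemma inn_self (u : SS L Λ N) : (inn (toRaw u) (toRaw u)).re = ‖u‖ ^ 2 := by
  rw [inn_toRaw, ← RCLike.re_to_complex, inner_self_eq_norm_sq]

lemma inn_Ham (α : ℝ) (ε : V3 → Fin 2 → V3) (u : SS L Λ N) :
    (inn (toRaw u) (Ham α ε (toRaw u))).re = energy α ε u := by
  have h : Ham α ε (toRaw u) = toRaw (∑ m : Mode L Λ, ((‖kk m‖ : ℝ) : ℂ) • Fk.c m (Fk.a m u) +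
      (1 / 2 : ℂ) • ∑ j, ∑ i, Dop α ε j i (Dop α ε j i u)) := by
    simp only [toRaw_add, toRaw_smul, toRaw_sum, toRaw_c, toRaw_a, toRaw_D, Ham, Hf, kk]
  have h2 : ∀ m, ⟪u, Fk.c m (Fk.a m u)⟫_ℂ = ⟪Fk.a m u, Fk.a m u⟫_ℂ := fun m =>
    ((Fk.ccr (T := Tst N)).adj' m u (Fk.a m u)).symm
  have h3 : inn (toRaw u) (Ham α ε (toRaw u)) = (energy α ε u : ℂ) := by
    rw [h, inn_toRaw]
    simp only [inner_add_right, inner_sum, inner_smul_right, h2, ← Dop_symm,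
      inner_self_eq_norm_sq_to_K, energy]
    push_cast
    rfl
  rw [h3, Complex.ofReal_re]

lemma exists_toRaw {Ψ : State L Λ N} (h : IsCore Ψ) : ∃ u : SS L Λ N, toRaw u = Ψ := by
  refine ⟨Fk.mk (fun n => Tst.mk (Ψ n) (h.2.1 n)) (h.1.subset fun n hn h0 => hn ?_), rfl⟩
  ext σ x
  simp [h0]

lemma norm_pos_of_toRaw {u : SS L Λ N} (h : toRaw u ≠ 0) : 0 < ‖u‖ := by
  obtain ⟨n, hn⟩ : ∃ n, u.val n ≠ 0 := by
    by_contra hc
    push Not at hc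
    exact h (by ext n σ x; simp [toRaw, hc])
  have h1 := Fk.norm_sq_eq u u.fin.toFinset (fun n hn => by simpa using hn)
  have h2 : ‖u.val n‖ ^ 2 ≤ ‖u‖ ^ 2 := by
    rw [h1]
    exact Finset.single_le_sum (f := fun n => ‖u.val n‖ ^ 2) (fun _ _ => sq_nonneg _)
      (by simpa using hn)
  have h3 := Tst.norm_pos hn
  exact lt_of_le_of_ne (norm_nonneg _) fun h0 => by
    rw [← h0] at h2; nlinarith

lemma le_E0 (α : ℝ) (ε : V3 → Fin 2 → V3) (b : ℝ)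
    (h : ∀ u : SS L Λ N, b * ‖u‖ ^ 2 ≤ energy α ε u) : (b : EReal) ≤ E0 N α Λ L ε := by
  refine le_iInf fun Ψ => le_iInf fun hΨ => le_iInf fun h0 => ?_
  obtain ⟨u, rfl⟩ := exists_toRaw hΨ
  have := norm_pos_of_toRaw h0
  rw [inn_Ham, inn_self, EReal.coe_le_coe_iff, le_div_iff₀ (by positivity)]
  exact h u

lemma E0_le (α : ℝ) (ε : V3 → Fin 2 → V3) (a : ℝ) (u : SS L Λ N) (hu : IsCore (toRaw u))
    (h0 : 0 < ‖u‖) (h : energy α ε u ≤ a * ‖u‖ ^ 2) : E0 N α Λ L ε ≤ (a : EReal) := by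
  have h1 : toRaw u ≠ 0 := by
    intro hc
    have := inn_self u
    rw [hc] at this
    simp only [inn, Pi.zero_apply, mul_zero, integral_zero, Finset.sum_const_zero, tsum_zero,
      Complex.zero_re] at this
    nlinarith
  refine iInf_le_of_le (toRaw u) (iInf_le_of_le hu (iInf_le_of_le h1 ?_))
  rw [inn_Ham, inn_self, EReal.coe_le_coe_iff, div_le_iff₀ (by positivity)]
  exact h

/-- the norm as an integral of fibre norms -/
lemma norm_sq_fibre (u : SS L Λ N) :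
    (∀ σ, Integrable fun x => ‖Fk.lift (Tst.ev σ x) u‖ ^ 2) ∧
      ‖u‖ ^ 2 = ∑ σ, ∫ x, ‖Fk.lift (Tst.ev σ x) u‖ ^ 2 := by
  have hs : ∀ n, n ∉ u.fin.toFinset → u.val n = 0 := fun n hn => by simpa using hn
  have h1 : ∀ σ x, ‖Fk.lift (Tst.ev σ x) u‖ ^ 2 = ∑ n ∈ u.fin.toFinset, ‖(u.val n).val σ x‖ ^ 2 :=
    fun σ x => Fk.norm_sq_eq _ _ fun n hn => by simp [hs n hn]
  simp only [h1]
  refine ⟨fun σ => integrable_finsetSum _ fun n _ => Tst.integrable_normSq _ _, ?_⟩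
  rw [Fk.norm_sq_eq u _ hs]
  simp only [Tst.norm_sq_eq]
  rw [Finset.sum_comm]
  exact Finset.sum_congr rfl fun σ _ =>
    (integral_finsetSum _ fun n _ => Tst.integrable_normSq _ _).symm

end Pool.Agent.Lib.MP_791321_mp
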