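import Mathlib

set_option autoImplicit false

open scoped ComplexConjugate InnerProductSpace

namespace Pool.Agent.Lib.MP_791321_mp

/-- Abstract canonical commutation relations on a pre-Hilbert space. -/
structure CCR (I S : Type*) [DecidableEq I] [SeminormedAddCommGroup S]
    [InnerProductSpace ℂ S] where
  a : I → S →ₗ[ℂ] S
  c : I → S →ₗ[ℂ] S
  adj : ∀ m u v, ⟪c m u, v⟫_ℂ = ⟪u, a m v⟫_ℂ
  ac : ∀ m m' u, a m (c m' u) = c m' (a m u) + if m = m' then u else 0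
  cc : ∀ m m' u, c m (c m' u) = c m' (c m u)
  aa : ∀ m m' u, a m (a m' u) = a m' (a m u)

namespace CCR

variable {I S : Type*} [Fintype I] [DecidableEq I] [SeminormedAddCommGroup S]
  [InnerProductSpace ℂ S] (C : CCR I S)

/-- smeared creation operator -/
noncomputable def Cr : EuclideanSpace ℂ I →ₗ[ℂ] (S →ₗ[ℂ] S) where
  toFun g := ∑ m, g m • C.c m
  map_add' f g := by simp [add_smul, Finset.sum_add_distrib]
  map_smul' r g := by simp [Finset.smul_sum, mul_smul]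

/-- smeared annihilation operator -/
noncomputable def An : EuclideanSpace ℂ I →ₗ⋆[ℂ] (S →ₗ[ℂ] S) where
  toFun g := ∑ m, conj (g m) • C.a m
  map_add' f g := by simp [add_smul, Finset.sum_add_distrib]
  map_smul' r g := by simp [Finset.smul_sum, mul_smul]

lemma Cr_apply (g : EuclideanSpace ℂ I) (u : S) : C.Cr g u = ∑ m, g m • C.c m u := by
  simp [Cr, LinearMap.sum_apply]

lemma An_apply (g : EuclideanSpace ℂ I) (u : S) : C.An g u = ∑ m, conj (g m) • C.a m u := by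
  simp [An, LinearMap.sum_apply]

lemma Cr_adj (g : EuclideanSpace ℂ I) (u v : S) : ⟪C.Cr g u, v⟫_ℂ = ⟪u, C.An g v⟫_ℂ := by
  simp [Cr_apply, An_apply, sum_inner, inner_sum, inner_smul_left, inner_smul_right, C.adj]

lemma An_adj (g : EuclideanSpace ℂ I) (u v : S) : ⟪C.An g u, v⟫_ℂ = ⟪u, C.Cr g v⟫_ℂ := by
  rw [← inner_conj_symm, ← C.Cr_adj, inner_conj_symm]

lemma adj' (m : I) (u v : S) : ⟪C.a m u, v⟫_ℂ = ⟪u, C.c m v⟫_ℂ := by
  rw [← inner_conj_symm, ← C.adj, inner_conj_symm]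

lemma An_Cr (f g : EuclideanSpace ℂ I) (u : S) :
    C.An f (C.Cr g u) = C.Cr g (C.An f u) + ⟪f, g⟫_ℂ • u := by
  simp only [Cr_apply, An_apply, map_sum, map_smul, C.ac, smul_add, Finset.sum_add_distrib,
    Finset.smul_sum]
  congr 1
  · rw [Finset.sum_comm]
    refine Finset.sum_congr rfl fun m _ => Finset.sum_congr rfl fun m' _ => ?_
    rw [smul_comm]
  · rw [PiLp.inner_apply, Finset.sum_smul]
    refine Finset.sum_congr rfl fun m _ => ?_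
    rw [Finset.sum_eq_single m]
    · simp [smul_smul, mul_comm]
    · intro b _ hb
      simp [hb]
    · simp

lemma Cr_Cr (f g : EuclideanSpace ℂ I) (u : S) : C.Cr f (C.Cr g u) = C.Cr g (C.Cr f u) := by
  simp only [Cr_apply, map_sum, map_smul, Finset.smul_sum]
  rw [Finset.sum_comm]
  refine Finset.sum_congr rfl fun m _ => Finset.sum_congr rfl fun m' _ => ?_
  rw [smul_comm, C.cc]

lemma An_An (f g : EuclideanSpace ℂ I) (u : S) : C.An f (C.An g u) = C.An g (C.An f u) := by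
  simp only [An_apply, map_sum, map_smul, Finset.smul_sum]
  rw [Finset.sum_comm]
  refine Finset.sum_congr rfl fun m _ => Finset.sum_congr rfl fun m' _ => ?_
  rw [smul_comm, C.aa]

lemma inner_Cr_Cr (f g : EuclideanSpace ℂ I) (u v : S) :
    ⟪C.Cr f u, C.Cr g v⟫_ℂ = ⟪C.An g u, C.An f v⟫_ℂ + ⟪f, g⟫_ℂ * ⟪u, v⟫_ℂ := by
  rw [C.Cr_adj, C.An_Cr, inner_add_right, inner_smul_right, C.An_adj]

lemma norm_Cr_sq (g : EuclideanSpace ℂ I) (u : S) :
    ‖C.Cr g u‖ ^ 2 = ‖C.An g u‖ ^ 2 + ‖g‖ ^ 2 * ‖u‖ ^ 2 := by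
  have h := C.inner_Cr_Cr g g u u
  simp only [inner_self_eq_norm_sq_to_K] at h
  exact_mod_cast h

lemma An_single (m : I) : C.An (EuclideanSpace.single m 1) = C.a m := by
  ext u
  rw [An_apply, Finset.sum_eq_single m]
  · simp
  · intro b _ hb
    simp [hb]
  · simp

end CCR

/-- The commutator (uncertainty) inequality. -/
lemma commutator_bound {S J : Type*} [Fintype J] [SeminormedAddCommGroup S]
    [InnerProductSpace ℂ S] (D b bs : J → S →ₗ[ℂ] S) (κ : ℝ) (γ : J → ℝ) (u : S)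
    (hD : ∀ i v w, ⟪D i v, w⟫_ℂ = ⟪v, D i w⟫_ℂ)
    (hb : ∀ i v w, ⟪bs i v, w⟫_ℂ = ⟪v, b i w⟫_ℂ)
    (hcomm : ∑ i, (b i (D i u) - D i (b i u)) = (κ : ℂ) • u)
    (hγ : ∀ i, ‖bs i u‖ ^ 2 = ‖b i u‖ ^ 2 + γ i * ‖u‖ ^ 2) (l : ℝ) (hl : 0 < l) :
    κ * ‖u‖ ^ 2 ≤ l * ∑ i, ‖D i u‖ ^ 2 + (1 / l) * ∑ i, ‖b i u‖ ^ 2
      + (1 / (2 * l)) * (∑ i, γ i) * ‖u‖ ^ 2 := by
  have h1 : ((κ * ‖u‖ ^ 2 : ℝ) : ℂ) = ∑ i, (⟪bs i u, D i u⟫_ℂ - ⟪D i u, b i u⟫_ℂ) := by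
    have : ⟪u, (κ : ℂ) • u⟫_ℂ = ((κ * ‖u‖ ^ 2 : ℝ) : ℂ) := by
      rw [inner_smul_right, inner_self_eq_norm_sq_to_K]; simp
    rw [← this, ← hcomm, inner_sum]
    refine Finset.sum_congr rfl fun i _ => ?_
    rw [inner_sub_right, hb, hD]
  have h2 : κ * ‖u‖ ^ 2 ≤ ∑ i, (‖bs i u‖ * ‖D i u‖ + ‖D i u‖ * ‖b i u‖) := by
    calc κ * ‖u‖ ^ 2 ≤ ‖((κ * ‖u‖ ^ 2 : ℝ) : ℂ)‖ := by
          rw [Complex.norm_real]; exact le_abs_self _
      _ ≤ ∑ i, ‖⟪bs i u, D i u⟫_ℂ - ⟪D i u, b i u⟫_ℂ‖ := by rw [h1]; exact norm_sum_le _ _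
      _ ≤ _ := Finset.sum_le_sum fun i _ => (norm_sub_le _ _).trans
          (add_le_add (norm_inner_le_norm _ _) (norm_inner_le_norm _ _))
  refine h2.trans ?_
  rw [Finset.mul_sum, Finset.mul_sum, Finset.mul_sum, Finset.sum_mul, ← Finset.sum_add_distrib,
    ← Finset.sum_add_distrib]
  refine Finset.sum_le_sum fun i _ => ?_
  have key : ∀ x y : ℝ, x * y ≤ l / 2 * x ^ 2 + 1 / (2 * l) * y ^ 2 := by
    intro x y
    have : l / 2 * x ^ 2 + 1 / (2 * l) * y ^ 2 - x * y = (l * x - y) ^ 2 / (2 * l) := by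
      field_simp; ring
    have h3 : 0 ≤ (l * x - y) ^ 2 / (2 * l) := by positivity
    linarith
  have a1 := key ‖D i u‖ ‖bs i u‖
  have a2 := key ‖D i u‖ ‖b i u‖
  rw [hγ i] at a1
  have e : 1 / l = 2 * (1 / (2 * l)) := by field_simp
  rw [e]
  nlinarith

end Pool.Agent.Lib.MP_791321_mp
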