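import Pool.Agent.Lib.MP_791321_mp.Lower

set_option autoImplicit false

open MeasureTheory Filter Topology
open scoped Pointwise

namespace Pool.Agent.Lib.MP_791321_mp

theorem rho_tendsto {Λ : ℝ} (hΛ : 0 < Λ) :
    ∃ ρ : ℝ, 0 < ρ ∧ Tendsto (fun L => rho L Λ) atTop (𝓝 ρ) := by
  have hpi := Real.pi_pos
  let e : (Fin 3 → ℝ) ≃L[ℝ] V3 := (EuclideanSpace.equiv (Fin 3) ℝ).symm
  let s : Set (Fin 3 → ℝ) := e ⁻¹' Metric.ball 0 (Λ / (2 * Real.pi))
  have hmem : ∀ x, x ∈ s ↔ ‖e x‖ < Λ / (2 * Real.pi) := fun x => by simp [s]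
  have hopen : IsOpen s := Metric.isOpen_ball.preimage e.continuous
  have hconv : Convex ℝ s := (convex_ball _ _).linear_preimage e.toLinearEquiv.toLinearMap
  have h0 : (0 : Fin 3 → ℝ) ∈ s := by rw [hmem]; simp; positivity
  have hbdd : Bornology.IsBounded s := by
    refine (Metric.isBounded_closedBall (x := 0) (r := Λ / (2 * Real.pi))).subset fun x hx => ?_
    rw [mem_closedBall_zero_iff, pi_norm_le_iff_of_nonneg (by positivity)]
    intro i
    exact (PiLp.norm_apply_le (e x) i).trans ((hmem x).mp hx).le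
  have ht := tendsto_card_div_pow_atTop_volume' s hbdd hopen.measurableSet
    (hconv.addHaar_frontier volume)
    (fun x y hx hxy => by
      rintro _ ⟨w, hw, rfl⟩
      have hy : 0 < y := hx.trans_le hxy
      refine ⟨(x / y) • w, ?_, ?_⟩
      · exact hconv.smul_mem_of_zero_mem h0 hw ⟨by positivity, (div_le_one hy).mpr hxy⟩
      · simp only [smul_smul]; congr 1; field_simp)
  have hpos : 0 < volume.real s := by
    rw [Measure.real, ENNReal.toReal_pos_iff]
    exact ⟨hopen.measure_pos volume ⟨0, h0⟩, hbdd.measure_lt_top⟩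
  refine ⟨_, hpos, ?_⟩
  have h1 : Tendsto (fun L : ℝ => 1 / L ^ 3) atTop (𝓝 0) :=
    tendsto_const_nhds.div_atTop (tendsto_pow_atTop (by norm_num))
  have h2 := ht.sub h1
  rw [sub_zero] at h2
  refine h2.congr' ?_
  filter_upwards [eventually_gt_atTop 0] with L hL
  let g : (Fin 3 → ℤ) → (Fin 3 → ℝ) := fun z i => L⁻¹ * z i
  have hg : Function.Injective g := by
    intro z z' h
    funext i
    have := congrFun h i
    simp only [g] at this
    exact_mod_cast mul_left_cancel₀ (inv_pos.mpr hL).ne' this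
  have hm : ∀ z, mom L z = (2 * Real.pi) • e (g z) := by
    intro z; ext i; simp [mom, e, g]; ring
  have hn : ∀ z, ‖mom L z‖ < Λ ↔ g z ∈ s := by
    intro z
    rw [hm, hmem, norm_smul, Real.norm_of_nonneg (by positivity), lt_div_iff₀ (by positivity),
      mul_comm]
  have hz : ∀ z, mom L z = 0 ↔ z = 0 := by
    intro z
    constructor
    · intro h
      funext i
      have := congrArg (fun v : V3 => v i) h
      simp only [mom, PiLp.zero_apply, mul_eq_zero] at this
      rcases this with h | h
      · exact absurd h (by positivity)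
      · exact_mod_cast h
    · rintro rfl; ext i; simp [mom]
  have hset : s ∩ L⁻¹ • ((Submodule.span ℤ (Set.range (Pi.basisFun ℝ (Fin 3))) :
      Submodule ℤ (Fin 3 → ℝ)) : Set (Fin 3 → ℝ)) =
      g '' insert 0 (Kset L Λ) := by
    ext x
    simp only [Set.mem_inter_iff, Set.mem_image, Set.mem_insert_iff, Set.mem_smul_set,
      SetLike.mem_coe]
    constructor
    · rintro ⟨hx, y, hy, rfl⟩
      rw [Module.Basis.mem_span_iff_repr_mem] at hy
      choose z hz' using hy
      have hgz : g z = L⁻¹ • y := by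
        funext i
        have := hz' i
        simp only [Pi.basisFun_repr, algebraMap_int_eq, eq_intCast] at this
        simp [g, this]
      refine ⟨z, ?_, hgz⟩
      by_cases h : z = 0
      · exact Or.inl h
      · exact Or.inr ⟨fun h' => h ((hz z).mp h'), (hn z).mpr (hgz ▸ hx)⟩
    · rintro ⟨z, hz', rfl⟩
      refine ⟨?_, fun i => z i, ?_, ?_⟩
      · rcases hz' with rfl | h
        · rw [← hn, (hz 0).mpr rfl]; simpa using hΛ
        · exact (hn z).mp h.2
      · rw [Module.Basis.mem_span_iff_repr_mem]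
        intro i
        exact ⟨z i, by simp⟩
      · funext i; simp [g]
  have hnot : (0 : Fin 3 → ℤ) ∉ Kset L Λ := fun h => h.1 ((hz 0).mpr rfl)
  rw [hset, Nat.card_coe_set_eq, Set.ncard_image_of_injective _ hg,
    Set.ncard_insert_of_notMem hnot (Kset_finite L Λ), rho, ← Nat.card_coe_set_eq,
    Nat.card_eq_fintype_card]
  simp only [Fintype.card_fin]
  push_cast
  ring

end Pool.Agent.Lib.MP_791321_mp
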