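import Mathlib

set_option autoImplicit false

open scoped ComplexConjugate ContDiff

namespace Pool.Agent.Lib.MP_791321_mp

/-- Physical space. -/
abbrev V3 : Type := EuclideanSpace ℝ (Fin 3)

/-- The photon momentum `k = (2π/L) z` labelled by an integer vector `z`. -/
noncomputable def mom (L : ℝ) (z : Fin 3 → ℤ) : V3 :=
  WithLp.toLp 2 fun i => 2 * Real.pi / L * (z i : ℝ)

/-- The set `K` of momenta with `0 < |k| < Λ`, through their integer labels. -/
def Kset (L Λ : ℝ) : Set (Fin 3 → ℤ) := {z | mom L z ≠ 0 ∧ ‖mom L z‖ < Λ}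

theorem Kset_finite (L Λ : ℝ) : (Kset L Λ).Finite := by
  by_cases hL : L = 0
  · have : Kset L Λ = ∅ := by
      ext z
      simp only [Kset, Set.mem_ofPred_eq, Set.mem_empty_iff_false, iff_false, not_and]
      intro h
      exact absurd (by ext i; simp [mom, hL]) h
    rw [this]; exact Set.finite_empty
  · have hc : 0 < |2 * Real.pi / L| := abs_pos.mpr (by have := Real.pi_pos; positivity)
    obtain ⟨B, hB⟩ := exists_nat_ge (Λ / |2 * Real.pi / L|)
    refine (Set.Finite.pi' (fun _ : Fin 3 => Set.finite_Icc (-(B : ℤ)) B)).subset ?_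
    intro z hz i
    have h1 : ‖mom L z i‖ ≤ ‖mom L z‖ := PiLp.norm_apply_le _ _
    have h2 : ‖mom L z i‖ = |2 * Real.pi / L| * |(z i : ℝ)| := by
      rw [← abs_mul]; rfl
    have h3 : |(z i : ℝ)| ≤ B := by
      refine le_trans ?_ hB
      rw [le_div_iff₀ hc]
      nlinarith [hz.2]
    have h4 : |z i| ≤ (B : ℤ) := by exact_mod_cast h3
    exact abs_le.mp h4

noncomputable instance instFintypeKset (L Λ : ℝ) : Fintype (Kset L Λ) := (Kset_finite L Λ).fintype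

/-- Photon modes `(k, μ)`. -/
abbrev Mode (L Λ : ℝ) : Type := Kset L Λ × Fin 2

/-- Wave functions `Ψ n σ x`: photon occupation numbers `n` (orthonormal occupation basis of Fock
space), spins `σ` and positions `x` of the `N` particles. -/
abbrev State (L Λ : ℝ) (N : ℕ) : Type :=
  (Mode L Λ → ℕ) → (Fin N → Fin 2) → (Fin N → V3) → ℂ

/-- Polarisation vectors: orthonormal and orthogonal to `k`. -/
def IsPolarisation (ε : V3 → Fin 2 → V3) : Prop :=
  ∀ k : V3, k ≠ 0 → Orthonormal ℝ (ε k) ∧ ∀ μ, inner ℝ (ε k μ) k = 0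

variable {L Λ : ℝ} {N : ℕ}

/-- Annihilation operator `a_μ(k)`. -/
noncomputable def ann (m : Mode L Λ) (Ψ : State L Λ N) : State L Λ N :=
  fun n σ x => (√((n m : ℝ) + 1) : ℝ) * Ψ (Function.update n m (n m + 1)) σ x

/-- Creation operator `a*_μ(k)`. -/
noncomputable def cre (m : Mode L Λ) (Ψ : State L Λ N) : State L Λ N :=
  fun n σ x => (√(n m : ℝ) : ℝ) * Ψ (Function.update n m (n m - 1)) σ x

/-- Field energy `H_f`. -/
noncomputable def Hf (Ψ : State L Λ N) : State L Λ N :=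
  ∑ m : Mode L Λ, ((‖mom L m.1‖ : ℝ) : ℂ) • cre m (ann m Ψ)

/-- Component `i` of the vector potential `A(x_j)`. -/
noncomputable def vecPot (ε : V3 → Fin 2 → V3) (j : Fin N) (i : Fin 3) (Ψ : State L Λ N) :
    State L Λ N :=
  fun n σ x => ∑ m : Mode L Λ,
    ((ε (mom L m.1) m.2 i / √(2 * L ^ 3 * ‖mom L m.1‖) : ℝ) : ℂ) *
      (Complex.exp (Complex.I * (inner ℝ (mom L m.1) (x j) : ℝ)) * ann m Ψ n σ x +
        Complex.exp (-(Complex.I * (inner ℝ (mom L m.1) (x j) : ℝ))) * cre m Ψ n σ x)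

/-- Component `i` of `p_j = -i ∇_{x_j}`. -/
noncomputable def momOp (j : Fin N) (i : Fin 3) (Ψ : State L Λ N) : State L Λ N :=
  fun n σ x => -Complex.I * fderiv ℝ (Ψ n σ) x (Pi.single j (EuclideanSpace.single i 1))

/-- Component `i` of `p_j + √α A(x_j)`. -/
noncomputable def kin (α : ℝ) (ε : V3 → Fin 2 → V3) (j : Fin N) (i : Fin 3) (Ψ : State L Λ N) :
    State L Λ N :=
  momOp j i Ψ + ((√α : ℝ) : ℂ) • vecPot ε j i Ψ

/-- The Hamiltonian `H(N) = H_f + (1/2) ∑_j (p_j + √α A(x_j))²`. -/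
noncomputable def Ham (α : ℝ) (ε : V3 → Fin 2 → V3) (Ψ : State L Λ N) : State L Λ N :=
  Hf Ψ + (1 / 2 : ℂ) • ∑ j : Fin N, ∑ i : Fin 3, kin α ε j i (kin α ε j i Ψ)

/-- The scalar product of Fock space tensor `L²((ℝ³ × {1,2})^N)`. -/
noncomputable def inn (Ψ Φ : State L Λ N) : ℂ :=
  ∑' n : Mode L Λ → ℕ, ∑ σ : Fin N → Fin 2, ∫ x, conj (Ψ n σ x) * Φ n σ x

/-- The core: finitely many photons, smooth and compactly supported in `x`, antisymmetric under
exchange of particle labels. -/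
def IsCore (Ψ : State L Λ N) : Prop :=
  {n | Ψ n ≠ 0}.Finite ∧
  (∀ n σ, ContDiff ℝ ∞ (Ψ n σ) ∧ HasCompactSupport (Ψ n σ)) ∧
  ∀ (π : Equiv.Perm (Fin N)) n σ x,
    Ψ n (σ ∘ π) (x ∘ π) = ((Equiv.Perm.sign π : ℤ) : ℂ) * Ψ n σ x

/-- The ground state energy `E₀(N)` in the box of side `L`. -/
noncomputable def E0 (N : ℕ) (α Λ L : ℝ) (ε : V3 → Fin 2 → V3) : EReal :=
  ⨅ (Ψ : State L Λ N) (_ : IsCore Ψ) (_ : Ψ ≠ 0),
    (((inn Ψ (Ham α ε Ψ)).re / (inn Ψ Ψ).re : ℝ) : EReal)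

end Pool.Agent.Lib.MP_791321_mp
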