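import Pool.Agent.Lib.MP_6c3a95_mp.Weak

/-! Test functions are dense in the Sobolev space of order one. -/

set_option autoImplicit false
set_option linter.unusedSectionVars false

open MeasureTheory Filter Topology
open scoped ContDiff ENNReal

namespace Pool.Agent.Lib.MP_791321_mp.F24

open Pool.Agent.Lib.MP_6c3a95_mp

variable {X : Type} [NormedAddCommGroup X] [NormedSpace ℝ X] [FiniteDimensional ℝ X]
  [MeasurableSpace X] [BorelSpace X] {μ : Measure X} [μ.IsAddHaarMeasure] {κ : Type} [Fintype κ]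

theorem tri {E : Type} [NormedAddCommGroup E] {a b c : X → E} {η η' : ℝ≥0∞}
    (ha : AEStronglyMeasurable a μ) (hb : AEStronglyMeasurable b μ) (hc : AEStronglyMeasurable c μ)
    (h1 : eLpNorm (a - b) 2 μ ≤ η) (h2 : eLpNorm (b - c) 2 μ ≤ η') : eLpNorm (a - c) 2 μ ≤ η + η' := by
  rw [← sub_add_sub_cancel a b c]
  exact (eLpNorm_add_le (ha.sub hb) (hb.sub hc) one_le_two).trans (add_le_add h1 h2)

theorem cutoff {F : X → ℝ} (w : κ → X) (hF : ContDiff ℝ ∞ F) (h0 : MemLp F 2 μ)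
    (h1 : ∀ c, MemLp (dd F (w c)) 2 μ) {η : ℝ≥0∞} (hη : 0 < η) :
    ∃ φ, Test φ ∧ eLpNorm (φ - F) 2 μ ≤ η ∧ ∀ c, eLpNorm (dd φ (w c) - dd F (w c)) 2 μ ≤ η + η := by
  let b : ContDiffBump (0 : X) := ⟨1, 2, one_pos, one_lt_two⟩
  have hb : Test b := ⟨b.contDiff, b.hasCompactSupport⟩
  let r : ℕ → ℝ := fun k => 1 / ((k : ℝ) + 1)
  have r0 : ∀ k, 0 < r k := fun k => by positivity
  have r1 : Tendsto r atTop (𝓝 0) := tendsto_one_div_add_atTop_nhds_zero_nat
  have t : ∀ k, Test fun x => b (r k • x) := fun k =>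
    ⟨b.contDiff.comp (contDiff_const_smul _),
      hb.cpt.comp_homeomorph (Homeomorph.smulOfNeZero (r k) (r0 k).ne')⟩
  have cv : ∀ f : X → ℝ, MemLp f 2 μ → Cv μ (fun k x => b (r k • x) * f x) f := fun f hf => by
    refine Cv.of_ae hf (fun k => (t k).smooth.continuous.aestronglyMeasurable.mul hf.1)
      (fun k => eLpNorm_mono fun x => ?_) (Eventually.of_forall fun x => ?_)
    · rw [norm_mul, Real.norm_of_nonneg b.nonneg]
      exact mul_le_of_le_one_left (norm_nonneg _) b.le_one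
    · have := (b.continuous.tendsto _).comp (r1.smul_const x)
      rw [zero_smul, b.one_of_mem_closedBall (Metric.mem_closedBall_self b.rIn_pos.le)] at this
      simpa using this.mul_const (f x)
  have e3 : ∀ c, ∀ᶠ k in atTop, eLpNorm (fun x => r k * dd b (w c) (r k • x) * F x) 2 μ ≤ η := by
    intro c
    obtain ⟨C, hC⟩ := (hb.dd (w c)).smooth.continuous.bounded_above_of_compact_support
      (hb.dd (w c)).cpt
    have a1 : Tendsto (fun k => ENNReal.ofReal (r k * C) * eLpNorm F 2 μ) atTop (𝓝 0) := by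
      have := ENNReal.Tendsto.mul_const (b := eLpNorm F 2 μ)
        (ENNReal.tendsto_ofReal (r1.mul_const C)) (Or.inr h0.2.ne)
      simpa using this
    filter_upwards [a1.eventually (ge_mem_nhds hη)] with k hk
    refine (eLpNorm_le_mul_eLpNorm_of_ae_le_mul (Eventually.of_forall fun x => ?_) 2).trans hk
    rw [norm_mul, norm_mul, Real.norm_of_nonneg (r0 k).le]
    gcongr
    exact hC _
  obtain ⟨k, ⟨k1, k2⟩, k3⟩ := ((((cv F h0).tend.eventually (ge_mem_nhds hη)).and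
    (eventually_all.2 fun c => (cv _ (h1 c)).tend.eventually (ge_mem_nhds hη))).and
    (eventually_all.2 e3)).exists
  refine ⟨fun x => b (r k • x) * F x, ⟨(t k).smooth.mul hF, (t k).cpt.mul_right⟩, k1, fun c => ?_⟩
  have e : dd (fun x => b (r k • x) * F x) (w c) - dd F (w c) =
      ((fun x => b (r k • x) * dd F (w c) x) - dd F (w c)) +
        fun x => r k * dd b (w c) (r k • x) * F x := by
    funext x
    have d1 := ((hb.smooth.differentiable (by simp) (r k • x)).hasFDerivAt.comp x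
      ((hasFDerivAt_id x).const_smul (r k))).mul (hF.differentiable (by simp) x).hasFDerivAt
    have d2 : fderiv ℝ (fun x => b (r k • x) * F x) x = _ := d1.fderiv
    simp [dd, d2]
    ring
  rw [e]
  refine (eLpNorm_add_le (((cv _ (h1 c)).mem k).1.sub (h1 c).1) ?_ one_le_two).trans
    (add_le_add (k2 c) (k3 c))
  exact ((continuous_const.mul ((hb.dd (w c)).smooth.continuous.comp
    (continuous_const_smul _))).mul hF.continuous).aestronglyMeasurable

theorem approx_real {f : X → ℝ} {g : κ → X → ℝ} (w : κ → X) (hf : MemLp f 2 μ)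
    (hg : ∀ c, MemLp (g c) 2 μ) (h : ∀ c, WD μ f (g c) (w c)) {η : ℝ≥0∞} (hη : 0 < η) :
    ∃ φ, Test φ ∧ eLpNorm (φ - f) 2 μ ≤ 3 * η ∧ ∀ c, eLpNorm (dd φ (w c) - g c) 2 μ ≤ 3 * η := by
  obtain ⟨k, k1, k2⟩ := (((mol_cv hf).tend.eventually (ge_mem_nhds hη)).and
    (eventually_all.2 fun c => (mol_cv (hg c)).tend.eventually (ge_mem_nhds hη))).exists
  have s := mol_smooth hf (rho_test (μ := μ) k)
  have e : ∀ c, dd (mol μ f (rho μ k)) (w c) = mol μ (g c) (rho μ k) := fun c => funext fun x =>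
    ((s.differentiable (by simp) x).hasFDerivAt.hasLineDerivAt (w c)).unique
      ((h c).ld hf (rho_test k) x)
  have m : ∀ c, MemLp (dd (mol μ f (rho μ k)) (w c)) 2 μ := fun c =>
    e c ▸ mol_memLp (hg c) (rho_test k)
  obtain ⟨φ, h1, h2, h3⟩ := cutoff w s (mol_memLp hf (rho_test k)) m hη
  refine ⟨φ, h1, (tri h1.memLp.1 s.continuous.aestronglyMeasurable hf.1 h2 k1).trans ?_,
    fun c => (tri (h1.dd _).memLp.1 (m c).1 (hg c).1 (h3 c) (e c ▸ k2 c)).trans (le_of_eq (by ring))⟩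
  rw [← two_mul]
  gcongr
  norm_num

theorem cplx {a b : X → ℝ} {f : X → ℂ} (ha : AEStronglyMeasurable a μ)
    (hb : AEStronglyMeasurable b μ) (hf : MemLp f 2 μ) :
    eLpNorm ((fun x => (a x : ℂ) + Complex.I * b x) - f) 2 μ ≤
      eLpNorm (a - fun x => (f x).re) 2 μ + eLpNorm (b - fun x => (f x).im) 2 μ := by
  have h1 := ha.sub hf.re.1
  have h2 := hb.sub hf.im.1
  refine le_trans (eLpNorm_mono_real fun x => ?_) ((eLpNorm_add_le h1.norm h2.norm one_le_two).trans
    (le_of_eq (by rw [eLpNorm_norm, eLpNorm_norm]; rfl)))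
  refine (Complex.norm_le_abs_re_add_abs_im _).trans (le_of_eq ?_)
  simp

theorem approx {f : X → ℂ} {g : κ → X → ℂ} (w : κ → X) (hf : MemLp f 2 μ)
    (hg : ∀ c, MemLp (g c) 2 μ) (h : ∀ c (φ : X → ℝ), ContDiff ℝ ∞ φ → HasCompactSupport φ →
      ∫ x, f x * (fderiv ℝ φ x (w c) : ℝ) ∂μ = -∫ x, g c x * φ x ∂μ) {η : ℝ≥0∞} (hη : 0 < η) :
    ∃ φ : X → ℂ, (ContDiff ℝ ∞ φ ∧ HasCompactSupport φ) ∧ eLpNorm (φ - f) 2 μ ≤ 6 * η ∧
      ∀ c, eLpNorm ((fun x => fderiv ℝ φ x (w c)) - g c) 2 μ ≤ 6 * η := by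
  have i : ∀ {f : X → ℂ} {φ : X → ℝ}, MemLp f 2 μ → Test φ → Integrable (fun x => f x * φ x) μ :=
    fun hf hφ => hf.integrable_mul hφ.memLp.ofReal
  have k : ∀ T : ℂ →L[ℝ] ℝ, ∀ c, WD μ (fun x => T (f x)) (fun x => T (g c x)) (w c) := by
    intro T c φ hφ
    have : T (∫ x, f x * dd φ (w c) x ∂μ) = _ := congrArg T (h c φ hφ.smooth hφ.cpt)
    rw [map_neg, ← T.integral_comp_comm (i hf (hφ.dd (w c))),
      ← T.integral_comp_comm (i (hg c) hφ)] at this
    simpa only [mul_comm (f _), mul_comm (g c _), ← Complex.real_smul, map_smul, smul_eq_mul,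
      mul_comm (T _), dd] using this
  obtain ⟨a, a1, a2, a3⟩ := approx_real w hf.re (fun c => (hg c).re) (k Complex.reCLM) hη
  obtain ⟨b, b1, b2, b3⟩ := approx_real w hf.im (fun c => (hg c).im) (k Complex.imCLM) hη
  have s : ∀ {a : X → ℝ}, Test a → ContDiff ℝ ∞ fun x => (a x : ℂ) := fun h =>
    Complex.ofRealCLM.contDiff.comp h.smooth
  have e6 : 3 * η + 3 * η = 6 * η := by ring
  refine ⟨fun x => (a x : ℂ) + Complex.I * b x, ⟨(s a1).add (contDiff_const.mul (s b1)),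
    (a1.cpt.comp_left (g := Complex.ofReal) rfl).add
      (b1.cpt.comp_left (g := fun t : ℝ => Complex.I * t) (by simp))⟩,
    (cplx a1.memLp.1 b1.memLp.1 hf).trans ((add_le_add a2 b2).trans e6.le), fun c => ?_⟩
  refine le_trans (le_of_eq ?_) ((cplx (a1.dd (w c)).memLp.1 (b1.dd (w c)).memLp.1 (hg c)).trans
    ((add_le_add (a3 c) (b3 c)).trans e6.le))
  congr 2
  funext x
  have d : ∀ {a : X → ℝ}, Test a → HasFDerivAt (fun x => (a x : ℂ))
      (Complex.ofRealCLM.comp (fderiv ℝ a x)) x := fun h =>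
    Complex.ofRealCLM.hasFDerivAt.comp x (h.smooth.differentiable (by simp) x).hasFDerivAt
  rw [((d a1).fun_add ((d b1).const_mul Complex.I)).fderiv]
  simp [dd]

end Pool.Agent.Lib.MP_791321_mp.F24
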