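import Pool.Agent.Lib.MP_791321_mp.Defs

set_option autoImplicit false

open MeasureTheory
open scoped ENNReal

namespace Pool.Agent.Lib.MP_791321_mp

variable {L Λ : ℝ} {N : ℕ}

/-- The squared norm in Fock space tensor `L²((ℝ³ × {1,2})^N)`, possibly infinite. -/
noncomputable def nsq (Ψ : State L Λ N) : ℝ≥0∞ :=
  ∑' n : Mode L Λ → ℕ, ∑ σ : Fin N → Fin 2, ∫⁻ x, ‖Ψ n σ x‖ₑ ^ 2

/-- `g` is the weak derivative of `f` with respect to the coordinate `i` of the particle `j`. -/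
def WeakDeriv (j : Fin N) (i : Fin 3) (f g : (Fin N → V3) → ℂ) : Prop :=
  ∀ φ : (Fin N → V3) → ℝ, ContDiff ℝ (⊤ : ℕ∞) φ → HasCompactSupport φ →
    ∫ x, f x * (fderiv ℝ φ x (Pi.single j (EuclideanSpace.single i 1)) : ℝ) = -∫ x, g x * φ x

/-- `Ψ` is a vector of Fock space tensor antisymmetric `L²` whose components have the weak
gradient `G` in `L²`. -/
def InDom (Ψ : State L Λ N) (G : Fin N → Fin 3 → State L Λ N) : Prop :=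
  (∀ n σ, MemLp (Ψ n σ) 2) ∧ nsq Ψ ≠ ⊤ ∧
  (∀ (π : Equiv.Perm (Fin N)) n σ, ∀ᵐ x : Fin N → V3,
    Ψ n (σ ∘ π) (x ∘ π) = ((Equiv.Perm.sign π : ℤ) : ℂ) * Ψ n σ x) ∧
  ∀ j i n σ, MemLp (G j i n σ) 2 ∧ WeakDeriv j i (Ψ n σ) (G j i n σ)

/-- The quadratic form `∑ |k| ‖a Ψ‖² + (1/2) ∑ ‖(p_j + √α A(x_j)) Ψ‖²` of `H(N)`, possibly
infinite. -/
noncomputable def formE (α : ℝ) (ε : V3 → Fin 2 → V3) (Ψ : State L Λ N)
    (G : Fin N → Fin 3 → State L Λ N) : ℝ≥0∞ :=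
  ∑ m : Mode L Λ, ‖mom L m.1‖ₑ * nsq (ann m Ψ) +
    1 / 2 * ∑ j : Fin N, ∑ i : Fin 3, nsq ((-Complex.I) • G j i + ((√α : ℝ) : ℂ) • vecPot ε j i Ψ)

/-- The ground state energy: the infimum over the whole form domain. -/
noncomputable def E0F (N : ℕ) (α Λ L : ℝ) (ε : V3 → Fin 2 → V3) : ℝ≥0∞ :=
  ⨅ (Ψ : State L Λ N) (G : Fin N → Fin 3 → State L Λ N) (_ : InDom Ψ G) (_ : nsq Ψ ≠ 0),
    formE α ε Ψ G / nsq Ψ

end Pool.Agent.Lib.MP_791321_mp
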