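import Pool.Agent.Lib.MP_791321_mp.FDefs
import Pool.Agent.Lib.MP_791321_mp.FApprox
import Pool.Agent.Lib.MP_791321_mp.Bridge

/-! The ground state energy over the form domain and over the core. -/

set_option autoImplicit false

open MeasureTheory Filter Topology
open scoped ENNReal

namespace Pool.Agent.Lib.MP_791321_mp.F24

variable {L Λ : ℝ} {N : ℕ}

noncomputable def mu (L Λ : ℝ) (N : ℕ) :
    Measure (((Mode L Λ → ℕ) × (Fin N → Fin 2)) × (Fin N → V3)) :=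
  Measure.sum fun p => volume.map (Prod.mk p)

def unc (Φ : State L Λ N) (w : ((Mode L Λ → ℕ) × (Fin N → Fin 2)) × (Fin N → V3)) : ℂ :=
  Φ w.1.1 w.1.2 w.2

noncomputable def eL (Φ : State L Λ N) : ℝ≥0∞ := eLpNorm (unc Φ) 2 (mu L Λ N)

def Ms (Φ : State L Λ N) : Prop := ∀ n σ, AEStronglyMeasurable (Φ n σ) volume

noncomputable def tt (Φ : State L Λ N) (n : Mode L Λ → ℕ) : ℝ≥0∞ := ∑ σ, ∫⁻ x, ‖Φ n σ x‖ₑ ^ 2

theorem sq_eL {α : Type} [MeasurableSpace α] (μ : Measure α) (f : α → ℂ) :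
    eLpNorm f 2 μ ^ 2 = ∫⁻ x, ‖f x‖ₑ ^ 2 ∂μ := by
  rw [eLpNorm_eq_lintegral_rpow_enorm_toReal (by norm_num) (by norm_num), ← ENNReal.rpow_natCast,
    ← ENNReal.rpow_mul]
  simp

theorem nsq_eq (Φ : State L Λ N) : nsq Φ = eL Φ ^ 2 := by
  rw [eL, sq_eL, mu, lintegral_sum_measure, ENNReal.tsum_prod', nsq]
  simp only [tsum_fintype, (measurableEmbedding_prodMk_left _).lintegral_map, unc]

theorem Ms.ae {Φ : State L Λ N} (h : Ms Φ) : AEStronglyMeasurable (unc Φ) (mu L Λ N) :=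
  AEStronglyMeasurable.sum_measure fun p =>
    (measurableEmbedding_prodMk_left p).aestronglyMeasurable_map_iff.2 (h p.1 p.2)

theorem Ms.add {Φ Ψ : State L Λ N} (h : Ms Φ) (h' : Ms Ψ) : Ms (Φ + Ψ) :=
  fun n σ => (h n σ).add (h' n σ)

theorem Ms.sub {Φ Ψ : State L Λ N} (h : Ms Φ) (h' : Ms Ψ) : Ms (Φ - Ψ) :=
  fun n σ => (h n σ).sub (h' n σ)

theorem Ms.smul {Φ : State L Λ N} (h : Ms Φ) (c : ℂ) : Ms (c • Φ) :=
  fun n σ => (h n σ).const_smul c

theorem Ms.ann {Φ : State L Λ N} (h : Ms Φ) (m : Mode L Λ) : Ms (ann m Φ) :=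
  fun _ σ => (h _ σ).const_mul _

theorem Ms.cre {Φ : State L Λ N} (h : Ms Φ) (m : Mode L Λ) : Ms (cre m Φ) :=
  fun _ σ => (h _ σ).const_mul _

theorem eL_add {Φ Ψ : State L Λ N} (h : Ms Φ) (h' : Ms Ψ) : eL (Φ + Ψ) ≤ eL Φ + eL Ψ :=
  eLpNorm_add_le h.ae h'.ae one_le_two

theorem eL_smul (c : ℂ) (Φ : State L Λ N) : eL (c • Φ) = ‖c‖ₑ * eL Φ :=
  eLpNorm_const_smul c (unc Φ) 2 _

/-- multiplication by a phase -/
noncomputable def ph (j : Fin N) (k : V3) (Φ : State L Λ N) : State L Λ N :=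
  fun n σ x => ex j k x * Φ n σ x

theorem Ms.ph {Φ : State L Λ N} (h : Ms Φ) (j : Fin N) (k : V3) : Ms (ph j k Φ) :=
  fun n σ => (ex_smooth j k).continuous.aestronglyMeasurable.mul (h n σ)

theorem eL_ph (j : Fin N) (k : V3) (Φ : State L Λ N) : eL (ph j k Φ) = eL Φ :=
  eLpNorm_congr_norm_ae (Eventually.of_forall fun w => by
    simp [unc, ph, ex, Complex.norm_exp])

theorem vecPot_eq (ε : V3 → Fin 2 → V3) (j : Fin N) (i : Fin 3) (Φ : State L Λ N) :
    vecPot ε j i Φ = ∑ m, (wt ε i m : ℂ) • (ph j (kk m) (ann m Φ) + ph j (-kk m) (cre m Φ)) := by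
  funext n σ x
  simp only [vecPot, Finset.sum_apply, Pi.smul_apply, Pi.add_apply, ph, ex_neg, smul_eq_mul]
  rfl

theorem Ms.vec {Φ : State L Λ N} (h : Ms Φ) (ε : V3 → Fin 2 → V3) (j : Fin N) (i : Fin 3) :
    Ms (vecPot ε j i Φ) := fun n σ => by
  rw [vecPot_eq, Finset.sum_apply, Finset.sum_apply]
  exact Finset.aestronglyMeasurable_sum _ fun m _ =>
    (((h.ann m).ph j _).add ((h.cre m).ph j _)).smul _ n σ

theorem eL_vec {Φ : State L Λ N} (h : Ms Φ) (ε : V3 → Fin 2 → V3) (j : Fin N) (i : Fin 3) :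
    eL (vecPot ε j i Φ) ≤ ∑ m, ‖(wt ε i m : ℂ)‖ₑ * (eL (ann m Φ) + eL (cre m Φ)) := by
  have e : unc (vecPot ε j i Φ) =
      ∑ m, unc ((wt ε i m : ℂ) • (ph j (kk m) (ann m Φ) + ph j (-kk m) (cre m Φ))) := by
    funext w
    simp only [vecPot_eq, unc, Finset.sum_apply]
  rw [eL, e]
  refine (eLpNorm_sum_le (fun m _ => ((((h.ann m).ph j _).add ((h.cre m).ph j _)).smul _).ae)
    one_le_two).trans (Finset.sum_le_sum fun m _ => (eL_smul _ _).trans_le ?_)
  gcongr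
  simpa only [eL_ph] using eL_add ((h.ann m).ph j (kk m)) ((h.cre m).ph j (-kk m))

theorem tt_mul (r : ℝ) (hr : 0 ≤ r) (f : (Fin N → Fin 2) → (Fin N → V3) → ℂ) :
    ∑ σ, ∫⁻ x, ‖((√r : ℝ) : ℂ) * f σ x‖ₑ ^ 2 = ENNReal.ofReal r * ∑ σ, ∫⁻ x, ‖f σ x‖ₑ ^ 2 := by
  have : ‖((√r : ℝ) : ℂ)‖ₑ ^ 2 = ENNReal.ofReal r := by
    rw [← ofReal_norm, ← ENNReal.ofReal_pow (norm_nonneg _)]
    simp [Real.sq_sqrt hr]
  simp only [enorm_mul, mul_pow, this, lintegral_const_mul' _ _ ENNReal.ofReal_ne_top,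
    Finset.mul_sum]

theorem up_sum (m : Mode L Λ) (f : (Mode L Λ → ℕ) → ℝ≥0∞) :
    ∑' n, ((n m : ℝ≥0∞) + 1) * f (Function.update n m (n m + 1)) = ∑' n, n m * f n := by
  rw [← (Fk.up_inj m).tsum_eq (f := fun n => n m * f n) fun n hn =>
    ⟨_, Fk.up_down m n fun h => hn (by simp [h])⟩]
  simp

theorem nsq_ann (m : Mode L Λ) (Φ : State L Λ N) : nsq (ann m Φ) = ∑' n, n m * tt Φ n := by
  rw [← up_sum]
  refine tsum_congr fun n => (tt_mul _ (by positivity) _).trans ?_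
  rw [ENNReal.ofReal_add (by positivity) zero_le_one]
  simp [tt]

theorem nsq_cre (m : Mode L Λ) (Φ : State L Λ N) : nsq (cre m Φ) = nsq (ann m Φ) + nsq Φ := by
  have : nsq (cre m Φ) = ∑' n, n m * tt Φ (Function.update n m (n m - 1)) :=
    tsum_congr fun n => (tt_mul _ (by positivity) _).trans (by simp [tt])
  rw [this, ← up_sum, nsq_ann, show nsq Φ = ∑' n, tt Φ n from rfl, ← ENNReal.tsum_add]
  simp [add_mul]

/-- the graph norm -/
noncomputable def gn (Φ : State L Λ N) (G : Fin N → Fin 3 → State L Λ N) : ℝ≥0∞ :=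
  nsq Φ + ∑ m, nsq (ann m Φ) + ∑ j, ∑ i, nsq (G j i)

noncomputable def gt (Φ : State L Λ N) (G : Fin N → Fin 3 → State L Λ N) (n : Mode L Λ → ℕ) :
    ℝ≥0∞ := tt Φ n + ∑ m, n m * tt Φ n + ∑ j, ∑ i, tt (G j i) n

theorem gn_eq (Φ : State L Λ N) (G : Fin N → Fin 3 → State L Λ N) : gn Φ G = ∑' n, gt Φ G n := by
  simp only [gn, gt, ENNReal.tsum_add, nsq_ann, Summable.tsum_finsetSum fun _ _ => ENNReal.summable]
  rfl

/-- classical gradient -/
noncomputable def gr (Φ : State L Λ N) (j : Fin N) (i : Fin 3) : State L Λ N :=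
  fun n σ x => fderiv ℝ (Φ n σ) x (dir j i)

theorem dense {Ψ : State L Λ N} {G : Fin N → Fin 3 → State L Λ N} (h : InDom Ψ G)
    (hf : gn Ψ G ≠ ⊤) {η : ℝ≥0∞} (hη : 0 < η) :
    ∃ u : SS L Λ N, gn (toRaw u - Ψ) (gr (toRaw u) - G) ≤ η + η := by
  classical
  have z : Tendsto (fun k : ℕ => (6 * (k : ℝ≥0∞)⁻¹) ^ 2) atTop (𝓝 0) := by
    simpa using ENNReal.Tendsto.pow (n := 2) (ENNReal.Tendsto.const_mul (a := 6)
      ENNReal.tendsto_inv_nat_nhds_zero (Or.inr (by simp)))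
  choose φ p1 p2 p3 using fun n σ (k : ℕ) =>
    approx (κ := Fin N × Fin 3) (g := fun c => G c.1 c.2 n σ) (fun c => dir c.1 c.2) (h.1 n σ)
      (fun c => (h.2.2.2 c.1 c.2 n σ).1) (fun c => (h.2.2.2 c.1 c.2 n σ).2)
      (η := (k : ℝ≥0∞)⁻¹) (by simp)
  obtain ⟨s, hs⟩ := ((ENNReal.tendsto_tsum_compl_atTop_zero (gn_eq Ψ G ▸ hf)).eventually
    (ge_mem_nhds hη)).exists
  have q : ∀ (f : ℕ → (Fin N → Fin 2) → (Fin N → V3) → ℂ),
      (∀ σ k, eLpNorm (f k σ) 2 volume ≤ 6 * (k : ℝ≥0∞)⁻¹) →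
      Tendsto (fun k => ∑ σ, ∫⁻ x, ‖f k σ x‖ₑ ^ 2) atTop (𝓝 0) := fun f hf => by
    simpa using tendsto_finsetSum Finset.univ fun σ _ =>
      tendsto_of_tendsto_of_tendsto_of_le_of_le tendsto_const_nhds z (fun _ => zero_le)
        fun k => (sq_eL volume (f k σ)).symm.trans_le (pow_le_pow_left' (hf σ k) 2)
  have t : Tendsto (fun k => ∑ n ∈ s, gt ((fun n σ => φ n σ k) - Ψ)
      (gr (fun n σ => φ n σ k) - G) n) atTop (𝓝 0) := by
    have a := fun n => q (fun k σ => φ n σ k - Ψ n σ) (p2 n)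
    have b := tendsto_finsetSum s fun n _ => ((a n).add (tendsto_finsetSum Finset.univ fun m _ =>
      ENNReal.Tendsto.const_mul (a := n m) (a n) (Or.inr (by simp)))).add
      (tendsto_finsetSum Finset.univ fun j _ => tendsto_finsetSum Finset.univ fun i _ =>
        q _ fun σ k => p3 n σ k (j, i))
    simp only [mul_zero, Finset.sum_const_zero, add_zero] at b
    exact b
  obtain ⟨k, hk⟩ := (t.eventually (ge_mem_nhds hη)).exists
  refine ⟨Fk.mk (fun n => if n ∈ s then Tst.mk (fun σ => φ n σ k) fun σ => p1 n σ k else 0)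
    (s.finite_toSet.subset fun n hn => by_contra fun hc => hn (if_neg hc)), ?_⟩
  rw [gn_eq, ← ENNReal.sum_add_tsum_compl s]
  refine add_le_add (le_of_eq_of_le (Finset.sum_congr rfl fun n hn => ?_) hk)
    (le_of_eq_of_le (tsum_congr fun n => ?_) hs)
  · simp [gt, tt, gr, toRaw, hn]
  · have : n.1 ∉ s := n.2
    simp [gt, tt, gr, toRaw, this]

theorem lim_nsq {Φ : ℕ → State L Λ N} {Ψ : State L Λ N} (h : ∀ k, Ms (Φ k)) (h' : Ms Ψ)
    (t : Tendsto (fun k => eL (Φ k - Ψ)) atTop (𝓝 0)) :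
    Tendsto (fun k => nsq (Φ k)) atTop (𝓝 (nsq Ψ)) := by
  simp only [nsq_eq]
  refine ENNReal.Tendsto.pow (tendsto_of_tendsto_of_tendsto_of_le_of_le
    (g := fun k => eL Ψ - eL (Φ k - Ψ)) (h := fun k => eL Ψ + eL (Φ k - Ψ))
    (by simpa using ENNReal.Tendsto.sub tendsto_const_nhds t (Or.inr (by simp)))
    (by simpa using tendsto_const_nhds.add t) (fun k => tsub_le_iff_right.2 ?_) fun k => ?_)
  · have := eL_add (h k) (((h k).sub h').smul (-1))
    rw [eL_smul] at this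
    simpa using this
  · simpa using eL_add h' ((h k).sub h')

theorem eL_zero {Φ : ℕ → State L Λ N} {a : ℕ → ℝ≥0∞} (t : Tendsto a atTop (𝓝 0))
    (h : ∀ k, nsq (Φ k) ≤ a k) : Tendsto (fun k => eL (Φ k)) atTop (𝓝 0) := by
  have := (tendsto_of_tendsto_of_tendsto_of_le_of_le tendsto_const_nhds t (fun _ => zero_le)
    h).ennrpow_const (1 / 2)
  rw [ENNReal.zero_rpow_of_pos (by norm_num)] at this
  refine this.congr fun k => ?_
  rw [nsq_eq, ← ENNReal.rpow_natCast, ← ENNReal.rpow_mul]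
  norm_num

theorem ms_raw (u : SS L Λ N) : Ms (toRaw u) := fun n σ =>
  ((u.val n).cont σ).aestronglyMeasurable

theorem nsq_raw (u : SS L Λ N) : nsq (toRaw u) = ENNReal.ofReal (‖u‖ ^ 2) := by
  have hs : ∀ n, n ∉ u.fin.toFinset → u.val n = 0 := fun n hn => by simpa using hn
  rw [Fk.norm_sq_eq u _ hs, nsq, tsum_eq_sum (s := u.fin.toFinset) fun n hn => by
    simp [toRaw, hs n hn], ENNReal.ofReal_sum_of_nonneg fun _ _ => sq_nonneg _]
  refine Finset.sum_congr rfl fun n _ => ?_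
  rw [Tst.norm_sq_eq, ENNReal.ofReal_sum_of_nonneg fun _ _ => integral_nonneg fun _ => sq_nonneg _]
  refine Finset.sum_congr rfl fun σ _ => ?_
  rw [ofReal_integral_eq_lintegral_ofReal (Tst.integrable_normSq _ _)
    (Eventually.of_forall fun _ => sq_nonneg _)]
  simp only [ENNReal.ofReal_pow (norm_nonneg _), ofReal_norm, toRaw]

theorem form_raw (α : ℝ) (ε : V3 → Fin 2 → V3) (u : SS L Λ N) :
    formE α ε (toRaw u) (gr (toRaw u)) = ENNReal.ofReal (energy α ε u) := by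
  have e : ∀ j i, (-Complex.I) • gr (toRaw u) j i + ((√α : ℝ) : ℂ) • vecPot ε j i (toRaw u) =
      toRaw (Dop α ε j i u) := fun j i => by rw [toRaw_D]; rfl
  simp only [formE, e, ← toRaw_a, nsq_raw, energy]
  rw [ENNReal.ofReal_add (by positivity) (by positivity), ENNReal.ofReal_mul (by norm_num),
    ENNReal.ofReal_sum_of_nonneg fun _ _ => by positivity,
    ENNReal.ofReal_sum_of_nonneg fun _ _ => by positivity]
  simp only [ENNReal.ofReal_sum_of_nonneg fun _ _ => sq_nonneg _, ENNReal.ofReal_mul (norm_nonneg _),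
    ofReal_norm, kk]
  congr 2
  rw [ENNReal.ofReal_div_of_pos two_pos]
  simp

theorem gn_fin {α : ℝ} {ε : V3 → Fin 2 → V3} {Ψ : State L Λ N} {G : Fin N → Fin 3 → State L Λ N}
    (h : InDom Ψ G) (hf : formE α ε Ψ G ≠ ⊤) : gn Ψ G ≠ ⊤ := by
  have m0 : Ms Ψ := fun n σ => (h.1 n σ).1
  have m1 : ∀ j i, Ms (G j i) := fun j i n σ => (h.2.2.2 j i n σ).1.1
  have e : ∀ {Φ : State L Λ N}, nsq Φ ≠ ⊤ ↔ eL Φ ≠ ⊤ := by simp [nsq_eq]
  rw [formE, ENNReal.add_ne_top, ENNReal.sum_ne_top] at hf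
  have a1 : ∀ m, nsq (ann m Ψ) ≠ ⊤ := fun m hm => hf.1 m (Finset.mem_univ m) (by
    rw [hm, ENNReal.mul_top (by simpa using m.1.2.1)])
  have a2 := fun j i => ENNReal.sum_ne_top.1 (ENNReal.sum_ne_top.1
    (ENNReal.lt_top_of_mul_ne_top_right hf.2 (by simp)).ne j (Finset.mem_univ j)) i
    (Finset.mem_univ i)
  refine ENNReal.add_ne_top.2 ⟨ENNReal.add_ne_top.2 ⟨h.2.1, ENNReal.sum_ne_top.2 fun m _ => a1 m⟩,
    ENNReal.sum_ne_top.2 fun j _ => ENNReal.sum_ne_top.2 fun i _ => e.2 ?_⟩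
  have a3 : eL (vecPot ε j i Ψ) ≠ ⊤ := ne_top_of_le_ne_top (ENNReal.sum_ne_top.2 fun m _ =>
    ENNReal.mul_ne_top enorm_ne_top (ENNReal.add_ne_top.2 ⟨e.1 (a1 m), e.1 (by
      rw [nsq_cre]; exact ENNReal.add_ne_top.2 ⟨a1 m, h.2.1⟩)⟩)) (eL_vec m0 ε j i)
  have a4 := eL_add (((m1 j i).smul (-Complex.I)).add ((m0.vec ε j i).smul ((√α : ℝ) : ℂ)))
    ((m0.vec ε j i).smul (-((√α : ℝ) : ℂ)))
  rw [neg_smul ((√α : ℝ) : ℂ), add_neg_cancel_right, eL_smul, ← neg_smul, eL_smul] at a4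
  refine ne_top_of_le_ne_top (ENNReal.add_ne_top.2 ⟨e.1 (a2 j i),
    ENNReal.mul_ne_top enorm_ne_top a3⟩) (le_of_eq_of_le ?_ a4)
  simp [← ofReal_norm]

theorem lower {α b : ℝ} {ε : V3 → Fin 2 → V3} (hb : ∀ u : SS L Λ N, b * ‖u‖ ^ 2 ≤ energy α ε u)
    {Ψ : State L Λ N} {G : Fin N → Fin 3 → State L Λ N} (h : InDom Ψ G) :
    ENNReal.ofReal b * nsq Ψ ≤ formE α ε Ψ G := by
  by_cases hf : formE α ε Ψ G = ⊤
  · simp [hf]
  have m0 : Ms Ψ := fun n σ => (h.1 n σ).1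
  have m1 : ∀ j i, Ms (G j i) := fun j i n σ => (h.2.2.2 j i n σ).1.1
  choose u hu using fun k : ℕ => dense h (gn_fin h hf) (η := (k : ℝ≥0∞)⁻¹) (by simp)
  have z : Tendsto (fun k : ℕ => (k : ℝ≥0∞)⁻¹ + (k : ℝ≥0∞)⁻¹) atTop (𝓝 0) := by
    simpa using ENNReal.tendsto_inv_nat_nhds_zero.add ENNReal.tendsto_inv_nat_nhds_zero
  have m2 : ∀ k j i, Ms (gr (toRaw (u k)) j i) := fun k j i n σ =>
    (((((u k).val n).smooth σ).continuous_fderiv (by simp)).clm_apply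
      continuous_const).aestronglyMeasurable
  have b0 : ∀ k m, nsq (ann m (toRaw (u k) - Ψ)) + nsq (toRaw (u k) - Ψ) ≤ _ := fun k m =>
    ((add_comm _ _).trans_le ((add_le_add le_rfl (Finset.single_le_sum
      (f := fun m => nsq (ann m (toRaw (u k) - Ψ))) (fun _ _ => zero_le)
      (Finset.mem_univ m))).trans le_self_add)).trans (hu k)
  have t0 := eL_zero z fun k => (le_self_add.trans le_self_add).trans (hu k)
  have t1 := fun m => eL_zero z fun k => le_self_add.trans (b0 k m)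
  have t2 := fun m => eL_zero z fun k => (nsq_cre m _).trans_le (b0 k m)
  have t3 : ∀ j i, Tendsto (fun k => eL (gr (toRaw (u k)) j i - G j i)) atTop (𝓝 0) :=
    fun j i => eL_zero z fun k => (((Finset.single_le_sum
      (f := fun i => nsq ((gr (toRaw (u k)) - G) j i)) (fun _ _ => zero_le)
      (Finset.mem_univ i)).trans (Finset.single_le_sum
      (f := fun j => ∑ i, nsq ((gr (toRaw (u k)) - G) j i)) (fun _ _ => zero_le)
      (Finset.mem_univ j))).trans le_add_self).trans (hu k)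
  have cm : ∀ {a : ℕ → ℝ≥0∞} {a' c : ℝ≥0∞}, c ≠ ⊤ → Tendsto a atTop (𝓝 a') →
      Tendsto (fun k => c * a k) atTop (𝓝 (c * a')) := fun hc t =>
    ENNReal.Tendsto.const_mul t (Or.inr hc)
  have t4 : ∀ j i, Tendsto (fun k => eL (vecPot ε j i (toRaw (u k) - Ψ))) atTop (𝓝 0) :=
    fun j i => tendsto_of_tendsto_of_tendsto_of_le_of_le tendsto_const_nhds
      (by simpa using tendsto_finsetSum Finset.univ fun m _ =>
        cm (c := ‖(wt ε i m : ℂ)‖ₑ) enorm_ne_top ((t1 m).add (t2 m)))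
      (fun _ => zero_le) fun k => eL_vec ((ms_raw _).sub m0) ε j i
  refine le_of_tendsto_of_tendsto' (cm ENNReal.ofReal_ne_top (lim_nsq (fun k => ms_raw (u k)) m0 t0))
    (b := atTop) (g := fun k => formE α ε (toRaw (u k)) (gr (toRaw (u k))))
    ((tendsto_finsetSum _ fun m _ => cm enorm_ne_top (lim_nsq (fun k => (ms_raw _).ann m) (m0.ann m)
      ((t1 m).congr fun k => ?_))).add (cm (by simp) (tendsto_finsetSum _ fun j _ =>
      tendsto_finsetSum _ fun i _ => lim_nsq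
        (fun k => ((m2 k j i).smul _).add (((ms_raw _).vec ε j i).smul _))
        (((m1 j i).smul _).add ((m0.vec ε j i).smul _)) ?_))) fun k => ?_
  · congr 1
    funext n σ x
    simp [ann, mul_sub]
  · have w := (cm (c := ‖(-Complex.I)‖ₑ) enorm_ne_top (t3 j i)).add
      (cm (c := ‖((√α : ℝ) : ℂ)‖ₑ) enorm_ne_top (t4 j i))
    rw [mul_zero, mul_zero, add_zero] at w
    refine tendsto_of_tendsto_of_tendsto_of_le_of_le tendsto_const_nhds w (fun _ => zero_le)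
      fun k => ?_
    simp only [← eL_smul]
    refine le_of_eq_of_le ?_ (eL_add (((m2 k j i).sub (m1 j i)).smul _)
      ((((ms_raw _).sub m0).vec ε j i).smul _))
    congr 1
    funext n σ x
    simp only [vecPot, ann, cre, Pi.add_apply, Pi.sub_apply, Pi.smul_apply, smul_eq_mul,
      Finset.mul_sum]
    rw [add_sub_add_comm, ← Finset.sum_sub_distrib, ← mul_sub]
    exact congrArg _ (Finset.sum_congr rfl fun m _ => by ring)
  · rw [form_raw, nsq_raw, mul_comm, ← ENNReal.ofReal_mul (sq_nonneg _), mul_comm]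
    exact ENNReal.ofReal_le_ofReal (hb _)

theorem core_dom (u : SS L Λ N) (h : IsCore (toRaw u)) : InDom (toRaw u) (gr (toRaw u)) := by
  refine ⟨fun n σ => ((u.val n).cont σ).memLp_of_hasCompactSupport ((u.val n).cpt σ),
    by simp [nsq_raw], fun π n σ => Eventually.of_forall (h.2.2 π n σ), fun j i n σ => ?_⟩
  have c1 : Continuous (gr (toRaw u) j i n σ) :=
    (((u.val n).smooth σ).continuous_fderiv (by simp)).clm_apply continuous_const
  have c2 : HasCompactSupport (gr (toRaw u) j i n σ) := ((u.val n).cpt σ).fderiv_apply ℝ _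
  refine ⟨c1.memLp_of_hasCompactSupport c2, fun φ h1 h2 => ?_⟩
  have s : ContDiff ℝ (⊤ : ℕ∞) fun x => (φ x : ℂ) := Complex.ofRealCLM.contDiff.comp h1
  have d : ∀ x, fderiv ℝ (fun x => (φ x : ℂ)) x (dir j i) = (fderiv ℝ φ x (dir j i) : ℝ) :=
    fun x => by
      have : HasFDerivAt (fun x => (φ x : ℂ)) _ x :=
        Complex.ofRealCLM.hasFDerivAt.comp x (h1.differentiable (by simp) x).hasFDerivAt
      rw [this.fderiv]
      rfl
  have := integral_mul_fderiv_eq_neg_fderiv_mul_of_integrable (μ := volume) (v := dir j i)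
    (f := toRaw u n σ) (g := fun x => (φ x : ℂ))
    ((c1.mul s.continuous).integrable_of_hasCompactSupport c2.mul_right)
    ((((u.val n).cont σ).mul ((s.continuous_fderiv (by simp)).clm_apply
      continuous_const)).integrable_of_hasCompactSupport ((u.val n).cpt σ).mul_right)
    ((((u.val n).cont σ).mul s.continuous).integrable_of_hasCompactSupport
      ((u.val n).cpt σ).mul_right) (fun x _ => (u.val n).diff σ x)
    fun x _ => s.differentiable (by simp) x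
  simp only [d] at this
  exact this

theorem en_nonneg (α : ℝ) (ε : V3 → Fin 2 → V3) (u : SS L Λ N) : 0 ≤ energy α ε u :=
  add_nonneg (Finset.sum_nonneg fun _ _ => mul_nonneg (norm_nonneg _) (sq_nonneg _))
    (mul_nonneg (by norm_num) (Finset.sum_nonneg fun _ _ => Finset.sum_nonneg fun _ _ =>
      sq_nonneg _))

theorem E0F_le {α a : ℝ} {ε : V3 → Fin 2 → V3} (h : E0 N α Λ L ε < a) :
    0 < a ∧ E0F N α Λ L ε ≤ ENNReal.ofReal a := by
  simp only [E0, iInf_lt_iff] at h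
  obtain ⟨Ψ, h1, h2, h3⟩ := h
  obtain ⟨u, rfl⟩ := exists_toRaw h1
  have h4 := norm_pos_of_toRaw h2
  rw [inn_Ham, inn_self, EReal.coe_lt_coe_iff] at h3
  refine ⟨lt_of_le_of_lt (div_nonneg (en_nonneg _ _ _) (sq_nonneg _)) h3, ?_⟩
  have h5 : nsq (toRaw u) ≠ 0 := by
    rw [nsq_raw]; exact (ENNReal.ofReal_pos.2 (by positivity)).ne'
  unfold E0F
  refine iInf_le_of_le (toRaw u) (iInf_le_of_le (gr (toRaw u)) (iInf_le_of_le (core_dom u h1)
    (iInf_le_of_le h5 ?_)))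
  rw [form_raw, nsq_raw, ← ENNReal.ofReal_div_of_pos (by positivity)]
  exact ENNReal.ofReal_le_ofReal h3.le

theorem le_E0F {α b : ℝ} {ε : V3 → Fin 2 → V3} (h : (b : EReal) ≤ E0 1 α Λ L ε) :
    ENNReal.ofReal b ≤ E0F 1 α Λ L ε := by
  unfold E0F
  refine le_iInf fun Ψ => le_iInf fun G => le_iInf fun h1 => le_iInf fun h2 =>
    (ENNReal.le_div_iff_mul_le (Or.inl h2) (Or.inl h1.2.1)).2 (lower (fun u => ?_) h1)
  rcases (norm_nonneg u).eq_or_lt with h3 | h3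
  · rw [← h3]
    simpa using en_nonneg α ε u
  · by_contra hc
    have hu : IsCore (toRaw u) := ⟨u.fin.subset fun n hn h0 => hn (by simp [toRaw, h0]),
      fun n σ => ⟨(u.val n).smooth σ, (u.val n).cpt σ⟩, fun π n σ x => by
        obtain rfl : π = 1 := Subsingleton.elim _ _
        simp⟩
    have := h.trans (E0_le α ε (energy α ε u / ‖u‖ ^ 2) u hu h3 (le_of_eq (by field_simp)))
    rw [EReal.coe_le_coe_iff, le_div_iff₀ (by positivity)] at this
    exact hc this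

theorem transfer {α : ℝ} {ε : ℝ → V3 → Fin 2 → V3} (hN : 0 < N)
    (h : limsup (fun L : ℝ => E0 N α Λ L (ε L)) atTop <
      (N : EReal) * liminf (fun L : ℝ => E0 1 α Λ L (ε L)) atTop) :
    limsup (fun L : ℝ => E0F N α Λ L (ε L)) atTop <
      (N : ℝ≥0∞) * liminf (fun L : ℝ => E0F 1 α Λ L (ε L)) atTop := by
  have hN' : (0 : ℝ) < N := by exact_mod_cast hN
  obtain ⟨a, a1, a2⟩ := EReal.lt_iff_exists_real_btwn.1 h
  have a3 : ((a / N : ℝ) : EReal) < liminf (fun L : ℝ => E0 1 α Λ L (ε L)) atTop := by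
    by_contra hc
    refine absurd (a2.trans_le (mul_le_mul_of_nonneg_left (not_lt.1 hc) (Nat.cast_nonneg' N))) ?_
    rw [show (N : EReal) = ((N : ℝ) : EReal) from rfl, ← EReal.coe_mul, mul_div_cancel₀ _ hN'.ne']
    exact lt_irrefl _
  obtain ⟨b, b1, b2⟩ := EReal.lt_iff_exists_real_btwn.1 a3
  rw [EReal.coe_lt_coe_iff, div_lt_iff₀ hN'] at b1
  have c1 := (eventually_lt_of_limsup_lt a1).mono fun L h => E0F_le h
  have c2 := (eventually_lt_of_lt_liminf b2).mono fun L h => le_E0F h.le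
  refine (limsup_le_of_le (h := c1.mono fun _ h => h.2)).trans_lt
    (lt_of_lt_of_le ?_ (mul_le_mul_right (le_liminf_of_le (h := c2)) _))
  rw [← ENNReal.ofReal_natCast, ← ENNReal.ofReal_mul hN'.le, mul_comm]
  exact (ENNReal.ofReal_lt_ofReal_iff_of_nonneg c1.exists.choose_spec.1.le).2 b1

end Pool.Agent.Lib.MP_791321_mp.F24
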