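import Pool.Agent.Lib.MP_791321_mp.Squeeze

set_option autoImplicit false

open scoped ComplexConjugate InnerProductSpace
open Module

namespace Pool.Agent.Lib.MP_791321_mp

variable {I S : Type*} [Fintype I] [DecidableEq I] [SeminormedAddCommGroup S]
  [InnerProductSpace ℂ S]

omit [DecidableEq I] in
lemma real_inner_E (x y : EuclideanSpace ℂ I) : inner ℝ x y = (⟪x, y⟫_ℂ).re := by
  simp [PiLp.inner_apply, Complex.inner]

omit [Fintype I] [DecidableEq I] in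
lemma real_smul_E (r : ℝ) (x : EuclideanSpace ℂ I) : r • x = (r : ℂ) • x := by
  ext m; simp

omit [DecidableEq I] in
lemma span_pair (K : Submodule ℝ ℂ) (s t : Set (EuclideanSpace ℂ I))
    (h : ∀ x ∈ s, ∀ y ∈ t, ⟪x, y⟫_ℂ ∈ K) :
    ∀ x ∈ Submodule.span ℝ s, ∀ y ∈ Submodule.span ℝ t, ⟪x, y⟫_ℂ ∈ K := by
  intro x hx y hy
  induction hx using Submodule.span_induction with
  | mem x hx =>
    induction hy using Submodule.span_induction with
    | mem y hy => exact h x hx y hy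
    | zero => simp
    | add y z _ _ h1 h2 => rw [inner_add_right]; exact K.add_mem h1 h2
    | smul r y _ h1 =>
      rw [real_smul_E, inner_smul_right]
      exact K.smul_mem r h1
  | zero => simp
  | add y z _ _ h1 h2 => rw [inner_add_left]; exact K.add_mem h1 h2
  | smul r y _ h1 =>
    rw [real_smul_E, inner_smul_left, Complex.conj_ofReal]
    exact K.smul_mem r h1

theorem CCR.squeeze_sub (C : CCR I S) {A : Type} [Fintype A] [DecidableEq A]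
    (U : A → Submodule ℝ (EuclideanSpace ℂ I))
    (hreal : ∀ a, ∀ x ∈ U a, ∀ y ∈ U a, (⟪x, y⟫_ℂ).im = 0)
    (horth : ∀ a b, a ≠ b → ∀ x ∈ U a, ∀ y ∈ U b, ⟪x, y⟫_ℂ = 0)
    (d : A → ℕ) (hd : ∀ a, finrank ℝ (U a) ≤ d a) (ω : I → ℝ) (hω : ∀ m, 0 ≤ ω m)
    (lam : A → ℝ) (hlam0 : ∀ a, 0 ≤ lam a)
    (hlam : ∀ a, ∀ x ∈ U a, ‖x‖ = 1 → ∑ m, ω m * ‖x m‖ ^ 2 ≤ lam a)
    (s : A → ℝ) (hs : ∀ a, 0 ≤ s a ∧ s a < 1) {Ω : S} (hΩ : ∀ m, C.a m Ω = 0) (h1 : ‖Ω‖ = 1)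
    {κ : ℝ} (hκ : 0 < κ) (hκ1 : κ ≤ 1) :
    ∃ Φ : S, 1 ≤ ‖Φ‖ ∧
      ∑ m, ω m * ‖C.a m Φ‖ ^ 2 ≤ (∑ a, d a * (lam a * (s a ^ 2 / (1 - s a ^ 2)))) * ‖Φ‖ ^ 2 ∧
      (∀ a, ∀ g ∈ U a, ‖C.An g Φ + C.Cr g Φ‖ ≤ (√((1 - s a) / (1 + s a)) + κ) * ‖g‖ * ‖Φ‖) ∧
      (∀ g : EuclideanSpace ℂ I, (∀ a, ∀ x ∈ U a, (⟪x, g⟫_ℂ).im = 0) →
        ‖C.An g Φ + C.Cr g Φ‖ ≤ 3 * ‖g‖ * ‖Φ‖) := by
  let b : ∀ a, OrthonormalBasis (Fin (finrank ℝ (U a))) ℝ (U a) :=
    fun a => stdOrthonormalBasis ℝ (U a)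
  let f : (Σ a, Fin (finrank ℝ (U a))) → EuclideanSpace ℂ I := fun r => (b r.1 r.2 : _)
  have hfU : ∀ r, f r ∈ U r.1 := fun r => (b r.1 r.2).2
  have hfn : ∀ r, ‖f r‖ = 1 := fun r => (b r.1).orthonormal.1 r.2
  have hf : Orthonormal ℂ f := by
    refine ⟨hfn, ?_⟩
    rintro ⟨a, r⟩ ⟨a', r'⟩ hne
    by_cases ha : a = a'
    · subst ha
      have hr : r ≠ r' := fun h => hne (by rw [h])
      have h2 := (b a).orthonormal.2 hr
      apply Complex.ext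
      · rw [← real_inner_E]; simpa using h2
      · simpa using hreal a _ (hfU ⟨a, r⟩) _ (hfU ⟨a, r'⟩)
    · exact horth a a' ha _ (hfU ⟨a, r⟩) _ (hfU ⟨a', r'⟩)
  obtain ⟨Φ, hΦ1, hΦ2, hΦ3, hΦ4⟩ := C.squeeze (fun r => s r.1) hf hΩ h1 (fun r => hs r.1) hκ
  have hn : ∀ a, 0 ≤ s a ^ 2 / (1 - s a ^ 2) := fun a => by
    have : 0 < 1 - s a ^ 2 := by nlinarith [hs a]
    positivity
  have he : ∀ a, 0 ≤ (1 - s a) / (1 + s a) ∧ (1 - s a) / (1 + s a) ≤ 1 := fun a => by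
    have h2 := hs a
    have h3 : 0 < 1 + s a := by linarith
    refine ⟨div_nonneg (by linarith) h3.le, ?_⟩
    rw [div_le_one h3]; linarith
  have bessel : ∀ g : EuclideanSpace ℂ I, √(∑ r, (⟪f r, g⟫_ℂ).re ^ 2) ≤ ‖g‖ := by
    intro g
    refine Real.sqrt_le_iff.mpr ⟨norm_nonneg _, le_trans ?_
      (hf.sum_inner_products_le g (s := Finset.univ))⟩
    refine Finset.sum_le_sum fun r _ => ?_
    rw [← sq_abs]
    gcongr
    exact Complex.abs_re_le_norm _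
  refine ⟨Φ, hΦ1, (hΦ2 ω hω).trans ?_, ?_, ?_⟩
  · gcongr
    rw [Fintype.sum_sigma]
    refine Finset.sum_le_sum fun a _ => ?_
    calc _ ≤ ∑ _r : Fin (finrank ℝ (U a)), lam a * (s a ^ 2 / (1 - s a ^ 2)) :=
          Finset.sum_le_sum fun r _ => by
            rw [mul_comm]
            exact mul_le_mul_of_nonneg_right (hlam a _ (hfU ⟨a, r⟩) (hfn ⟨a, r⟩)) (hn a)
      _ ≤ _ := by
          simp only [Finset.sum_const, Finset.card_univ, Fintype.card_fin, nsmul_eq_mul]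
          have := mul_nonneg (hlam0 a) (hn a)
          gcongr
          exact hd a
  · intro a g hg
    have hz : ∀ r : (Σ a, Fin (finrank ℝ (U a))), r.1 ≠ a → (⟪f r, g⟫_ℂ).re = 0 := fun r hr => by
      rw [horth r.1 a hr _ (hfU r) _ hg]; simp
    have e : ∑ r, (((⟪f r, g⟫_ℂ).re : ℝ) : ℂ) • f r = g := by
      rw [Fintype.sum_sigma, Finset.sum_eq_single a]
      · have := congrArg (Subtype.val) ((b a).sum_repr' ⟨g, hg⟩)
        simp only [AddSubmonoidClass.coe_finsetSum, SetLike.val_smul] at this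
        rw [← this]
        refine Finset.sum_congr rfl fun r _ => ?_
        rw [real_smul_E, this, ← real_inner_E]
        rfl
      · intro a' _ ha
        exact Finset.sum_eq_zero fun r _ => by rw [hz ⟨a', r⟩ ha]; simp
      · simp
    have h2 := hΦ3 fun r => (⟪f r, g⟫_ℂ).re
    rw [e] at h2
    refine h2.trans ?_
    have e2 : ∑ r, (⟪f r, g⟫_ℂ).re ^ 2 * ((1 - s r.1) / (1 + s r.1)) =
        (1 - s a) / (1 + s a) * ∑ r, (⟪f r, g⟫_ℂ).re ^ 2 := by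
      rw [Finset.mul_sum]
      refine Finset.sum_congr rfl fun r _ => ?_
      by_cases hr : r.1 = a
      · rw [hr, mul_comm]
      · simp [hz r hr]
    rw [e2, Real.sqrt_mul (he a).1, ← add_mul]
    gcongr
    exact bessel g
  · intro g hg
    set g1 := ∑ r, (((⟪f r, g⟫_ℂ).re : ℝ) : ℂ) • f r with hg1
    have hre : ∀ r, (((⟪f r, g⟫_ℂ).re : ℝ) : ℂ) = ⟪f r, g⟫_ℂ := fun r =>
      Complex.ext (by simp) (by simp [hg r.1 _ (hfU r)])
    have hperp : ∀ r, ⟪g - g1, f r⟫_ℂ = 0 := by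
      intro r
      rw [← inner_conj_symm, inner_sub_right, hg1, hf.inner_right_fintype, hre]
      simp
    have hn2 : ‖g - g1‖ ≤ ‖g‖ := by
      have h0 : ⟪g - g1, g1⟫_ℂ = 0 := by
        conv_lhs => rw [hg1]
        rw [inner_sum]
        exact Finset.sum_eq_zero fun r _ => by rw [inner_smul_right, ← hg1, hperp]; simp
      have h3 : ‖g‖ ^ 2 = ‖g - g1‖ ^ 2 + ‖g1‖ ^ 2 := by
        conv_lhs => rw [← sub_add_cancel g g1]
        rw [@norm_add_sq ℂ, h0]; simp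
      refine (sq_le_sq₀ (norm_nonneg _) (norm_nonneg _)).mp ?_
      nlinarith [sq_nonneg ‖g1‖]
    have e : C.An g Φ + C.Cr g Φ =
        (C.An g1 Φ + C.Cr g1 Φ) + (C.An (g - g1) Φ + C.Cr (g - g1) Φ) := by
      simp only [map_sub, LinearMap.sub_apply]; abel
    have h2 := hΦ3 fun r => (⟪f r, g⟫_ℂ).re
    rw [e]
    refine (norm_add_le _ _).trans ?_
    rw [hΦ4 _ hperp]
    have h3 : √(∑ r, (⟪f r, g⟫_ℂ).re ^ 2 * ((1 - s r.1) / (1 + s r.1))) ≤ ‖g‖ := by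
      refine le_trans (Real.sqrt_le_sqrt (Finset.sum_le_sum fun r _ => ?_)) (bessel g)
      exact mul_le_of_le_one_right (sq_nonneg _) (he r.1).2
    have h4 : κ * √(∑ r, (⟪f r, g⟫_ℂ).re ^ 2) ≤ 1 * ‖g‖ := by
      gcongr; exact bessel g
    calc _ ≤ (‖g‖ + 1 * ‖g‖) * ‖Φ‖ + ‖g‖ * ‖Φ‖ := by
          gcongr
          exact h2.trans (by gcongr)
      _ = _ := by ring

end Pool.Agent.Lib.MP_791321_mp
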