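import Pool.Agent.Lib.MP_791321_mp.Lower
import Pool.Agent.Lib.MP_791321_mp.SqueezeSub

set_option autoImplicit false

open scoped ComplexConjugate InnerProductSpace ContDiff
open MeasureTheory

namespace Pool.Agent.Lib.MP_791321_mp

variable {L Λ : ℝ}

lemma V3_norm_sq (x : V3) : ‖x‖ ^ 2 = ∑ i, x i ^ 2 := by
  simp [EuclideanSpace.norm_sq_eq]

lemma pol_complete {ε : V3 → Fin 2 → V3} (hε : IsPolarisation ε) {k : V3} (hk : k ≠ 0)
    (i j : Fin 3) :
    ∑ μ, ε k μ i * ε k μ j = (if i = j then 1 else 0) - k i * k j / ‖k‖ ^ 2 := by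
  have hk0 : 0 < ‖k‖ := norm_pos_iff.mpr hk
  let M : Matrix (Fin 3) (Fin 3) ℝ :=
    Matrix.of ![fun i => ε k 0 i, fun i => ε k 1 i, fun i => k i / ‖k‖]
  have a0 := pol_sq hε hk 0
  have a1 := pol_sq hε hk 1
  have a2 := pol_orth hε hk
  have a3 := pol_trans hε hk 0
  have a4 := pol_trans hε hk 1
  have a5 := V3_norm_sq k
  simp only [Fin.sum_univ_three] at a0 a1 a2 a3 a4 a5
  have h : M * M.transpose = 1 := by
    ext a b
    fin_cases a <;> fin_cases b <;>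
      simp [M, Matrix.mul_apply, Fin.sum_univ_three] <;> (try field_simp) <;> linarith
  have h' : M.transpose * M = 1 := mul_eq_one_comm.mp h
  have h2 := congrFun (congrFun h' i) j
  simp only [Matrix.mul_apply, Fin.sum_univ_three, Matrix.transpose_apply, M, Matrix.of_apply,
    Matrix.cons_val_zero, Matrix.cons_val_one, Matrix.cons_val_two, Matrix.one_apply,
    Matrix.head_cons, Matrix.tail_cons] at h2
  rw [Fin.sum_univ_two, ← h2]
  field_simp
  ring

noncomputable def vec (L Λ : ℝ) (ε : V3 → Fin 2 → V3) (i : Fin 3) (F : V3 → ℂ) :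
    EuclideanSpace ℂ (Mode L Λ) := WithLp.toLp 2 fun m => (wt ε i m : ℂ) * F (kk m)

noncomputable def Tk (L : ℝ) (i j : Fin 3) (k : V3) : ℝ :=
  ((if i = j then 1 else 0) - k i * k j / ‖k‖ ^ 2) / (2 * L ^ 3 * ‖k‖)

lemma inner_vec (hL : 0 < L) {ε : V3 → Fin 2 → V3} (hε : IsPolarisation ε) (i j : Fin 3)
    (F G : V3 → ℂ) : ⟪vec L Λ ε i F, vec L Λ ε j G⟫_ℂ =
      ∑ z : Kset L Λ, (Tk L i j (mom L z) : ℂ) * (conj (F (mom L z)) * G (mom L z)) := by
  rw [PiLp.inner_apply, Fintype.sum_prod_type]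
  refine Finset.sum_congr rfl fun z _ => ?_
  have hk : 0 < ‖mom L z‖ := norm_pos_iff.mpr z.2.1
  rw [Tk, ← pol_complete hε z.2.1, Finset.sum_div, Complex.ofReal_sum, Finset.sum_mul]
  refine Finset.sum_congr rfl fun μ _ => ?_
  have h : wt ε i (z, μ) * wt ε j (z, μ) =
      ε (mom L z) μ i * ε (mom L z) μ j / (2 * L ^ 3 * ‖mom L z‖) := by
    simp only [wt, kk]
    rw [div_mul_div_comm, Real.mul_self_sqrt (by positivity)]
  rw [← h]
  simp only [vec, RCLike.inner_apply, map_mul, Complex.conj_ofReal, kk]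
  push_cast; ring

lemma mom_flip (η : Fin 3 → ℤ) (z : Fin 3 → ℤ) (i : Fin 3) :
    mom L (fun i => η i * z i) i = η i * mom L z i := by
  simp [mom]; ring

lemma norm_mom_flip (η : Fin 3 → ℤ) (hη : ∀ i, η i * η i = 1) (z : Fin 3 → ℤ) :
    ‖mom L (fun i => η i * z i)‖ = ‖mom L z‖ := by
  refine (sq_eq_sq₀ (norm_nonneg _) (norm_nonneg _)).mp ?_
  rw [V3_norm_sq, V3_norm_sq]
  refine Finset.sum_congr rfl fun i _ => ?_
  have : ((η i : ℝ)) * η i = 1 := by exact_mod_cast hη i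
  rw [mom_flip, mul_pow, sq, this, one_mul]

def flipK (η : Fin 3 → ℤ) (hη : ∀ i, η i * η i = 1) (z : Kset L Λ) : Kset L Λ :=
  ⟨fun i => η i * z.1 i, by
    refine ⟨?_, ?_⟩
    · rw [← norm_pos_iff, norm_mom_flip η hη, norm_pos_iff]; exact z.2.1
    · rw [norm_mom_flip η hη]; exact z.2.2⟩

lemma sum_flip {M : Type*} [AddCommMonoid M] (η : Fin 3 → ℤ) (hη : ∀ i, η i * η i = 1)
    (f : Kset L Λ → M) : ∑ z, f z = ∑ z, f (flipK η hη z) := by
  have hinv : Function.Involutive (flipK (L := L) (Λ := Λ) η hη) := by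
    intro z
    ext i
    simp [flipK, ← mul_assoc, hη]
  exact (Equiv.sum_comp hinv.toPerm f).symm

lemma mom_neg (z : Kset L Λ) :
    mom L (flipK (fun _ => -1) (fun _ => by simp) z).1 = -mom L z := by
  ext i
  simp only [flipK]
  rw [mom_flip]; simp

lemma Tk_neg (i j : Fin 3) (k : V3) : Tk L i j (-k) = Tk L i j k := by simp [Tk]

lemma inner_vec_real (hL : 0 < L) {ε : V3 → Fin 2 → V3} (hε : IsPolarisation ε) (i j : Fin 3)
    (F G : V3 → ℂ) (hF : ∀ k, F (-k) = conj (F k)) (hG : ∀ k, G (-k) = conj (G k)) :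
    (⟪vec L Λ ε i F, vec L Λ ε j G⟫_ℂ).im = 0 := by
  rw [← Complex.conj_eq_iff_im, inner_vec hL hε]
  conv_rhs => rw [sum_flip (fun _ => -1) (fun _ => by simp)]
  simp only [mom_neg, Tk_neg, hF, hG, map_sum, map_mul, Complex.conj_ofReal]

lemma inner_vec_odd (hL : 0 < L) {ε : V3 → Fin 2 → V3} (hε : IsPolarisation ε) (i j : Fin 3)
    (F G : V3 → ℂ) (hF : ∀ k, F (-k) = F k) (hG : ∀ k, G (-k) = -G k) :
    ⟪vec L Λ ε i F, vec L Λ ε j G⟫_ℂ = 0 := by
  have h : ⟪vec L Λ ε i F, vec L Λ ε j G⟫_ℂ = -⟪vec L Λ ε i F, vec L Λ ε j G⟫_ℂ := by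
    rw [inner_vec hL hε]
    conv_lhs => rw [sum_flip (fun _ => -1) (fun _ => by simp)]
    simp only [mom_neg, Tk_neg, hF, hG, ← Finset.sum_neg_distrib]
    exact Finset.sum_congr rfl fun _ _ => by ring
  linear_combination h / 2

lemma inner_vec_one (hL : 0 < L) {ε : V3 → Fin 2 → V3} (hε : IsPolarisation ε) {i j : Fin 3}
    (hij : i ≠ j) : ⟪vec L Λ ε i 1, vec L Λ ε j 1⟫_ℂ = 0 := by
  have h : ⟪vec L Λ ε i 1, vec L Λ ε j 1⟫_ℂ = -⟪vec L Λ ε i 1, vec L Λ ε j 1⟫_ℂ := by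
    rw [inner_vec hL hε]
    have hη : ∀ l, (fun l => if l = i then (-1 : ℤ) else 1) l *
        (fun l => if l = i then (-1 : ℤ) else 1) l = 1 := by
      intro l; by_cases h : l = i <;> simp [h]
    conv_lhs => rw [sum_flip _ hη]
    simp only [← Finset.sum_neg_distrib]
    refine Finset.sum_congr rfl fun z _ => ?_
    simp only [Tk, flipK, norm_mom_flip _ hη, mom_flip, if_neg hij, if_neg hij.symm]
    simp
    ring
  linear_combination h / 2

lemma sum_norm_vec (hL : 0 < L) {ε : V3 → Fin 2 → V3} (hε : IsPolarisation ε) (F : V3 → ℂ)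
    (w : V3 → ℝ) (B : ℝ) (hB : ∀ k : V3, k ≠ 0 → ‖k‖ < Λ → w k * ‖F k‖ ^ 2 ≤ B * ‖k‖) :
    ∑ i, ∑ m, w (kk m) * ‖vec L Λ ε i F m‖ ^ 2 ≤ B * rho L Λ := by
  rw [Finset.sum_comm, ← sum_const_mode]
  refine Finset.sum_le_sum fun m _ => ?_
  have hk := kk_pos m
  have h1 : ∀ i, w (kk m) * ‖vec L Λ ε i F m‖ ^ 2 =
      ε (kk m) m.2 i ^ 2 * (w (kk m) * ‖F (kk m)‖ ^ 2 / (2 * L ^ 3 * ‖kk m‖)) := by
    intro i
    simp only [vec, norm_mul, mul_pow, Complex.norm_real, Real.norm_eq_abs, sq_abs, wt, div_pow]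
    rw [Real.sq_sqrt (by positivity)]
    ring
  simp only [h1, ← Finset.sum_mul, pol_sq hε (kk_ne m), one_mul]
  rw [div_le_div_iff₀ (by positivity) (by positivity)]
  have := hB _ (kk_ne m) (kk_lt m)
  have h3 : 0 < 2 * L ^ 3 := by positivity
  nlinarith

lemma norm_vec_le (hL : 0 < L) {ε : V3 → Fin 2 → V3} (hε : IsPolarisation ε) (F : V3 → ℂ)
    (B : ℝ) (hB : ∀ k : V3, k ≠ 0 → ‖k‖ < Λ → ‖F k‖ ^ 2 ≤ B * ‖k‖) (i : Fin 3) :
    ‖vec L Λ ε i F‖ ≤ √(B * rho L Λ) := by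
  apply Real.le_sqrt_of_sq_le
  have h := sum_norm_vec hL hε F (fun _ => 1) B (by simpa using hB)
  simp only [one_mul] at h
  rw [EuclideanSpace.norm_sq_eq]
  exact le_trans (Finset.single_le_sum (f := fun i => ∑ m, ‖vec L Λ ε i F m‖ ^ 2)
    (fun _ _ => Finset.sum_nonneg fun _ _ => sq_nonneg _) (Finset.mem_univ i)) h

/-- the mode function of the field at the point `y` -/
noncomputable def gy (L Λ : ℝ) (ε : V3 → Fin 2 → V3) (i : Fin 3) (y : V3) :
    EuclideanSpace ℂ (Mode L Λ) :=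
  vec L Λ ε i fun k => Complex.exp (-(Complex.I * (inner ℝ k y : ℝ)))

theorem fock_trial (hL : 0 < L) (hΛ : 0 < Λ) {ε : V3 → Fin 2 → V3} (hε : IsPolarisation ε)
    {t e R η : ℝ} (ht : 0 < t) (he : 0 < e) (he1 : e ≤ 1) (hR : 0 < R) (hΛR : Λ * R ≤ 1)
    (hη : 0 < η) :
    ∃ Φ : Fk (Mode L Λ) ℂ, 1 ≤ ‖Φ‖ ∧
      ∑ m, ‖kk m‖ * ‖Fk.a m Φ‖ ^ 2 ≤ (rho L Λ / (4 * t) + 9 * Λ / (4 * e)) * ‖Φ‖ ^ 2 ∧
      ∀ i y, ‖y‖ ≤ R → ‖Fk.ccr.An (gy L Λ ε i y) Φ + Fk.ccr.Cr (gy L Λ ε i y) Φ‖ ≤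
        (√t + η + 2 * √e * √(Λ * R ^ 2 * rho L Λ) + 3 * √(Λ ^ 3 * R ^ 4 * rho L Λ)) * ‖Φ‖ := by
  let u : Fin 3 → EuclideanSpace ℂ (Mode L Λ) := fun i => vec L Λ ε i 1
  let v : Fin 3 × Fin 3 → EuclideanSpace ℂ (Mode L Λ) :=
    fun il => vec L Λ ε il.1 fun k => -(Complex.I * (k il.2 : ℝ))
  let G : Option (Fin 3) → Set (EuclideanSpace ℂ (Mode L Λ)) :=
    fun a => Option.rec (Set.range v) (fun i => {u i}) a
  let U : Option (Fin 3) → Submodule ℝ (EuclideanSpace ℂ (Mode L Λ)) :=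
    fun a => Submodule.span ℝ (G a)
  have hG : ∀ a, ∀ x ∈ G a, ∃ i F, (∀ k, F (-k) = conj (F k)) ∧ x = vec L Λ ε i F := by
    rintro (_ | i) x hx
    · obtain ⟨il, rfl⟩ := hx
      exact ⟨il.1, _, fun k => by simp, rfl⟩
    · exact ⟨i, 1, fun k => by simp, hx⟩
  have hre : ∀ a (T : Set (EuclideanSpace ℂ (Mode L Λ))),
      (∀ x ∈ T, ∃ i F, (∀ k, F (-k) = conj (F k)) ∧ x = vec L Λ ε i F) →
      ∀ x ∈ U a, ∀ y ∈ Submodule.span ℝ T, (⟪x, y⟫_ℂ).im = 0 := by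
    intro a T hT
    refine span_pair (LinearMap.ker Complex.imLm) _ _ fun x hx y hy => ?_
    obtain ⟨i, F, hF, rfl⟩ := hG a x hx
    obtain ⟨j, F', hF', rfl⟩ := hT y hy
    exact inner_vec_real hL hε i j F F' hF hF'
  have huv : ∀ i il, ⟪u i, v il⟫_ℂ = 0 := fun i il =>
    inner_vec_odd hL hε _ _ _ _ (fun k => rfl) (fun k => by simp)
  have horth : ∀ a b, a ≠ b → ∀ x ∈ U a, ∀ y ∈ U b, ⟪x, y⟫_ℂ = 0 := by
    intro a b hab
    refine span_pair ⊥ _ _ fun x hx y hy => ?_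
    rw [Submodule.mem_bot]
    rcases a with _ | i <;> rcases b with _ | j
    · exact absurd rfl hab
    · obtain ⟨il, rfl⟩ := hx
      rw [show y = u j from hy, ← inner_conj_symm, huv]; simp
    · obtain ⟨il, rfl⟩ := hy
      rw [show x = u i from hx, huv]
    · rw [show x = u i from hx, show y = u j from hy]
      exact inner_vec_one hL hε fun h => hab (by rw [h])
  let d : Option (Fin 3) → ℕ := fun a => Option.rec 9 (fun _ => 1) a
  have hd : ∀ a, Module.finrank ℝ (U a) ≤ d a := by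
    rintro (_ | i)
    · exact (finrank_range_le_card (R := ℝ) v).trans (by simp [d])
    · simpa using finrank_span_le_card (R := ℝ) ({u i} : Set _)
  let τ : Fin 3 → ℝ := fun i => ∑ m, ‖kk m‖ * ‖u i m‖ ^ 2
  have hτ0 : ∀ i, 0 ≤ τ i := fun i => Finset.sum_nonneg fun m _ => by positivity
  have hτ : ∑ i, τ i ≤ rho L Λ := by
    simpa using sum_norm_vec hL hε 1 (fun k => ‖k‖) 1 (fun k _ _ => by simp)
  let lam : Option (Fin 3) → ℝ := fun a => Option.rec Λ (fun i => τ i / ‖u i‖ ^ 2) a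
  have hlam0 : ∀ a, 0 ≤ lam a := by
    rintro (_ | i)
    · exact hΛ.le
    · exact div_nonneg (hτ0 i) (sq_nonneg _)
  have hlam : ∀ a, ∀ x ∈ U a, ‖x‖ = 1 → ∑ m, ‖kk m‖ * ‖x m‖ ^ 2 ≤ lam a := by
    rintro (_ | i) x hx h1
    · calc _ ≤ ∑ m, Λ * ‖x m‖ ^ 2 := Finset.sum_le_sum fun m _ => by
            have := (kk_lt m).le
            gcongr
        _ = Λ := by rw [← Finset.mul_sum, ← EuclideanSpace.norm_sq_eq, h1]; simp
    · obtain ⟨c, rfl⟩ := Submodule.mem_span_singleton.mp hx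
      rw [norm_smul] at h1
      have h2 : ‖u i‖ ≠ 0 := fun h => by simp [h] at h1
      have h3 : ‖c‖ ^ 2 = 1 / ‖u i‖ ^ 2 := by
        field_simp
        rw [← mul_pow, h1]; simp
      apply le_of_eq
      simp only [PiLp.smul_apply, norm_smul, mul_pow, h3, lam, τ, Finset.sum_div]
      exact Finset.sum_congr rfl fun m _ => by ring
  let s : Option (Fin 3) → ℝ :=
    fun a => Option.rec ((1 - e) / (1 + e)) (fun i => ‖u i‖ ^ 2 / (2 * t + ‖u i‖ ^ 2)) a
  have hs : ∀ a, 0 ≤ s a ∧ s a < 1 := by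
    rintro (_ | i)
    · exact ⟨div_nonneg (by linarith) (by linarith), (div_lt_one (by linarith)).mpr (by linarith)⟩
    · exact ⟨by positivity, (div_lt_one (by positivity)).mpr (by linarith)⟩
  obtain ⟨κ, hκ, hκ1, hκe, hκu⟩ : ∃ κ : ℝ, 0 < κ ∧ κ ≤ 1 ∧ κ ≤ √e ∧ ∀ i, κ * ‖u i‖ ≤ η := by
    have hS : 0 ≤ ∑ i, ‖u i‖ := Finset.sum_nonneg fun _ _ => norm_nonneg _
    have hse : 0 < √e := Real.sqrt_pos.mpr he
    refine ⟨min (√e) (η / (1 + ∑ i, ‖u i‖)), by positivity,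
      (min_le_left _ _).trans (Real.sqrt_le_one.mpr he1), min_le_left _ _, fun i => ?_⟩
    have h1 : ‖u i‖ ≤ 1 + ∑ i, ‖u i‖ := by
      have := Finset.single_le_sum (f := fun i => ‖u i‖) (fun _ _ => norm_nonneg _)
        (Finset.mem_univ i)
      linarith
    calc _ ≤ η / (1 + ∑ i, ‖u i‖) * (1 + ∑ i, ‖u i‖) := by gcongr; exact min_le_right _ _
      _ = η := by field_simp
  obtain ⟨Φ, h1, h2, h3, h4⟩ := (Fk.ccr (I := Mode L Λ) (T := ℂ)).squeeze_sub U
    (fun a => hre a _ (hG a)) horth d hd (fun m => ‖kk m‖) (fun m => norm_nonneg _) lam hlam0 hlam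
    s hs Fk.a_vac Fk.norm_vac hκ hκ1
  refine ⟨Φ, h1, h2.trans ?_, fun i y hy => ?_⟩
  · gcongr
    rw [Fintype.sum_option, add_comm]
    refine add_le_add ?_ ?_
    · calc _ ≤ ∑ i, τ i / (4 * t) := Finset.sum_le_sum fun i _ => ?_
        _ ≤ _ := by rw [← Finset.sum_div]; gcongr
      simp only [d, lam, s, Nat.cast_one, one_mul]
      by_cases h0 : ‖u i‖ = 0
      · simp only [h0]
        have := hτ0 i
        simp; positivity
      · have h5 : 0 < ‖u i‖ ^ 2 := by positivity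
        set U2 := ‖u i‖ ^ 2
        have e1 : (U2 / (2 * t + U2)) ^ 2 / (1 - (U2 / (2 * t + U2)) ^ 2) =
            U2 ^ 2 / (4 * t * (t + U2)) := by
          have : 1 - (U2 / (2 * t + U2)) ^ 2 = 4 * t * (t + U2) / (2 * t + U2) ^ 2 := by
            field_simp; ring
          rw [this]; field_simp
        rw [e1]
        have e2 : τ i / U2 * (U2 ^ 2 / (4 * t * (t + U2))) = τ i / (4 * t) * (U2 / (t + U2)) := by
          field_simp
        rw [e2]
        have := hτ0 i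
        exact mul_le_of_le_one_right (by positivity) ((div_le_one (by positivity)).mpr (by linarith))
    · simp only [d, lam, s]
      have e1 : ((1 - e) / (1 + e)) ^ 2 / (1 - ((1 - e) / (1 + e)) ^ 2) = (1 - e) ^ 2 / (4 * e) := by
        have : 1 - ((1 - e) / (1 + e)) ^ 2 = 4 * e / (1 + e) ^ 2 := by
          field_simp; ring
        rw [this]; field_simp
      rw [e1]
      have h5 : (1 - e) ^ 2 ≤ 1 := by nlinarith
      calc _ ≤ ((9 : ℕ) : ℝ) * (Λ * (1 / (4 * e))) := by gcongr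
        _ = _ := by push_cast; ring
  · let V := vec L Λ ε i fun k => -(Complex.I * (inner ℝ k y : ℝ))
    let W := vec L Λ ε i fun k => Complex.exp (-(Complex.I * (inner ℝ k y : ℝ))) - 1 -
      -(Complex.I * (inner ℝ k y : ℝ))
    have e1 : gy L Λ ε i y = u i + V + W := by
      ext m; simp only [gy, u, V, W, vec, PiLp.add_apply, Pi.one_apply]; ring
    have hV : V ∈ U none := by
      have : V = ∑ l, y l • v (i, l) := by
        ext m
        simp only [V, v, vec, V3_inner, Fin.sum_univ_three, PiLp.add_apply, PiLp.smul_apply,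
          Complex.real_smul]
        push_cast; ring
      rw [this]
      exact Submodule.sum_mem _ fun l _ =>
        Submodule.smul_mem _ _ (Submodule.subset_span ⟨(i, l), rfl⟩)
    have hky : ∀ k : V3, |inner ℝ k y| ≤ ‖k‖ * R := fun k =>
      (abs_real_inner_le_norm k y).trans (by gcongr)
    have nV : ‖V‖ ≤ √(Λ * R ^ 2 * rho L Λ) := by
      refine norm_vec_le hL hε _ _ (fun k _ hk => ?_) i
      simp only [norm_neg, norm_mul, Complex.norm_I, one_mul, Complex.norm_real, Real.norm_eq_abs]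
      calc _ ≤ (‖k‖ * R) ^ 2 := by gcongr; exact hky k
        _ = ‖k‖ * R ^ 2 * ‖k‖ := by ring
        _ ≤ _ := by gcongr
    have nW : ‖W‖ ≤ √(Λ ^ 3 * R ^ 4 * rho L Λ) := by
      refine norm_vec_le hL hε _ _ (fun k _ hk => ?_) i
      have h5 : ‖-(Complex.I * (inner ℝ k y : ℝ))‖ ≤ ‖k‖ * R := by
        simpa using hky k
      have h6 : ‖k‖ * R ≤ 1 := le_trans (by gcongr) hΛR
      have h7 := Complex.norm_exp_sub_one_sub_id_le (h5.trans h6)
      calc _ ≤ ((‖k‖ * R) ^ 2) ^ 2 := by gcongr; exact h7.trans (by gcongr)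
        _ = ‖k‖ ^ 3 * R ^ 4 * ‖k‖ := by ring
        _ ≤ _ := by gcongr
    have b1 := h3 (some i) (u i) (Submodule.subset_span rfl)
    have b2 := h3 none V hV
    have b3 := h4 W fun a x hx => hre a {W} (by
      rintro _ rfl
      refine ⟨i, _, fun k => ?_, rfl⟩
      simp [← Complex.exp_conj, sub_eq_add_neg]) x hx W (Submodule.subset_span rfl)
    have c1 : (√((1 - s (some i)) / (1 + s (some i))) + κ) * ‖u i‖ ≤ √t + η := by
      rw [add_mul]
      refine add_le_add ?_ (hκu i)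
      have e2 : (1 - s (some i)) / (1 + s (some i)) = t / (t + ‖u i‖ ^ 2) := by
        simp only [s]; field_simp; ring
      rw [e2]
      apply Real.le_sqrt_of_sq_le
      rw [mul_pow, Real.sq_sqrt (by positivity), div_mul_eq_mul_div, div_le_iff₀ (by positivity)]
      nlinarith
    have c2 : √((1 - s none) / (1 + s none)) + κ ≤ 2 * √e := by
      have e2 : (1 - s none) / (1 + s none) = e := by
        simp only [s]; field_simp; ring
      rw [e2]; linarith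
    have e3 : Fk.ccr.An (gy L Λ ε i y) Φ + Fk.ccr.Cr (gy L Λ ε i y) Φ =
        (Fk.ccr.An (u i) Φ + Fk.ccr.Cr (u i) Φ) + (Fk.ccr.An V Φ + Fk.ccr.Cr V Φ) +
          (Fk.ccr.An W Φ + Fk.ccr.Cr W Φ) := by
      simp only [e1, map_add, LinearMap.add_apply]; abel
    rw [e3]
    refine (norm_add₃_le).trans ?_
    calc _ ≤ (√t + η) * ‖Φ‖ + 2 * √e * √(Λ * R ^ 2 * rho L Λ) * ‖Φ‖ +
          3 * √(Λ ^ 3 * R ^ 4 * rho L Λ) * ‖Φ‖ := by
          gcongr
          · exact b1.trans (by gcongr)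
          · exact b2.trans (by gcongr)
          · exact b3.trans (by gcongr)
      _ = _ := by ring

end Pool.Agent.Lib.MP_791321_mp
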