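import Pool.Agent.Lib.MP_791321_mp.Bridge

set_option autoImplicit false

open scoped ComplexConjugate InnerProductSpace ContDiff
open MeasureTheory

namespace Pool.Agent.Lib.MP_791321_mp

variable {L Λ : ℝ} {N : ℕ}

noncomputable def rho (L Λ : ℝ) : ℝ := (Fintype.card (Kset L Λ) : ℝ) / L ^ 3

lemma kk_ne (m : Mode L Λ) : kk m ≠ 0 := m.1.2.1
lemma kk_pos (m : Mode L Λ) : 0 < ‖kk m‖ := norm_pos_iff.mpr (kk_ne m)
lemma kk_lt (m : Mode L Λ) : ‖kk m‖ < Λ := m.1.2.2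

lemma V3_inner (x y : V3) : inner ℝ x y = ∑ i, x i * y i := by
  simp [PiLp.inner_apply, mul_comm]

lemma pol_sq {ε : V3 → Fin 2 → V3} (hε : IsPolarisation ε) {k : V3} (hk : k ≠ 0) (μ : Fin 2) :
    ∑ i, ε k μ i ^ 2 = 1 := by
  have h := (hε k hk).1.1 μ
  have h2 := real_inner_self_eq_norm_sq (ε k μ)
  rw [V3_inner, h] at h2
  simpa [sq] using h2

lemma pol_orth {ε : V3 → Fin 2 → V3} (hε : IsPolarisation ε) {k : V3} (hk : k ≠ 0) :
    ∑ i, ε k 0 i * ε k 1 i = 0 := by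
  have h := (hε k hk).1.2 (show (0 : Fin 2) ≠ 1 by decide)
  simpa [V3_inner] using h

lemma pol_trans {ε : V3 → Fin 2 → V3} (hε : IsPolarisation ε) {k : V3} (hk : k ≠ 0) (μ : Fin 2) :
    ∑ i, ε k μ i * k i = 0 := by
  have h := (hε k hk).2 μ
  simpa [V3_inner] using h

lemma sum_const_mode (c : ℝ) : ∑ _m : Mode L Λ, c / (2 * L ^ 3) = c * rho L Λ := by
  simp only [Finset.sum_const, Finset.card_univ, Fintype.card_prod, Fintype.card_fin, rho,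
    nsmul_eq_mul]
  push_cast
  ring

lemma pol_norm_sum {S : Type*} [SeminormedAddCommGroup S] [InnerProductSpace ℂ S]
    {ε : V3 → Fin 2 → V3} (hε : IsPolarisation ε) {k : V3} (hk : k ≠ 0) (y : Fin 2 → S) :
    ∑ i, ‖∑ μ, ((ε k μ i : ℝ) : ℂ) • y μ‖ ^ 2 = ∑ μ, ‖y μ‖ ^ 2 := by
  have h : ∀ i, ‖∑ μ, ((ε k μ i : ℝ) : ℂ) • y μ‖ ^ 2 = ε k 0 i ^ 2 * ‖y 0‖ ^ 2 +
      ε k 0 i * ε k 1 i * (2 * (⟪y 0, y 1⟫_ℂ).re) + ε k 1 i ^ 2 * ‖y 1‖ ^ 2 := by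
    intro i
    rw [Fin.sum_univ_two, @norm_add_sq ℂ, inner_smul_left, inner_smul_right, norm_smul, norm_smul]
    simp [mul_pow]
    ring
  simp only [h]
  simp only [Finset.sum_add_distrib, ← Finset.sum_mul, pol_sq hε hk, pol_orth hε hk,
    Fin.sum_univ_two]
  ring

noncomputable def gvec (L Λ : ℝ) (ε : V3 → Fin 2 → V3) (i : Fin 3) :
    EuclideanSpace ℂ (Mode L Λ) :=
  WithLp.toLp 2 fun m => ((ε (kk m) m.2 i * √(‖kk m‖ / (2 * L ^ 3)) : ℝ) : ℂ)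

lemma gvec_uvec (hL : 0 < L) {ε : V3 → Fin 2 → V3} (hε : IsPolarisation ε) :
    ∑ i, ⟪gvec L Λ ε i, uvec L Λ ε i⟫_ℂ = (rho L Λ : ℂ) := by
  simp only [PiLp.inner_apply, gvec, uvec, RCLike.inner_apply, Complex.conj_ofReal,
    ← Complex.ofReal_mul, ← Complex.ofReal_sum]
  congr 1
  rw [Finset.sum_comm, ← one_mul (rho L Λ), ← sum_const_mode]
  refine Finset.sum_congr rfl fun m _ => ?_
  have hk := kk_pos m
  have h1 : √(‖kk m‖ / (2 * L ^ 3)) / √(2 * L ^ 3 * ‖kk m‖) = 1 / (2 * L ^ 3) := by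
    rw [← Real.sqrt_div (by positivity), Real.sqrt_eq_iff_mul_self_eq (by positivity)
      (by positivity)]
    field_simp
  calc _ = ∑ i, ε (kk m) m.2 i ^ 2 * (√(‖kk m‖ / (2 * L ^ 3)) / √(2 * L ^ 3 * ‖kk m‖)) :=
        Finset.sum_congr rfl fun i _ => by simp only [wt]; ring
    _ = _ := by rw [← Finset.sum_mul, pol_sq hε (kk_ne m) m.2, h1, one_mul]

lemma gvec_norm (hL : 0 < L) {ε : V3 → Fin 2 → V3} (hε : IsPolarisation ε) :
    ∑ i, ‖gvec L Λ ε i‖ ^ 2 ≤ Λ * rho L Λ := by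
  simp only [EuclideanSpace.norm_sq_eq, gvec, Complex.norm_real, Real.norm_eq_abs, sq_abs]
  rw [Finset.sum_comm, ← sum_const_mode]
  refine Finset.sum_le_sum fun m _ => ?_
  have hk := kk_pos m
  simp only [mul_pow, ← Finset.sum_mul, pol_sq hε (kk_ne m) m.2, one_mul]
  rw [Real.sq_sqrt (by positivity)]
  have := (kk_lt m).le
  gcongr

lemma b_bound (hL : 0 < L) {ε : V3 → Fin 2 → V3} (hε : IsPolarisation ε) (j : Fin N)
    (u : SS L Λ N) : ∑ i, ‖(dressed j).An (gvec L Λ ε i) u‖ ^ 2 ≤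
      rho L Λ / 2 * ∑ m : Mode L Λ, ‖kk m‖ * ‖Fk.a m u‖ ^ 2 := by
  set y : Mode L Λ → SS L Λ N := fun m => ((√(‖kk m‖ / (2 * L ^ 3)) : ℝ) : ℂ) • (dressed j).a m u
    with hy
  have h1 : ∀ i, (dressed j).An (gvec L Λ ε i) u =
      ∑ z : Kset L Λ, ∑ μ, ((ε (mom L z) μ i : ℝ) : ℂ) • y (z, μ) := by
    intro i
    rw [CCR.An_apply, Fintype.sum_prod_type]
    refine Finset.sum_congr rfl fun z _ => Finset.sum_congr rfl fun μ _ => ?_
    simp only [gvec, Complex.conj_ofReal, hy, smul_smul, kk]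
    push_cast; rfl
  have h2 : ∀ i, ‖(dressed j).An (gvec L Λ ε i) u‖ ^ 2 ≤ (Fintype.card (Kset L Λ) : ℝ) *
      ∑ z : Kset L Λ, ‖∑ μ, ((ε (mom L z) μ i : ℝ) : ℂ) • y (z, μ)‖ ^ 2 := by
    intro i
    rw [h1]
    calc _ ≤ (∑ z : Kset L Λ, ‖∑ μ, ((ε (mom L z) μ i : ℝ) : ℂ) • y (z, μ)‖) ^ 2 := by
          gcongr; exact norm_sum_le _ _
      _ ≤ _ := by
          simpa using sq_sum_le_card_mul_sum_sq (s := (Finset.univ : Finset (Kset L Λ)))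
            (f := fun z : Kset L Λ => ‖∑ μ, ((ε (mom L z) μ i : ℝ) : ℂ) • y (z, μ)‖)
  refine (Finset.sum_le_sum fun i _ => h2 i).trans (le_of_eq ?_)
  rw [← Finset.mul_sum, Finset.sum_comm]
  have h3 : ∀ z : Kset L Λ, ∑ i, ‖∑ μ, ((ε (mom L z) μ i : ℝ) : ℂ) • y (z, μ)‖ ^ 2 =
      ∑ μ, ‖y (z, μ)‖ ^ 2 := fun z => pol_norm_sum hε z.2.1 _
  simp only [h3]
  rw [← Fintype.sum_prod_type (f := fun m : Mode L Λ => ‖y m‖ ^ 2), Finset.mul_sum, Finset.mul_sum]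
  refine Finset.sum_congr rfl fun m _ => ?_
  have hk := kk_pos m
  have h4 : ‖(dressed j).a m u‖ ^ 2 = ‖Fk.a m u‖ ^ 2 := norm_Eop _ _ _
  simp only [hy, norm_smul, mul_pow, h4, Complex.norm_real, Real.norm_eq_abs, sq_abs, rho]
  rw [Real.sq_sqrt (by positivity)]
  ring

lemma comm_sum (hL : 0 < L) (α : ℝ) {ε : V3 → Fin 2 → V3} (hε : IsPolarisation ε) (j : Fin N)
    (u : SS L Λ N) :
    ∑ i, ((dressed j).An (gvec L Λ ε i) (Dop α ε j i u) -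
      Dop α ε j i ((dressed j).An (gvec L Λ ε i) u)) = ((√α * rho L Λ : ℝ) : ℂ) • u := by
  have h1 : ∀ i, (dressed j).An (gvec L Λ ε i) (Dop α ε j i u) -
      Dop α ε j i ((dressed j).An (gvec L Λ ε i) u) =
      -(∑ m, (conj (gvec L Λ ε i m) * (kk m i : ℝ)) • (dressed j).a m u) +
        (((√α : ℝ) : ℂ) * ⟪gvec L Λ ε i, uvec L Λ ε i⟫_ℂ) • u := by
    intro i
    have e1 : Pop j i ((dressed j).An (gvec L Λ ε i) u) =
        (dressed j).An (gvec L Λ ε i) (Pop j i u) +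
          ∑ m, (conj (gvec L Λ ε i m) * (kk m i : ℝ)) • (dressed j).a m u := by
      simp only [CCR.An_apply, map_sum, map_smul, Pop_a, smul_add, Finset.sum_add_distrib,
        smul_smul]
    simp only [Dop, Aop, LinearMap.add_apply, LinearMap.smul_apply, map_add, map_smul, e1,
      CCR.An_Cr, (dressed j).An_An (gvec L Λ ε i)]
    module
  simp only [h1, Finset.sum_add_distrib, Finset.sum_neg_distrib, ← Finset.sum_smul,
    ← Finset.mul_sum, gvec_uvec hL hε]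
  rw [Finset.sum_comm]
  simp only [← Finset.sum_smul]
  have h2 : ∀ m : Mode L Λ, ∑ i, conj (gvec L Λ ε i m) * (kk m i : ℝ) = 0 := by
    intro m
    simp only [gvec, Complex.conj_ofReal, ← Complex.ofReal_mul, ← Complex.ofReal_sum]
    have := pol_trans hε (kk_ne m) m.2
    have e : ∑ i, ε (kk m) m.2 i * √(‖kk m‖ / (2 * L ^ 3)) * kk m i =
        √(‖kk m‖ / (2 * L ^ 3)) * ∑ i, ε (kk m) m.2 i * kk m i := by
      rw [Finset.mul_sum]; exact Finset.sum_congr rfl fun i _ => by ring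
    rw [e, this]; simp
  simp [h2]

theorem lower_bound (hL : 0 < L) (α : ℝ) {ε : V3 → Fin 2 → V3} (hε : IsPolarisation ε)
    (hρ : 0 < rho L Λ) : ((√α * √(rho L Λ) - Λ : ℝ) : EReal) ≤ E0 1 α Λ L ε := by
  refine le_E0 α ε _ fun u => ?_
  have hq : 0 < √(rho L Λ) := Real.sqrt_pos.mpr hρ
  have hq2 : √(rho L Λ) ^ 2 = rho L Λ := Real.sq_sqrt hρ.le
  have h := commutator_bound (fun i => Dop α ε 0 i) (fun i => (dressed 0).An (gvec L Λ ε i))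
    (fun i => (dressed 0).Cr (gvec L Λ ε i)) (√α * rho L Λ) (fun i => ‖gvec L Λ ε i‖ ^ 2) u
    (fun i => Dop_symm α ε 0 i) (fun i => CCR.Cr_adj _ _) (comm_sum hL α hε 0 u)
    (fun i => CCR.norm_Cr_sq _ _ _) (√(rho L Λ) / 2) (by positivity)
  have h1 := b_bound hL hε 0 u
  have h2 := gvec_norm (Λ := Λ) hL hε
  simp only [energy, Fin.sum_univ_one]
  set q := √(rho L Λ)
  set t := ∑ i, ‖Dop α ε 0 i u‖ ^ 2
  set hf := ∑ m : Mode L Λ, ‖kk m‖ * ‖Fk.a m u‖ ^ 2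
  have h3 : √α * q ^ 2 * ‖u‖ ^ 2 ≤ q / 2 * t + 1 / (q / 2) * (q ^ 2 / 2 * hf) +
      1 / (2 * (q / 2)) * (Λ * q ^ 2) * ‖u‖ ^ 2 := by
    rw [hq2]
    refine h.trans ?_
    gcongr
  have h4 : q / 2 * t + 1 / (q / 2) * (q ^ 2 / 2 * hf) +
      1 / (2 * (q / 2)) * (Λ * q ^ 2) * ‖u‖ ^ 2 = q * (hf + 1 / 2 * t + Λ * ‖u‖ ^ 2) := by
    field_simp
    ring
  rw [h4] at h3
  have h5 : q * (√α * q * ‖u‖ ^ 2) ≤ q * (hf + 1 / 2 * t + Λ * ‖u‖ ^ 2) := by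
    calc _ = √α * q ^ 2 * ‖u‖ ^ 2 := by ring
      _ ≤ _ := h3
  have h6 := le_of_mul_le_mul_left h5 hq
  linarith

end Pool.Agent.Lib.MP_791321_mp
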