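import Pool.Agent.Lib.MP_791321_mp.Upper
import Pool.Agent.Lib.MP_791321_mp.Count

set_option autoImplicit false

open Filter Topology

namespace Pool.Agent.Lib.MP_791321_mp

lemma upper_arith {N Λ T q ρ β D : ℝ} (hN : 0 ≤ N) (hΛ : 0 < Λ) (hq : 0 < q) (hβ : 1 ≤ β)
    (hρ : ρ ≤ 51 / 50 * q ^ 2)
    (hD : D = 1 + 2 * √(Λ * (2 * q ^ 2)) + 3 * √(Λ ^ 3 * (2 * q ^ 2))) :
    ρ / (4 * (3 / 10 * q / β ^ 3)) + 9 * Λ / (4 * (1 / β ^ 2) ) + 21 / 2 * T * β ^ 2 +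
      63 / 40 * N * β ^ 6 * (√(3 / 10 * q / β ^ 3) + 1 / β ^ 2 +
        2 * √(1 / β ^ 2) * √(Λ * (1 / β) ^ 2 * ρ) + 3 * √(Λ ^ 3 * (1 / β) ^ 4 * ρ)) ^ 2 ≤
      q * β ^ 3 * (17 / 20 + 1 / 2 * N) + (9 * Λ / 4 + 21 / 2 * T + 34 * N * D ^ 2) * β ^ 2 := by
  have hβ0 : 0 < β := by linarith
  have hρ2 : ρ ≤ 2 * q ^ 2 := by nlinarith
  have e1 : √(1 / β ^ 2) = 1 / β := by
    rw [Real.sqrt_eq_iff_mul_self_eq (by positivity) (by positivity)]; field_simp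
  have e2 : √(Λ * (1 / β) ^ 2 * ρ) ≤ 1 / β * √(Λ * (2 * q ^ 2)) := by
    rw [Real.sqrt_le_left (by positivity), mul_pow, Real.sq_sqrt (by positivity)]
    calc _ ≤ Λ * (1 / β) ^ 2 * (2 * q ^ 2) := by gcongr
      _ = _ := by ring
  have e3 : √(Λ ^ 3 * (1 / β) ^ 4 * ρ) ≤ 1 / β ^ 2 * √(Λ ^ 3 * (2 * q ^ 2)) := by
    rw [Real.sqrt_le_left (by positivity), mul_pow, Real.sq_sqrt (by positivity)]
    calc _ ≤ Λ ^ 3 * (1 / β) ^ 4 * (2 * q ^ 2) := by gcongr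
      _ = _ := by ring
  set t := 3 / 10 * q / β ^ 3 with ht
  have ht0 : 0 < t := by positivity
  have e4 : √t + 1 / β ^ 2 + 2 * √(1 / β ^ 2) * √(Λ * (1 / β) ^ 2 * ρ) +
      3 * √(Λ ^ 3 * (1 / β) ^ 4 * ρ) ≤ √t + D / β ^ 2 := by
    rw [e1]
    calc _ ≤ √t + 1 / β ^ 2 + 2 * (1 / β) * (1 / β * √(Λ * (2 * q ^ 2))) +
          3 * (1 / β ^ 2 * √(Λ ^ 3 * (2 * q ^ 2))) := by gcongr
      _ = _ := by rw [hD]; field_simp; ring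
  have e5 : (√t + D / β ^ 2) ^ 2 ≤ 21 / 20 * t + 21 * (D / β ^ 2) ^ 2 := by
    have := Real.sq_sqrt ht0.le
    nlinarith [sq_nonneg (√t - 20 * (D / β ^ 2))]
  have e6 : (√t + 1 / β ^ 2 + 2 * √(1 / β ^ 2) * √(Λ * (1 / β) ^ 2 * ρ) +
      3 * √(Λ ^ 3 * (1 / β) ^ 4 * ρ)) ^ 2 ≤ 21 / 20 * t + 21 * (D / β ^ 2) ^ 2 :=
    le_trans (by gcongr) e5
  have e7 : ρ / (4 * t) ≤ q * β ^ 3 * (17 / 20) := by
    rw [div_le_iff₀ (by positivity), ht]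
    calc _ ≤ 51 / 50 * q ^ 2 := hρ
      _ = _ := by field_simp; ring
  have e8 : 63 / 40 * N * β ^ 6 * (21 / 20 * t + 21 * (D / β ^ 2) ^ 2) =
      3969 / 8000 * (N * (q * β ^ 3)) + 1323 / 40 * (N * D ^ 2 * β ^ 2) := by
    rw [ht]; field_simp; ring
  have e9 : 9 * Λ / (4 * (1 / β ^ 2)) = 9 * Λ / 4 * β ^ 2 := by field_simp
  have e10 := mul_le_mul_of_nonneg_left e6 (show 0 ≤ 63 / 40 * N * β ^ 6 by positivity)
  rw [e8] at e10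
  have p1 : 0 ≤ N * (q * β ^ 3) := by positivity
  have p2 : 0 ≤ N * D ^ 2 * β ^ 2 := by positivity
  rw [e9]
  nlinarith

theorem binding (N : ℕ) (hN : 2 ≤ N) (Λ : ℝ) (hΛ : 0 < Λ) :
    ∃ α₀ : ℝ, 0 < α₀ ∧ ∀ α : ℝ, α₀ ≤ α → ∃ a b : ℝ, a < N * b ∧
      ∀ ε : ℝ → V3 → Fin 2 → V3, (∀ L, IsPolarisation (ε L)) →
        ∀ᶠ L in atTop, E0 N α Λ L (ε L) ≤ a ∧ (b : EReal) ≤ E0 1 α Λ L (ε L) := by
  obtain ⟨ρ, hρ, hlim⟩ := rho_tendsto hΛ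
  obtain ⟨T, hT, hup⟩ := upper_bound N
  set q := √ρ with hq
  have hq0 : 0 < q := Real.sqrt_pos.mpr hρ
  have hq2 : q ^ 2 = ρ := Real.sq_sqrt hρ.le
  set D := 1 + 2 * √(Λ * (2 * q ^ 2)) + 3 * √(Λ ^ 3 * (2 * q ^ 2)) with hD
  set C := 9 * Λ / 4 + 21 / 2 * T + 34 * N * D ^ 2 with hC
  have hC0 : 0 ≤ C := by positivity
  set β₀ := 1 + Λ + 10 * (C + N * Λ) / q with hβ₀
  have hβ1 : 0 ≤ 10 * (C + N * Λ) / q := by positivity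
  refine ⟨β₀ ^ 6, by positivity, fun α hα => ?_⟩
  have hα0 : 0 ≤ α := le_trans (by positivity) hα
  obtain ⟨β, hβ0, hβ⟩ : ∃ β : ℝ, 0 ≤ β ∧ β ^ 6 = α :=
    ⟨α ^ ((6 : ℕ) : ℝ)⁻¹, by positivity, Real.rpow_inv_natCast_pow hα0 (by norm_num)⟩
  have hββ : β₀ ≤ β := by
    rw [← hβ] at hα
    exact le_of_pow_le_pow_left₀ (by norm_num) hβ0 hα
  have h1β : 1 ≤ β := by linarith
  have hΛβ : Λ ≤ β := by linarith
  have hsq : √α = β ^ 3 := by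
    rw [← hβ, Real.sqrt_eq_iff_mul_self_eq (by positivity) (by positivity)]; ring
  have hN' : (2 : ℝ) ≤ N := by exact_mod_cast hN
  refine ⟨q * β ^ 3 * (17 / 20 + 1 / 2 * N) + C * β ^ 2, β ^ 3 * (49 / 50 * q) - Λ, ?_,
    fun ε hε => ?_⟩
  · have h2 : 10 * (C + N * Λ) / q < β := by linarith
    rw [div_lt_iff₀ hq0] at h2
    have h3 : 1 ≤ β ^ 2 := one_le_pow₀ h1β
    have h4 : 10 * (C + N * Λ) * β ^ 2 < β * q * β ^ 2 := by gcongr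
    have h5 : N * Λ ≤ N * Λ * β ^ 2 := le_mul_of_one_le_right (by positivity) h3
    have h6 : 2 * (q * β ^ 3) ≤ N * (q * β ^ 3) := by gcongr
    have h7 : 0 < q * β ^ 3 := by positivity
    nlinarith
  · have l1 : ∀ᶠ L in atTop, rho L Λ < 51 / 50 * q ^ 2 :=
      hlim.eventually (gt_mem_nhds (by rw [hq2]; linarith))
    have l2 : ∀ᶠ L in atTop, (49 / 50 * q) ^ 2 < rho L Λ :=
      hlim.eventually (lt_mem_nhds (by rw [mul_pow, hq2]; linarith))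
    filter_upwards [l1, l2, eventually_gt_atTop 0] with L h1 h2 hL
    have h3 : 0 < rho L Λ := lt_of_le_of_lt (sq_nonneg _) h2
    constructor
    · refine (hup L Λ α (ε L) (3 / 10 * q / β ^ 3) (1 / β ^ 2) β (1 / β ^ 2) hL hΛ hα0 (hε L)
        (by positivity) (by positivity)
        ((div_le_one (by positivity)).mpr (one_le_pow₀ h1β)) hΛβ (by positivity)).trans ?_
      rw [EReal.coe_le_coe_iff, ← hβ]
      exact upper_arith (by positivity) hΛ hq0 h1β h1.le hD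
    · refine le_trans ?_ (lower_bound hL α (hε L) h3)
      rw [EReal.coe_le_coe_iff, hsq]
      have : 49 / 50 * q ≤ √(rho L Λ) := Real.le_sqrt_of_sq_le h2.le
      gcongr

end Pool.Agent.Lib.MP_791321_mp
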