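import Pool.Agent.Lib.MP_791321_mp.CCR

set_option autoImplicit false

open scoped ComplexConjugate InnerProductSpace
open Filter Topology

namespace Pool.Agent.Lib.MP_791321_mp

namespace CCR

variable {I S : Type*} [Fintype I] [DecidableEq I] [SeminormedAddCommGroup S]
  [InnerProductSpace ℂ S] (C : CCR I S) {ι : Type*} [Fintype ι]
  (f : ι → EuclideanSpace ℂ I) (s : ι → ℝ) (Ω : S)

noncomputable def Qop : S →ₗ[ℂ] S := ∑ r, ((s r : ℂ) / 2) • (C.Cr (f r) ∘ₗ C.Cr (f r))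

noncomputable def Top (g : EuclideanSpace ℂ I) : S →ₗ[ℂ] S :=
  ∑ r, ((s r : ℂ) * ⟪g, f r⟫_ℂ) • C.Cr (f r)

noncomputable def Pv : ℕ → S
  | 0 => Ω
  | m + 1 => (-1 / ((m : ℂ) + 1)) • C.Qop f s (Pv m)

noncomputable def Phi (M : ℕ) : S := ∑ m ∈ Finset.range (M + 1), C.Pv f s Ω m

lemma Qop_apply (u : S) : C.Qop f s u = ∑ r, ((s r : ℂ) / 2) • C.Cr (f r) (C.Cr (f r) u) := by
  simp [Qop, LinearMap.sum_apply]

lemma Top_apply (g : EuclideanSpace ℂ I) (u : S) :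
    C.Top f s g u = ∑ r, ((s r : ℂ) * ⟪g, f r⟫_ℂ) • C.Cr (f r) u := by
  simp [Top, LinearMap.sum_apply]

lemma An_Qop (g : EuclideanSpace ℂ I) (u : S) :
    C.An g (C.Qop f s u) = C.Qop f s (C.An g u) + C.Top f s g u := by
  simp only [Qop_apply, Top_apply, map_sum, map_smul, ← Finset.sum_add_distrib]
  refine Finset.sum_congr rfl fun r _ => ?_
  rw [An_Cr, An_Cr, map_add, map_smul]
  module

lemma Cr_Qop (g : EuclideanSpace ℂ I) (u : S) :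
    C.Cr g (C.Qop f s u) = C.Qop f s (C.Cr g u) := by
  simp only [Qop_apply, map_sum, map_smul]
  refine Finset.sum_congr rfl fun r _ => ?_
  rw [C.Cr_Cr g (f r), C.Cr_Cr g (f r)]

lemma Top_Qop (g : EuclideanSpace ℂ I) (u : S) :
    C.Top f s g (C.Qop f s u) = C.Qop f s (C.Top f s g u) := by
  rw [Top_apply, Top_apply, map_sum]
  refine Finset.sum_congr rfl fun r _ => ?_
  rw [map_smul, Cr_Qop]

lemma Qop_Pv (m : ℕ) : C.Qop f s (C.Pv f s Ω m) = (-((m : ℂ) + 1)) • C.Pv f s Ω (m + 1) := by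
  have : ((m : ℂ) + 1) ≠ 0 := by exact_mod_cast Nat.succ_ne_zero m
  rw [Pv, smul_smul]
  have h : (-((m : ℂ) + 1)) * (-1 / ((m : ℂ) + 1)) = 1 := by field_simp
  rw [h, one_smul]

variable {Ω}

lemma An_vac (hΩ : ∀ m, C.a m Ω = 0) (g : EuclideanSpace ℂ I) : C.An g Ω = 0 := by
  simp [An_apply, hΩ]

lemma An_Pv (hΩ : ∀ m, C.a m Ω = 0) (g : EuclideanSpace ℂ I) (m : ℕ) :
    C.An g (C.Pv f s Ω (m + 1)) = -C.Top f s g (C.Pv f s Ω m) := by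
  induction m with
  | zero =>
    simp only [Pv, map_smul, An_Qop, C.An_vac hΩ]
    simp
  | succ m ih =>
    rw [Pv, map_smul, An_Qop, ih, map_neg, ← Top_Qop, Qop_Pv, map_smul]
    have : ((m : ℂ) + 1 + 1) ≠ 0 := by exact_mod_cast Nat.succ_ne_zero (m + 1)
    have h : (-1 / (((m + 1 : ℕ) : ℂ) + 1)) * ((m : ℂ) + 1 + 1) = -1 := by
      push_cast; field_simp
    calc _ = ((-1 / (((m + 1 : ℕ) : ℂ) + 1)) * ((m : ℂ) + 1 + 1)) •
          C.Top f s g (C.Pv f s Ω (m + 1)) := by module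
      _ = _ := by rw [h]; simp

lemma Phi_succ (M : ℕ) : C.Phi f s Ω (M + 1) = C.Phi f s Ω M + C.Pv f s Ω (M + 1) := by
  simp [Phi, Finset.sum_range_succ]

lemma Phi_zero : C.Phi f s Ω 0 = Ω := by simp [Phi, Pv]

lemma An_Phi (hΩ : ∀ m, C.a m Ω = 0) (g : EuclideanSpace ℂ I) (M : ℕ) :
    C.An g (C.Phi f s Ω (M + 1)) = -C.Top f s g (C.Phi f s Ω M) := by
  induction M with
  | zero => rw [Phi_succ, Phi_zero, map_add, C.An_vac hΩ, An_Pv _ _ _ hΩ, Pv]; simp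
  | succ M ih =>
    rw [Phi_succ, map_add, ih, An_Pv _ _ _ hΩ, Phi_succ, map_add]; abel

variable {f}

lemma Top_f (hf : Orthonormal ℂ f) (r : ι) (u : S) :
    C.Top f s (f r) u = (s r : ℂ) • C.Cr (f r) u := by
  classical
  rw [Top_apply, Finset.sum_eq_single r]
  · rw [orthonormal_iff_ite.mp hf]; simp
  · intro b _ hb
    rw [orthonormal_iff_ite.mp hf]; simp [Ne.symm hb]
  · simp

lemma An_Phi_expand (hf : Orthonormal ℂ f) (hΩ : ∀ m, C.a m Ω = 0) (g : EuclideanSpace ℂ I)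
    (M : ℕ) : C.An g (C.Phi f s Ω M) = ∑ r, ⟪g, f r⟫_ℂ • C.An (f r) (C.Phi f s Ω M) := by
  cases M with
  | zero => simp [Phi_zero, C.An_vac hΩ]
  | succ M =>
    simp only [An_Phi _ _ _ hΩ, Top_f _ _ hf]
    rw [Top_apply, ← Finset.sum_neg_distrib]
    refine Finset.sum_congr rfl fun r _ => ?_
    module

lemma An_Phi_orth (hf : Orthonormal ℂ f) (hΩ : ∀ m, C.a m Ω = 0) (M : ℕ) :
    ∀ r r', r ≠ r' → ⟪C.An (f r) (C.Phi f s Ω M), C.An (f r') (C.Phi f s Ω M)⟫_ℂ = 0 := by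
  induction M with
  | zero => intro r r' _; simp [Phi_zero, C.An_vac hΩ]
  | succ M ih =>
    intro r r' h
    simp only [An_Phi _ _ _ hΩ, Top_f _ _ hf, inner_neg_left, inner_neg_right, inner_smul_left,
      inner_smul_right, inner_Cr_Cr, ih r' r h.symm, hf.2 h]
    simp

lemma Cr_Phi_orth (hf : Orthonormal ℂ f) (hΩ : ∀ m, C.a m Ω = 0) (M : ℕ) (r r' : ι)
    (h : r ≠ r') : ⟪C.Cr (f r) (C.Phi f s Ω M), C.Cr (f r') (C.Phi f s Ω M)⟫_ℂ = 0 := by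
  rw [inner_Cr_Cr, C.An_Phi_orth s hf hΩ M r' r h.symm, hf.2 h]; simp

lemma inner_Pv_succ (u : S) (m : ℕ) :
    ((m : ℂ) + 1) * ⟪u, C.Pv f s Ω (m + 1)⟫_ℂ =
      -∑ r, ((s r : ℂ) / 2) * ⟪C.An (f r) u, C.Cr (f r) (C.Pv f s Ω m)⟫_ℂ := by
  have h := congrArg (fun v => ⟪u, v⟫_ℂ) (C.Qop_Pv f s Ω m)
  simp only [Qop_apply, inner_sum, inner_smul_right, ← An_adj] at h
  simp only [An_adj] at h ⊢
  rw [h]; ring

lemma inner_Pv_Pv (hf : Orthonormal ℂ f) (hΩ : ∀ m, C.a m Ω = 0) (m m' : ℕ) :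
    ((m : ℂ) + 1) * ⟪C.Pv f s Ω (m' + 1), C.Pv f s Ω (m + 1)⟫_ℂ =
      ∑ r, ((s r : ℂ) ^ 2 / 2) * ⟪C.Cr (f r) (C.Pv f s Ω m'), C.Cr (f r) (C.Pv f s Ω m)⟫_ℂ := by
  rw [inner_Pv_succ, ← Finset.sum_neg_distrib]
  refine Finset.sum_congr rfl fun r _ => ?_
  rw [An_Pv _ _ _ hΩ, Top_f _ _ hf, inner_neg_left, inner_smul_left, Complex.conj_ofReal]
  ring

lemma Pv_orth (hf : Orthonormal ℂ f) (hΩ : ∀ m, C.a m Ω = 0) (m m' : ℕ) (h : m' < m + 1) :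
    ⟪C.Pv f s Ω m', C.Pv f s Ω (m + 1)⟫_ℂ = 0 := by
  cases m' with
  | zero =>
    have h1 := C.inner_Pv_succ (f := f) s (Ω := Ω) Ω m
    simp only [C.An_vac hΩ, inner_zero_left, mul_zero, Finset.sum_const_zero, neg_zero] at h1
    have : ((m : ℂ) + 1) ≠ 0 := by exact_mod_cast Nat.succ_ne_zero m
    exact (mul_eq_zero.mp h1).resolve_left this
  | succ m' =>
    have h1 := C.inner_Pv_Pv s hf hΩ m m'
    have h2 := congrArg (starRingEnd ℂ) (C.inner_Pv_Pv s hf hΩ m' m)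
    simp only [map_mul, map_add, map_sum, map_div₀, map_pow, Complex.conj_ofReal, map_one,
      Complex.conj_natCast, inner_conj_symm, map_ofNat] at h2
    have h3 : ((m : ℂ) - m') * ⟪C.Pv f s Ω (m' + 1), C.Pv f s Ω (m + 1)⟫_ℂ = 0 := by
      rw [← h2] at h1; linear_combination h1
    have h4 : ((m : ℂ) - m') ≠ 0 := by
      rw [sub_ne_zero]; exact_mod_cast (by omega : m ≠ m')
    exact (mul_eq_zero.mp h3).resolve_left h4

lemma norm_Phi_succ (hf : Orthonormal ℂ f) (hΩ : ∀ m, C.a m Ω = 0) (M : ℕ) :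
    ‖C.Phi f s Ω (M + 1)‖ ^ 2 = ‖C.Phi f s Ω M‖ ^ 2 + ‖C.Pv f s Ω (M + 1)‖ ^ 2 := by
  rw [Phi_succ, @norm_add_sq ℂ]
  have : ⟪C.Phi f s Ω M, C.Pv f s Ω (M + 1)⟫_ℂ = 0 := by
    rw [Phi, sum_inner]
    exact Finset.sum_eq_zero fun m hm => C.Pv_orth s hf hΩ M m (Finset.mem_range.mp hm)
  rw [this]; simp

lemma norm_Phi_mono (hf : Orthonormal ℂ f) (hΩ : ∀ m, C.a m Ω = 0) (M : ℕ) :
    ‖C.Phi f s Ω M‖ ^ 2 ≤ ‖C.Phi f s Ω (M + 1)‖ ^ 2 := by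
  rw [C.norm_Phi_succ s hf hΩ]; nlinarith [sq_nonneg ‖C.Pv f s Ω (M + 1)‖]

lemma one_le_norm_Phi (hf : Orthonormal ℂ f) (hΩ : ∀ m, C.a m Ω = 0) (h1 : ‖Ω‖ = 1) (M : ℕ) :
    1 ≤ ‖C.Phi f s Ω M‖ := by
  have : 1 ≤ ‖C.Phi f s Ω M‖ ^ 2 := by
    induction M with
    | zero => simp [Phi_zero, h1]
    | succ M ih => exact ih.trans (C.norm_Phi_mono s hf hΩ M)
  nlinarith [norm_nonneg (C.Phi f s Ω M)]

lemma norm_An_Phi (hf : Orthonormal ℂ f) (hΩ : ∀ m, C.a m Ω = 0) (hs : ∀ r, 0 ≤ s r ∧ s r < 1)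
    (r : ι) (M : ℕ) :
    ‖C.An (f r) (C.Phi f s Ω M)‖ ^ 2 ≤ s r ^ 2 / (1 - s r ^ 2) * ‖C.Phi f s Ω M‖ ^ 2 := by
  have h0 : 0 < 1 - s r ^ 2 := by nlinarith [hs r]
  induction M with
  | zero => rw [Phi_zero, C.An_vac hΩ]; simp; positivity
  | succ M ih =>
    rw [An_Phi _ _ _ hΩ, Top_f _ _ hf, norm_neg, norm_smul, mul_pow, norm_Cr_sq, hf.1 r]
    have h2 := C.norm_Phi_mono s hf hΩ M
    have h3 : ‖(s r : ℂ)‖ ^ 2 = s r ^ 2 := by simp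
    rw [h3]
    have h4 : s r ^ 2 * (s r ^ 2 / (1 - s r ^ 2) + 1) = s r ^ 2 / (1 - s r ^ 2) := by
      field_simp; ring
    have h5 : 0 ≤ s r ^ 2 / (1 - s r ^ 2) := by positivity
    calc _ ≤ s r ^ 2 * (s r ^ 2 / (1 - s r ^ 2) * ‖C.Phi f s Ω M‖ ^ 2
            + 1 ^ 2 * ‖C.Phi f s Ω M‖ ^ 2) := by gcongr
      _ = s r ^ 2 * (s r ^ 2 / (1 - s r ^ 2) + 1) * ‖C.Phi f s Ω M‖ ^ 2 := by ring
      _ ≤ _ := by rw [h4]; gcongr

lemma norm_Cr_Phi (hf : Orthonormal ℂ f) (hΩ : ∀ m, C.a m Ω = 0) (hs : ∀ r, 0 ≤ s r ∧ s r < 1)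
    (r : ι) (M : ℕ) :
    ‖C.Cr (f r) (C.Phi f s Ω M)‖ ^ 2 ≤ 1 / (1 - s r ^ 2) * ‖C.Phi f s Ω M‖ ^ 2 := by
  have h0 : 0 < 1 - s r ^ 2 := by nlinarith [hs r]
  rw [norm_Cr_sq, hf.1 r]
  have := C.norm_An_Phi s hf hΩ hs r M
  have h4 : 1 / (1 - s r ^ 2) = s r ^ 2 / (1 - s r ^ 2) + 1 := by field_simp; ring
  rw [h4]; nlinarith

lemma tail_tendsto (hf : Orthonormal ℂ f) (hΩ : ∀ m, C.a m Ω = 0) (hs : ∀ r, 0 ≤ s r ∧ s r < 1) :
    Tendsto (fun m => ∑ r, ‖C.Cr (f r) (C.Pv f s Ω m)‖ ^ 2) atTop (𝓝 0) := by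
  obtain ⟨s0, hs0, hs1, hs2⟩ : ∃ s0 : ℝ, 0 ≤ s0 ∧ s0 < 1 ∧ ∀ r, s r ^ 2 ≤ s0 := by
    rcases isEmpty_or_nonempty ι with h | h
    · exact ⟨0, le_rfl, one_pos, fun r => isEmptyElim r⟩
    · obtain ⟨r0, hr0⟩ := Finite.exists_max fun r => s r ^ 2
      exact ⟨s r0 ^ 2, sq_nonneg _, by nlinarith [hs r0], hr0⟩
  set z : ℕ → ℝ := fun m => ∑ r, ‖C.Cr (f r) (C.Pv f s Ω m)‖ ^ 2 with hz
  have z0 : ∀ m, 0 ≤ z m := fun m => Finset.sum_nonneg fun r _ => sq_nonneg _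
  have hx : ∀ m : ℕ, 2 * ((m : ℝ) + 1) * ‖C.Pv f s Ω (m + 1)‖ ^ 2 =
      ∑ r, s r ^ 2 * ‖C.Cr (f r) (C.Pv f s Ω m)‖ ^ 2 := by
    intro m
    have h := C.inner_Pv_Pv s hf hΩ m m
    simp only [inner_self_eq_norm_sq_to_K] at h
    have h' : ((m : ℝ) + 1) * ‖C.Pv f s Ω (m + 1)‖ ^ 2 =
      ∑ r, s r ^ 2 / 2 * ‖C.Cr (f r) (C.Pv f s Ω m)‖ ^ 2 := by
      apply Complex.ofReal_injective
      push_cast
      exact h
    rw [mul_assoc, h', Finset.mul_sum]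
    exact Finset.sum_congr rfl fun r _ => by ring
  have hz1 : ∀ m : ℕ, z (m + 1) = (2 * ((m : ℝ) + 1) + Fintype.card ι) *
      ‖C.Pv f s Ω (m + 1)‖ ^ 2 := by
    intro m
    rw [add_mul, hx, hz]
    simp only [norm_Cr_sq C _ (C.Pv f s Ω (m + 1)), Finset.sum_add_distrib, hf.1, An_Pv _ _ _ hΩ,
      Top_f _ _ hf, norm_neg, norm_smul, mul_pow]
    simp
  have hz2 : ∀ m : ℕ, 2 * ((m : ℝ) + 1) * ‖C.Pv f s Ω (m + 1)‖ ^ 2 ≤ s0 * z m := by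
    intro m
    rw [hx, hz, Finset.mul_sum]
    exact Finset.sum_le_sum fun r _ => by gcongr; exact hs2 r
  have hq : ∀ᶠ m : ℕ in atTop, (2 * ((m : ℝ) + 1) + Fintype.card ι) * s0 ≤
      (1 + s0) / 2 * (2 * ((m : ℝ) + 1)) := by
    obtain ⟨B, hB⟩ := exists_nat_ge ((Fintype.card ι : ℝ) * s0 / (1 - s0))
    filter_upwards [eventually_ge_atTop B] with m hm
    have h1 : (B : ℝ) ≤ m := by exact_mod_cast hm
    rw [div_le_iff₀ (by linarith)] at hB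
    nlinarith
  have hsum : Summable z := by
    refine summable_of_ratio_norm_eventually_le (r := (1 + s0) / 2) (by linarith) ?_
    filter_upwards [hq] with m hm
    rw [Real.norm_of_nonneg (z0 _), Real.norm_of_nonneg (z0 _), hz1]
    have hm0 : 0 < 2 * ((m : ℝ) + 1) := by positivity
    have h2 := hz2 m
    have h3 : ‖C.Pv f s Ω (m + 1)‖ ^ 2 ≤ s0 * z m / (2 * ((m : ℝ) + 1)) := by
      rw [le_div_iff₀ hm0]; linarith
    calc _ ≤ (2 * ((m : ℝ) + 1) + Fintype.card ι) * (s0 * z m / (2 * ((m : ℝ) + 1))) := by gcongr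
      _ = (2 * ((m : ℝ) + 1) + Fintype.card ι) * s0 / (2 * ((m : ℝ) + 1)) * z m := by ring
      _ ≤ _ := by
        refine mul_le_mul_of_nonneg_right ?_ (z0 m)
        rw [div_le_iff₀ hm0]; exact hm
  exact hsum.tendsto_atTop_zero

end CCR

lemma norm_sq_sum_orth {S ι : Type*} [SeminormedAddCommGroup S] [InnerProductSpace ℂ S]
    [Fintype ι] (v : ι → S) (h : ∀ r r', r ≠ r' → ⟪v r, v r'⟫_ℂ = 0) (c : ι → ℂ) :
    ‖∑ r, c r • v r‖ ^ 2 = ∑ r, ‖c r‖ ^ 2 * ‖v r‖ ^ 2 := by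
  have : ⟪∑ r, c r • v r, ∑ r, c r • v r⟫_ℂ = ∑ r, ((‖c r‖ ^ 2 * ‖v r‖ ^ 2 : ℝ) : ℂ) := by
    rw [sum_inner]
    refine Finset.sum_congr rfl fun r _ => ?_
    rw [inner_sum, Finset.sum_eq_single r]
    · rw [inner_self_eq_norm_sq_to_K, norm_smul]; simp [mul_pow]
    · intro b _ hb
      rw [inner_smul_left, inner_smul_right, h r b hb.symm]; simp
    · simp
  rw [inner_self_eq_norm_sq_to_K] at this
  apply Complex.ofReal_injective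
  push_cast at this ⊢
  exact this

lemma norm_sum_smul_le {S ι : Type*} [SeminormedAddCommGroup S] [InnerProductSpace ℂ S]
    [Fintype ι] (v : ι → S) (c : ι → ℝ) :
    ‖∑ r, (c r : ℂ) • v r‖ ≤ √(∑ r, c r ^ 2) * √(∑ r, ‖v r‖ ^ 2) := by
  calc _ ≤ ∑ r, |c r| * ‖v r‖ := (norm_sum_le _ _).trans (le_of_eq (by simp [norm_smul]))
    _ ≤ √(∑ r, |c r| ^ 2) * √(∑ r, ‖v r‖ ^ 2) := Real.sum_mul_le_sqrt_mul_sqrt _ _ _
    _ = _ := by simp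

namespace CCR

variable {I S : Type*} [Fintype I] [DecidableEq I] [SeminormedAddCommGroup S]
  [InnerProductSpace ℂ S] (C : CCR I S) {ι : Type*} [Fintype ι]

/-- Truncated squeezed states. -/
theorem squeeze {f : ι → EuclideanSpace ℂ I} (s : ι → ℝ) {Ω : S} (hf : Orthonormal ℂ f)
    (hΩ : ∀ m, C.a m Ω = 0) (h1 : ‖Ω‖ = 1) (hs : ∀ r, 0 ≤ s r ∧ s r < 1) {κ : ℝ} (hκ : 0 < κ) :
    ∃ Φ : S, 1 ≤ ‖Φ‖ ∧
      (∀ ω : I → ℝ, (∀ m, 0 ≤ ω m) → ∑ m, ω m * ‖C.a m Φ‖ ^ 2 ≤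
        (∑ r, s r ^ 2 / (1 - s r ^ 2) * ∑ m, ω m * ‖f r m‖ ^ 2) * ‖Φ‖ ^ 2) ∧
      (∀ c : ι → ℝ, ‖C.An (∑ r, (c r : ℂ) • f r) Φ + C.Cr (∑ r, (c r : ℂ) • f r) Φ‖ ≤
        (√(∑ r, c r ^ 2 * ((1 - s r) / (1 + s r))) + κ * √(∑ r, c r ^ 2)) * ‖Φ‖) ∧
      (∀ g : EuclideanSpace ℂ I, (∀ r, ⟪g, f r⟫_ℂ = 0) →
        ‖C.An g Φ + C.Cr g Φ‖ = ‖g‖ * ‖Φ‖) := by
  have ht := C.tail_tendsto s hf hΩ hs
  obtain ⟨M, hM⟩ := (eventually_atTop.mp (ht.eventually (gt_mem_nhds (sq_pos_of_pos hκ))))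
  have hM1 := hM (M + 1) (by omega)
  have hone := C.one_le_norm_Phi s hf hΩ h1 (M + 1)
  refine ⟨C.Phi f s Ω (M + 1), hone, ?_, ?_, ?_⟩
  · intro ω hω
    have : ∀ m, ‖C.a m (C.Phi f s Ω (M + 1))‖ ^ 2 =
        ∑ r, ‖f r m‖ ^ 2 * ‖C.An (f r) (C.Phi f s Ω (M + 1))‖ ^ 2 := by
      intro m
      rw [← An_single, C.An_Phi_expand s hf hΩ, norm_sq_sum_orth _ (C.An_Phi_orth s hf hΩ _)]
      simp [EuclideanSpace.inner_single_left]
    simp only [this, Finset.mul_sum, Finset.sum_mul]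
    rw [Finset.sum_comm]
    refine Finset.sum_le_sum fun r _ => Finset.sum_le_sum fun m _ => ?_
    have h2 := C.norm_An_Phi s hf hΩ hs r (M + 1)
    have h3 := hω m
    calc _ ≤ ω m * (‖f r m‖ ^ 2 * (s r ^ 2 / (1 - s r ^ 2) * ‖C.Phi f s Ω (M + 1)‖ ^ 2)) := by
          gcongr
      _ = _ := by ring
  · intro c
    have e : C.An (∑ r, (c r : ℂ) • f r) (C.Phi f s Ω (M + 1)) +
        C.Cr (∑ r, (c r : ℂ) • f r) (C.Phi f s Ω (M + 1)) =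
        ∑ r, ((c r * (1 - s r) : ℝ) : ℂ) • C.Cr (f r) (C.Phi f s Ω M) +
          ∑ r, (c r : ℂ) • C.Cr (f r) (C.Pv f s Ω (M + 1)) := by
      simp only [map_sum, LinearMap.map_smulₛₗ, LinearMap.sum_apply, LinearMap.smul_apply,
        ← Finset.sum_add_distrib, Complex.conj_ofReal, RingHom.id_apply]
      refine Finset.sum_congr rfl fun r _ => ?_
      rw [An_Phi _ _ _ hΩ, Top_f _ _ hf, Phi_succ, map_add]
      push_cast
      module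
    rw [e, add_mul]
    refine (norm_add_le _ _).trans (add_le_add ?_ ?_)
    · have hn : 0 ≤ ∑ r, c r ^ 2 * ((1 - s r) / (1 + s r)) :=
        Finset.sum_nonneg fun r _ => by
          have := hs r
          have : 0 ≤ 1 - s r := by linarith
          have : 0 ≤ 1 + s r := by linarith
          positivity
      refine (sq_le_sq₀ (norm_nonneg _) (by positivity)).mp ?_
      rw [norm_sq_sum_orth _ (C.Cr_Phi_orth s hf hΩ M), mul_pow, Real.sq_sqrt hn, Finset.sum_mul]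
      refine Finset.sum_le_sum fun r _ => ?_
      have h2 := C.norm_Cr_Phi s hf hΩ hs r M
      have h3 := C.norm_Phi_mono s hf hΩ M
      have h4 := hs r
      have h0 : 0 < 1 - s r ^ 2 := by nlinarith
      have h5 : 0 < 1 + s r := by linarith
      have h6 : 0 < 1 - s r := by linarith
      rw [Complex.norm_real, Real.norm_eq_abs, sq_abs]
      calc _ ≤ (c r * (1 - s r)) ^ 2 * (1 / (1 - s r ^ 2) * ‖C.Phi f s Ω (M + 1)‖ ^ 2) := by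
            gcongr
            exact h2.trans (by gcongr)
        _ = _ := by
            have : 1 - s r ^ 2 = (1 - s r) * (1 + s r) := by ring
            rw [this]; field_simp
    · refine (norm_sum_smul_le _ _).trans ?_
      have h2 : √(∑ r, ‖C.Cr (f r) (C.Pv f s Ω (M + 1))‖ ^ 2) ≤ κ :=
        Real.sqrt_le_iff.mpr ⟨hκ.le, hM1.le⟩
      calc _ ≤ √(∑ r, c r ^ 2) * κ := by gcongr
        _ = κ * √(∑ r, c r ^ 2) * 1 := by ring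
        _ ≤ _ := by gcongr
  · intro g hg
    have h2 : C.An g (C.Phi f s Ω (M + 1)) = 0 := by
      rw [C.An_Phi_expand s hf hΩ]; simp [hg]
    rw [h2, zero_add]
    refine (sq_eq_sq₀ (norm_nonneg _) (by positivity)).mp ?_
    rw [norm_Cr_sq, h2, mul_pow]; simp

end CCR

end Pool.Agent.Lib.MP_791321_mp
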