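import Pool.Agent.Lib.MP_791321_mp.Defs
import Pool.Agent.Lib.MP_791321_mp.Fock

set_option autoImplicit false

open scoped ComplexConjugate InnerProductSpace ContDiff
open MeasureTheory

namespace Pool.Agent.Lib.MP_791321_mp

def TSub (N : ℕ) : Submodule ℂ ((Fin N → Fin 2) → (Fin N → V3) → ℂ) where
  carrier := {φ | ∀ σ, ContDiff ℝ ∞ (φ σ) ∧ HasCompactSupport (φ σ)}
  add_mem' hu hv σ := ⟨(hu σ).1.add (hv σ).1, (hu σ).2.add (hv σ).2⟩
  zero_mem' _ := ⟨contDiff_const, HasCompactSupport.zero⟩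
  smul_mem' c _ hu σ := ⟨(hu σ).1.const_smul c, (hu σ).2.smul_left (f := fun _ => c)⟩

def Tst (N : ℕ) : Type := ↥(TSub N)

namespace Tst

variable {N : ℕ}

noncomputable instance : AddCommGroup (Tst N) := inferInstanceAs (AddCommGroup ↥(TSub N))
noncomputable instance : Module ℂ (Tst N) := inferInstanceAs (Module ℂ ↥(TSub N))

def val (u : Tst N) : (Fin N → Fin 2) → (Fin N → V3) → ℂ := (show ↥(TSub N) from u).1

def mk (u : (Fin N → Fin 2) → (Fin N → V3) → ℂ)
    (h : ∀ σ, ContDiff ℝ ∞ (u σ) ∧ HasCompactSupport (u σ)) : Tst N := (⟨u, h⟩ : ↥(TSub N))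

@[simp] lemma val_mk (u : (Fin N → Fin 2) → (Fin N → V3) → ℂ)
    (h : ∀ σ, ContDiff ℝ ∞ (u σ) ∧ HasCompactSupport (u σ)) : (mk u h).val = u := rfl
lemma smooth (u : Tst N) (σ : Fin N → Fin 2) : ContDiff ℝ ∞ (u.val σ) :=
  ((show ↥(TSub N) from u).2 σ).1
lemma cpt (u : Tst N) (σ : Fin N → Fin 2) : HasCompactSupport (u.val σ) :=
  ((show ↥(TSub N) from u).2 σ).2
lemma cont (u : Tst N) (σ : Fin N → Fin 2) : Continuous (u.val σ) := (u.smooth σ).continuous
lemma diff (u : Tst N) (σ : Fin N → Fin 2) : Differentiable ℝ (u.val σ) :=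
  (u.smooth σ).differentiable (by simp)
@[ext] lemma ext {u v : Tst N} (h : ∀ σ x, u.val σ x = v.val σ x) : u = v :=
  Subtype.ext (funext fun σ => funext (h σ))
@[simp] lemma val_add (u v : Tst N) : (u + v).val = u.val + v.val := rfl
@[simp] lemma val_smul (c : ℂ) (u : Tst N) : (c • u).val = c • u.val := rfl
@[simp] lemma val_zero : (0 : Tst N).val = 0 := rfl
@[simp] lemma val_sum {J : Type*} (s : Finset J) (u : J → Tst N) :
    (∑ j ∈ s, u j).val = ∑ j ∈ s, (u j).val := by
  classical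
  induction s using Finset.induction_on with
  | empty => simp
  | insert a s ha ih => simp [Finset.sum_insert ha, ih]

lemma integrable_inner (u v : Tst N) (σ : Fin N → Fin 2) :
    Integrable fun x => conj (u.val σ x) * v.val σ x :=
  Continuous.integrable_of_hasCompactSupport
    ((Complex.continuous_conj.comp (u.cont σ)).mul (v.cont σ)) ((v.cpt σ).mul_left)

lemma integrable_normSq (u : Tst N) (σ : Fin N → Fin 2) :
    Integrable fun x => ‖u.val σ x‖ ^ 2 := by
  refine Continuous.integrable_of_hasCompactSupport ((u.cont σ).norm.pow 2) ?_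
  exact (u.cpt σ).comp_left (g := fun z : ℂ => ‖z‖ ^ 2) (by simp)

lemma integral_self (u : Tst N) (σ : Fin N → Fin 2) :
    ∫ x, conj (u.val σ x) * u.val σ x = ((∫ x, ‖u.val σ x‖ ^ 2 : ℝ) : ℂ) := by
  rw [← integral_complex_ofReal]
  simp [Complex.conj_mul']

@[reducible] noncomputable def core : PreInnerProductSpace.Core ℂ (Tst N) where
  inner u v := ∑ σ, ∫ x, conj (u.val σ x) * v.val σ x
  conj_inner_symm u v := by
    simp only [map_sum, ← integral_conj, map_mul, Complex.conj_conj, mul_comm]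
  re_inner_nonneg u := by
    simp only [integral_self, RCLike.re_to_complex, Complex.re_sum, Complex.ofReal_re]
    exact Finset.sum_nonneg fun σ _ => integral_nonneg fun x => sq_nonneg _
  add_left u v w := by
    rw [← Finset.sum_add_distrib]
    refine Finset.sum_congr rfl fun σ _ => ?_
    rw [← integral_add (integrable_inner u w σ) (integrable_inner v w σ)]
    simp [add_mul]
  smul_left u v r := by
    rw [Finset.mul_sum]
    refine Finset.sum_congr rfl fun σ _ => ?_
    rw [← integral_const_mul]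
    simp [mul_assoc]

noncomputable instance : SeminormedAddCommGroup (Tst N) :=
  letI := core (N := N)
  InnerProductSpace.Core.toSeminormedAddCommGroup (𝕜 := ℂ)

noncomputable instance : InnerProductSpace ℂ (Tst N) := InnerProductSpace.ofCore core

lemma inner_def (u v : Tst N) : ⟪u, v⟫_ℂ = ∑ σ, ∫ x, conj (u.val σ x) * v.val σ x := rfl

lemma norm_sq_eq (u : Tst N) : ‖u‖ ^ 2 = ∑ σ, ∫ x, ‖u.val σ x‖ ^ 2 := by
  have h := inner_def u u
  simp only [inner_self_eq_norm_sq_to_K, integral_self] at h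
  apply Complex.ofReal_injective
  push_cast
  exact h

lemma norm_pos {u : Tst N} (h : u ≠ 0) : 0 < ‖u‖ := by
  obtain ⟨σ, x, hx⟩ : ∃ σ x, u.val σ x ≠ 0 := by
    by_contra hc
    push Not at hc
    exact h (ext fun σ x => by simp [hc])
  have h1 : 0 < ∫ x, ‖u.val σ x‖ ^ 2 :=
    Continuous.integral_pos_of_hasCompactSupport_nonneg_nonzero (x := x)
      ((u.cont σ).norm.pow 2) ((u.cpt σ).comp_left (g := fun z : ℂ => ‖z‖ ^ 2) (by simp))
      (fun x => sq_nonneg _) (by simpa using hx)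
  have h2 : 0 < ‖u‖ ^ 2 := by
    rw [norm_sq_eq]
    exact lt_of_lt_of_le h1 (Finset.single_le_sum (f := fun σ => ∫ x, ‖u.val σ x‖ ^ 2)
      (fun σ _ => integral_nonneg fun x => sq_nonneg _) (Finset.mem_univ σ))
  exact lt_of_le_of_ne (norm_nonneg _) fun h0 => by simp [← h0] at h2

/-- momentum in direction `v` -/
noncomputable def p (v : Fin N → V3) : Tst N →ₗ[ℂ] Tst N where
  toFun u := mk (fun σ x => -Complex.I * fderiv ℝ (u.val σ) x v) fun σ =>
    ⟨contDiff_const.mul (((u.smooth σ).fderiv_right (m := ∞) (by simp)).clm_apply contDiff_const),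
      ((u.cpt σ).fderiv_apply ℝ v).mul_left⟩
  map_add' u w := by
    ext σ x
    simp only [val_mk, val_add, Pi.add_apply]
    rw [fderiv_add (u.diff σ x) (w.diff σ x)]
    simp [mul_add]
  map_smul' c u := by
    ext σ x
    simp only [val_mk, val_smul, Pi.smul_apply, RingHom.id_apply, smul_eq_mul]
    rw [fderiv_const_smul (u.diff σ x)]
    simp; ring

lemma val_p (v : Fin N → V3) (u : Tst N) (σ : Fin N → Fin 2) (x : Fin N → V3) :
    (p v u).val σ x = -Complex.I * fderiv ℝ (u.val σ) x v := rfl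

/-- multiplication by a smooth function -/
noncomputable def mul (f : (Fin N → V3) → ℂ) (hf : ContDiff ℝ ∞ f) : Tst N →ₗ[ℂ] Tst N where
  toFun u := mk (fun σ x => f x * u.val σ x) fun σ => ⟨hf.mul (u.smooth σ), (u.cpt σ).mul_left⟩
  map_add' u w := by ext σ x; simp [mul_add]
  map_smul' c u := by ext σ x; simp; ring

lemma val_mul (f : (Fin N → V3) → ℂ) (hf : ContDiff ℝ ∞ f) (u : Tst N) (σ : Fin N → Fin 2)
    (x : Fin N → V3) : (mul f hf u).val σ x = f x * u.val σ x := rfl

/-- evaluation -/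
def ev (σ : Fin N → Fin 2) (x : Fin N → V3) : Tst N →ₗ[ℂ] ℂ where
  toFun u := u.val σ x
  map_add' u w := by simp
  map_smul' c u := by simp

@[simp] lemma ev_apply (σ : Fin N → Fin 2) (x : Fin N → V3) (u : Tst N) :
    ev σ x u = u.val σ x := rfl

lemma p_symm (v : Fin N → V3) (u w : Tst N) : ⟪p v u, w⟫_ℂ = ⟪u, p v w⟫_ℂ := by
  rw [inner_def, inner_def]
  refine Finset.sum_congr rfl fun σ _ => ?_
  have hd : ∀ x, fderiv ℝ (fun x => conj (u.val σ x)) x v = conj (fderiv ℝ (u.val σ) x v) := by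
    intro x
    have := (Complex.conjCLE.toContinuousLinearMap.hasFDerivAt.comp x
      (u.diff σ x).hasFDerivAt).fderiv
    have h2 : (fun x => conj (u.val σ x)) = Complex.conjCLE.toContinuousLinearMap ∘ u.val σ := by
      ext x; simp
    rw [h2, this]; simp
  have hc : Differentiable ℝ fun x => conj (u.val σ x) :=
    Complex.conjCLE.differentiable.comp (u.diff σ)
  have i1 := integrable_inner (p v u) w σ
  have i2 := integrable_inner u (p v w) σ
  have h := integral_mul_fderiv_eq_neg_fderiv_mul_of_integrable (μ := volume)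
    (f := fun x => conj (u.val σ x)) (g := w.val σ) (v := v) ?_ ?_ (integrable_inner u w σ)
    (fun x _ => hc x) (fun x _ => w.diff σ x)
  · simp only [val_p, map_mul, map_neg, Complex.conj_I, neg_neg]
    simp only [hd] at h
    calc _ = Complex.I * ∫ x, conj (fderiv ℝ (u.val σ) x v) * w.val σ x := by
          rw [← integral_const_mul]; simp [mul_assoc]
      _ = -Complex.I * ∫ x, conj (u.val σ x) * fderiv ℝ (w.val σ) x v := by rw [h]; ring
      _ = _ := by
          rw [← integral_const_mul]; congr 1; ext x; ring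
  · refine (i1.const_mul (-Complex.I)).congr (ae_of_all _ fun x => ?_)
    simp only [val_p, hd, map_mul, map_neg, Complex.conj_I, neg_neg]
    linear_combination (-(conj (fderiv ℝ (u.val σ) x v) * w.val σ x)) * Complex.I_mul_I
  · refine (i2.const_mul Complex.I).congr (ae_of_all _ fun x => ?_)
    simp only [val_p]
    linear_combination (-(conj (u.val σ x) * fderiv ℝ (w.val σ) x v)) * Complex.I_mul_I

lemma mul_adj (f g : (Fin N → V3) → ℂ) (hf : ContDiff ℝ ∞ f) (hg : ContDiff ℝ ∞ g)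
    (h : ∀ x, conj (f x) = g x) (u w : Tst N) : ⟪mul f hf u, w⟫_ℂ = ⟪u, mul g hg w⟫_ℂ := by
  rw [inner_def, inner_def]
  refine Finset.sum_congr rfl fun σ _ => ?_
  congr 1; ext x
  simp only [val_mul, map_mul, h]; ring

end Tst

/-- plane wave in the coordinate of particle `j` -/
noncomputable def ex {N : ℕ} (j : Fin N) (k : V3) (x : Fin N → V3) : ℂ :=
  Complex.exp (Complex.I * (inner ℝ k (x j) : ℝ))

noncomputable def exL {N : ℕ} (j : Fin N) (k : V3) : (Fin N → V3) →L[ℝ] ℂ :=
  Complex.I • (Complex.ofRealCLM.comp ((innerSL ℝ k).comp (ContinuousLinearMap.proj j)))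

lemma ex_eq {N : ℕ} (j : Fin N) (k : V3) : ex j k = fun x => Complex.exp (exL j k x) := by
  ext x; simp [ex, exL]

lemma ex_smooth {N : ℕ} (j : Fin N) (k : V3) : ContDiff ℝ ∞ (ex j k) := by
  rw [ex_eq]; exact (exL j k).contDiff.cexp

lemma ex_neg {N : ℕ} (j : Fin N) (k : V3) (x : Fin N → V3) :
    ex j (-k) x = Complex.exp (-(Complex.I * (inner ℝ k (x j) : ℝ))) := by
  simp [ex]

lemma conj_ex {N : ℕ} (j : Fin N) (k : V3) (x : Fin N → V3) : conj (ex j k x) = ex j (-k) x := by
  rw [ex_neg, ex, ← Complex.exp_conj]; simp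

lemma ex_mul_neg {N : ℕ} (j : Fin N) (k : V3) (x : Fin N → V3) : ex j k x * ex j (-k) x = 1 := by
  rw [ex_neg, ex, ← Complex.exp_add]; simp

lemma fderiv_ex {N : ℕ} (j : Fin N) (k : V3) (x v : Fin N → V3) :
    fderiv ℝ (ex j k) x v = Complex.I * (inner ℝ k (v j) : ℝ) * ex j k x := by
  rw [ex_eq, ((exL j k).hasFDerivAt (x := x)).cexp.fderiv]
  simp [exL]; ring

lemma p_mul_ex {N : ℕ} (j : Fin N) (k : V3) (v : Fin N → V3) (u : Tst N) :
    Tst.p v (Tst.mul (ex j k) (ex_smooth j k) u) = Tst.mul (ex j k) (ex_smooth j k) (Tst.p v u) +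
      ((inner ℝ k (v j) : ℝ) : ℂ) • Tst.mul (ex j k) (ex_smooth j k) u := by
  ext σ x
  have : (Tst.mul (ex j k) (ex_smooth j k) u).val σ = ex j k * u.val σ := rfl
  simp only [Tst.val_p, Tst.val_add, Tst.val_smul, Pi.add_apply, Pi.smul_apply, Tst.val_mul,
    smul_eq_mul]
  rw [this, fderiv_mul ((ex_smooth j k).differentiable (by simp) x) (u.diff σ x)]
  simp only [add_apply, smul_apply, fderiv_ex,
    smul_eq_mul]
  linear_combination (-((inner ℝ k (v j) : ℝ) * ex j k x * u.val σ x)) * Complex.I_mul_I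

end Pool.Agent.Lib.MP_791321_mp
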