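import Pool.Agent.Lib.MP_791321_mp.Geometry

set_option autoImplicit false

open scoped ComplexConjugate InnerProductSpace ContDiff
open MeasureTheory

namespace Pool.Agent.Lib.MP_791321_mp

variable {L Λ : ℝ} {N : ℕ}

def Anti (φ : Tst N) : Prop :=
  ∀ (π : Equiv.Perm (Fin N)) σ x, φ.val (σ ∘ π) (x ∘ π) = ((Equiv.Perm.sign π : ℤ) : ℂ) * φ.val σ x

noncomputable def bump : ContDiffBump (0 : V3) := ⟨1 / 2, 1, by norm_num, by norm_num⟩

noncomputable def phi1 (N : ℕ) (x : Fin N → V3) : ℝ :=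
  (Matrix.vandermonde fun j => x j 0).det * ∏ j, bump (x j)

lemma phi1_smooth : ContDiff ℝ ∞ (phi1 N) := by
  unfold phi1
  simp only [Matrix.det_vandermonde]
  have h : ∀ j : Fin N, ContDiff ℝ ∞ fun x : Fin N → V3 => x j 0 := fun j =>
    ((EuclideanSpace.proj (0 : Fin 3)).contDiff (𝕜 := ℝ)).comp (contDiff_apply ℝ V3 j)
  refine ContDiff.mul ?_ ?_
  · exact contDiff_prod fun i _ => contDiff_prod fun j _ => (h j).sub (h i)
  · exact contDiff_prod fun j _ => bump.contDiff.comp (contDiff_apply ℝ V3 j)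

lemma phi1_supp {x : Fin N → V3} (h : phi1 N x ≠ 0) (j : Fin N) : ‖x j‖ ≤ 1 := by
  by_contra hc
  apply h
  have : bump (x j) = 0 := bump.zero_of_le_dist (by simp [bump]; linarith)
  rw [phi1, Finset.prod_eq_zero (Finset.mem_univ j) this, mul_zero]

lemma phi1_anti (π : Equiv.Perm (Fin N)) (x : Fin N → V3) :
    phi1 N (x ∘ π) = (Equiv.Perm.sign π : ℤ) * phi1 N x := by
  have h1 : (Matrix.vandermonde fun j => (x ∘ π) j 0) =
      (Matrix.vandermonde fun j => x j 0).submatrix π id := by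
    ext i j; simp
  have h2 : ∏ j, bump ((x ∘ π) j) = ∏ j, bump (x j) := Equiv.prod_comp π fun j => bump (x j)
  rw [phi1, phi1, h1, Matrix.det_permute, h2]
  ring

lemma phi1_ne : ∃ x, phi1 N x ≠ 0 := by
  refine ⟨fun j => EuclideanSpace.single 0 ((j : ℝ) / (2 * (N + 1))), mul_ne_zero ?_ ?_⟩
  · rw [Matrix.det_vandermonde_ne_zero_iff]
    intro i j h
    simp only [PiLp.single_apply, if_true] at h
    have : (0 : ℝ) < 2 * (N + 1) := by positivity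
    rw [div_left_inj' this.ne'] at h
    exact Fin.ext (by exact_mod_cast h)
  · refine Finset.prod_ne_zero_iff.mpr fun j _ => ?_
    rw [bump.one_of_mem_closedBall]
    · exact one_ne_zero
    · have h : (j : ℝ) ≤ N := by exact_mod_cast j.2.le
      have : (0 : ℝ) < 2 * (N + 1) := by positivity
      simp only [bump, Metric.mem_closedBall, dist_zero_right, PiLp.norm_single, Real.norm_eq_abs]
      rw [abs_of_nonneg (by positivity), div_le_iff₀ this]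
      linarith

noncomputable def phiT (N : ℕ) : Tst N :=
  Tst.mk (fun _ x => (phi1 N x : ℂ)) fun _ =>
    ⟨Complex.ofRealCLM.contDiff.comp phi1_smooth,
      HasCompactSupport.intro (isCompact_closedBall (0 : Fin N → V3) 1) fun x hx => by
        by_contra hc
        apply hx
        rw [mem_closedBall_zero_iff, pi_norm_le_iff_of_nonneg zero_le_one]
        exact phi1_supp (by simpa using hc)⟩

noncomputable def scale (r : ℝ) (hr : r ≠ 0) (φ : Tst N) : Tst N :=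
  Tst.mk (fun σ x => φ.val σ (r • x)) fun σ =>
    ⟨(φ.smooth σ).comp (contDiff_const_smul r), (φ.cpt σ).comp_smul hr⟩

lemma norm_scale (r : ℝ) (hr : r ≠ 0) (φ : Tst N) :
    ‖scale r hr φ‖ ^ 2 = |(r ^ Module.finrank ℝ (Fin N → V3))⁻¹| * ‖φ‖ ^ 2 := by
  rw [Tst.norm_sq_eq, Tst.norm_sq_eq, Finset.mul_sum]
  refine Finset.sum_congr rfl fun σ _ => ?_
  exact Measure.integral_comp_smul volume (fun x => ‖φ.val σ x‖ ^ 2) r

lemma p_scale (r : ℝ) (hr : r ≠ 0) (φ : Tst N) (v : Fin N → V3) :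
    Tst.p v (scale r hr φ) = (r : ℂ) • scale r hr (Tst.p v φ) := by
  ext σ x
  have h : HasFDerivAt (fun x => φ.val σ (r • x))
      ((fderiv ℝ (φ.val σ) (r • x)).comp (r • ContinuousLinearMap.id ℝ _)) x :=
    (φ.diff σ (r • x)).hasFDerivAt.comp x ((hasFDerivAt_id x).const_smul r)
  simp only [Tst.val_p, scale, Tst.val_mk, Tst.val_smul, Pi.smul_apply, smul_eq_mul, h.fderiv]
  simp
  ring

theorem fermion_trial (N : ℕ) : ∃ T : ℝ, 0 ≤ T ∧ ∀ r : ℝ, 0 < r → ∃ φ : Tst N, 0 < ‖φ‖ ∧ Anti φ ∧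
    (∀ σ x, φ.val σ x ≠ 0 → ∀ j, ‖x j‖ ≤ 1 / r) ∧
    ∑ j, ∑ i, ‖Tst.p (dir j i) φ‖ ^ 2 = T * r ^ 2 * ‖φ‖ ^ 2 := by
  have h0 : 0 < ‖phiT N‖ := Tst.norm_pos fun h => by
    obtain ⟨x, hx⟩ := phi1_ne (N := N)
    have := congrFun (congrFun (congrArg Tst.val h) (fun _ => 0)) x
    simp [phiT, hx] at this
  refine ⟨(∑ j, ∑ i, ‖Tst.p (dir j i) (phiT N)‖ ^ 2) / ‖phiT N‖ ^ 2,
    div_nonneg (Finset.sum_nonneg fun _ _ => Finset.sum_nonneg fun _ _ => sq_nonneg _)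
      (sq_nonneg _),
    fun r hr => ⟨scale r hr.ne' (phiT N), ?_, ?_, ?_, ?_⟩⟩
  · have h1 : 0 < ‖scale r hr.ne' (phiT N)‖ ^ 2 := by rw [norm_scale]; positivity
    exact lt_of_le_of_ne (norm_nonneg _) fun h => by simp [← h] at h1
  · intro π σ x
    simp only [scale, phiT, Tst.val_mk]
    rw [show r • (x ∘ π) = (r • x) ∘ π from rfl, phi1_anti]
    push_cast; rfl
  · intro σ x hx j
    have h1 := phi1_supp (x := r • x) (by simpa [scale, phiT] using hx) j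
    rw [Pi.smul_apply, norm_smul, Real.norm_of_nonneg hr.le] at h1
    rw [le_div_iff₀ hr]; linarith
  · simp only [p_scale, norm_smul, mul_pow, norm_scale, Complex.norm_real, Real.norm_eq_abs,
      sq_abs, ← Finset.mul_sum]
    field_simp

noncomputable def prodS (Φ : Fk (Mode L Λ) ℂ) (φ : Tst N) : SS L Λ N :=
  Fk.lift (LinearMap.toSpanSingleton ℂ (Tst N) φ) Φ

lemma val_prodS (Φ : Fk (Mode L Λ) ℂ) (φ : Tst N) (n : Mode L Λ → ℕ) :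
    (prodS Φ φ).val n = Φ.val n • φ := rfl

lemma norm_prodS (Φ : Fk (Mode L Λ) ℂ) (φ : Tst N) : ‖prodS Φ φ‖ ^ 2 = ‖Φ‖ ^ 2 * ‖φ‖ ^ 2 := by
  have hs : ∀ n, n ∉ Φ.fin.toFinset → Φ.val n = 0 := fun n hn => by simpa using hn
  rw [Fk.norm_sq_eq Φ _ hs, Fk.norm_sq_eq _ Φ.fin.toFinset fun n hn => by
    simp [val_prodS, hs n hn], Finset.sum_mul]
  simp [val_prodS, norm_smul, mul_pow]

lemma a_prodS (m : Mode L Λ) (Φ : Fk (Mode L Λ) ℂ) (φ : Tst N) :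
    Fk.a m (prodS Φ φ) = prodS (Fk.a m Φ) φ := (Fk.lift_a _ m Φ).symm

lemma c_prodS (m : Mode L Λ) (Φ : Fk (Mode L Λ) ℂ) (φ : Tst N) :
    Fk.c m (prodS Φ φ) = prodS (Fk.c m Φ) φ := (Fk.lift_c _ m Φ).symm

lemma Pop_prodS (j : Fin N) (i : Fin 3) (Φ : Fk (Mode L Λ) ℂ) (φ : Tst N) :
    Pop j i (prodS Φ φ) = prodS Φ (Tst.p (dir j i) φ) := by
  ext1 n; simp [Pop, val_prodS]

lemma ev_Aop (ε : V3 → Fin 2 → V3) (j : Fin N) (i : Fin 3) (Φ : Fk (Mode L Λ) ℂ) (φ : Tst N)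
    (σ : Fin N → Fin 2) (x : Fin N → V3) :
    Fk.lift (Tst.ev σ x) (Aop ε j i (prodS Φ φ)) =
      φ.val σ x • (Fk.ccr.An (gy L Λ ε i (x j)) Φ + Fk.ccr.Cr (gy L Λ ε i (x j)) Φ) := by
  simp only [Aop, LinearMap.add_apply, CCR.An_apply, CCR.Cr_apply, map_add, map_sum, map_smul,
    smul_add, Finset.smul_sum]
  congr 1
  · refine Finset.sum_congr rfl fun m _ => ?_
    ext n
    simp only [dressed, LinearMap.comp_apply, a_prodS, Eop, Fk.val_smul, Fk.val_lift,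
      Tst.ev_apply, Tst.val_mul, val_prodS, Tst.val_smul, Pi.smul_apply, smul_eq_mul, uvec, gy,
      vec, map_mul, Complex.conj_ofReal, ← ex_neg, conj_ex, neg_neg, Fk.ccr]
    ring
  · refine Finset.sum_congr rfl fun m _ => ?_
    ext n
    simp only [dressed, LinearMap.comp_apply, c_prodS, Eop, Fk.val_smul, Fk.val_lift,
      Tst.ev_apply, Tst.val_mul, val_prodS, Tst.val_smul, Pi.smul_apply, smul_eq_mul, uvec, gy,
      vec, ← ex_neg, Fk.ccr]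
    ring

lemma norm_Aop_prodS (ε : V3 → Fin 2 → V3) (j : Fin N) (i : Fin 3) (Φ : Fk (Mode L Λ) ℂ)
    (φ : Tst N) (R B : ℝ) (hφ : ∀ σ x, φ.val σ x ≠ 0 → ∀ j, ‖x j‖ ≤ R)
    (hB : ∀ y, ‖y‖ ≤ R → ‖Fk.ccr.An (gy L Λ ε i y) Φ + Fk.ccr.Cr (gy L Λ ε i y) Φ‖ ≤ B * ‖Φ‖) :
    ‖Aop ε j i (prodS Φ φ)‖ ^ 2 ≤ B ^ 2 * ‖prodS Φ φ‖ ^ 2 := by
  obtain ⟨h1, h2⟩ := norm_sq_fibre (Aop ε j i (prodS Φ φ))
  rw [h2, norm_prodS, Tst.norm_sq_eq, ← mul_assoc, Finset.mul_sum]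
  refine Finset.sum_le_sum fun σ _ => ?_
  rw [← integral_const_mul]
  refine integral_mono (h1 σ) ((Tst.integrable_normSq φ σ).const_mul _) fun x => ?_
  simp only [ev_Aop, norm_smul, mul_pow]
  by_cases h0 : φ.val σ x = 0
  · simp [h0]
  · have h3 := hB _ (hφ σ x h0 j)
    calc _ ≤ ‖φ.val σ x‖ ^ 2 * (B * ‖Φ‖) ^ 2 := by gcongr
      _ = _ := by ring

lemma isCore_prodS (Φ : Fk (Mode L Λ) ℂ) (φ : Tst N) (h : Anti φ) : IsCore (toRaw (prodS Φ φ)) := by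
  refine ⟨(prodS Φ φ).fin.subset fun n hn h0 => hn ?_, fun n σ => ⟨Tst.smooth _ σ, Tst.cpt _ σ⟩,
    fun π n σ x => ?_⟩
  · simp [toRaw, h0]
  · simp only [toRaw, val_prodS, Tst.val_smul, Pi.smul_apply, smul_eq_mul, h π]
    ring

lemma norm_add_sq_le {S : Type*} [SeminormedAddCommGroup S] (x y : S) :
    ‖x + y‖ ^ 2 ≤ 21 * ‖x‖ ^ 2 + 21 / 20 * ‖y‖ ^ 2 := by
  have h : ‖x + y‖ ^ 2 ≤ (‖x‖ + ‖y‖) ^ 2 := by gcongr; exact norm_add_le x y
  nlinarith [sq_nonneg (20 * ‖x‖ - ‖y‖)]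

theorem upper_bound (N : ℕ) : ∃ T : ℝ, 0 ≤ T ∧ ∀ (L Λ α : ℝ) (ε : V3 → Fin 2 → V3)
    (t e r η : ℝ), 0 < L → 0 < Λ → 0 ≤ α → IsPolarisation ε → 0 < t → 0 < e → e ≤ 1 → Λ ≤ r →
    0 < η → E0 N α Λ L ε ≤ ((rho L Λ / (4 * t) + 9 * Λ / (4 * e) + 21 / 2 * T * r ^ 2 +
      63 / 40 * N * α * (√t + η + 2 * √e * √(Λ * (1 / r) ^ 2 * rho L Λ) +
        3 * √(Λ ^ 3 * (1 / r) ^ 4 * rho L Λ)) ^ 2 : ℝ) : EReal) := by
  obtain ⟨T, hT, hφ⟩ := fermion_trial N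
  refine ⟨T, hT, fun L Λ α ε t e r η hL hΛ hα hε ht he he1 hr hη => ?_⟩
  have hr0 : 0 < r := hΛ.trans_le hr
  obtain ⟨φ, p1, p2, p3, p4⟩ := hφ r hr0
  obtain ⟨Φ, q1, q2, q3⟩ := fock_trial hL hΛ hε (R := 1 / r) ht he he1 (by positivity)
    (by rw [mul_one_div, div_le_one hr0]; exact hr) hη
  set B := √t + η + 2 * √e * √(Λ * (1 / r) ^ 2 * rho L Λ) + 3 * √(Λ ^ 3 * (1 / r) ^ 4 * rho L Λ)
  have hn := norm_prodS Φ φ
  refine E0_le α ε _ (prodS Φ φ) (isCore_prodS Φ φ p2) ?_ ?_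
  · have h1 : 0 < ‖prodS Φ φ‖ ^ 2 := by rw [hn]; positivity
    exact lt_of_le_of_ne (norm_nonneg _) fun h => by simp [← h] at h1
  have e1 : ∑ m : Mode L Λ, ‖kk m‖ * ‖Fk.a m (prodS Φ φ)‖ ^ 2 ≤
      (rho L Λ / (4 * t) + 9 * Λ / (4 * e)) * ‖prodS Φ φ‖ ^ 2 := by
    simp only [a_prodS, norm_prodS, ← mul_assoc, ← Finset.sum_mul]
    gcongr
  have e2 : ∀ j i, ‖Dop α ε j i (prodS Φ φ)‖ ^ 2 ≤ 21 * (‖Φ‖ ^ 2 * ‖Tst.p (dir j i) φ‖ ^ 2) +
      21 / 20 * (α * (B ^ 2 * ‖prodS Φ φ‖ ^ 2)) := by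
    intro j i
    simp only [Dop, LinearMap.add_apply, LinearMap.smul_apply]
    refine (norm_add_sq_le _ _).trans ?_
    rw [Pop_prodS, norm_prodS, norm_smul, mul_pow, Complex.norm_real, Real.norm_eq_abs, sq_abs,
      Real.sq_sqrt hα]
    gcongr
    exact norm_Aop_prodS ε j i Φ φ _ B p3 (q3 i)
  have e3 : ∑ j, ∑ i, ‖Dop α ε j i (prodS Φ φ)‖ ^ 2 ≤
      (21 * T * r ^ 2 + 63 / 20 * N * α * B ^ 2) * ‖prodS Φ φ‖ ^ 2 := by
    refine (Finset.sum_le_sum fun j _ => Finset.sum_le_sum fun i _ => e2 j i).trans (le_of_eq ?_)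
    simp only [Finset.sum_add_distrib, ← Finset.mul_sum, p4, Finset.sum_const, Finset.card_univ,
      Fintype.card_fin, nsmul_eq_mul, hn]
    push_cast; ring
  rw [energy]
  nlinarith

end Pool.Agent.Lib.MP_791321_mp
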